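import Mathlib

/-! Displacement of a projection of small trace along all words (step K7). -/

open Finset

namespace Pool.Agent.Lib.MP_08bba9_an.K

/-- initial products of a word -/
def pre {M W : Type*} [Monoid M] (a : W → M) (u : ℕ → M) (w : ℕ → W) : ℕ → M
  | 0 => 1
  | i + 1 => pre a u w i * a (w i) * u i

variable {M : Type*} [CStarAlgebra M]

/-- the averaged conjugates along a word -/
noncomputable def avgS {W : Type*} (a S : W → M) (u : ℕ → M) (N : ℕ) (w : ℕ → W) : M :=
  (N : ℂ)⁻¹ • ∑ i ∈ range N, pre a u w i * S (w i) * star (pre a u w i)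

/-- the part of the finite setting used for displacement -/
structure Hyp (U : Set M) (τ : M →L[ℂ] ℂ) : Prop where
  proj : ∀ z ∈ U, IsStarProjection z
  cen : ∀ z ∈ U, ∀ x, z * x = x * z
  one : (1 : M) ∈ U
  mul : ∀ z ∈ U, ∀ z' ∈ U, z * z' ∈ U
  tU : ∀ z ∈ U, τ z = 1
  tr : ∀ x y, τ (x * y) = τ (y * x)
  pos : ∀ x, 0 ≤ (τ (star x * x)).re
  st : ∀ x, τ (star x) = star (τ x)
  join : ∀ p q, IsStarProjection p → IsStarProjection q → ∃ r, IsStarProjection r ∧
    r * p = p ∧ r * q = q ∧ (τ r).re ≤ (τ p).re + (τ q).re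
  cmp : ∀ p q, IsStarProjection p → IsStarProjection q → ∃ z ∈ U,
    (∃ v, star v * v = z * p ∧ q * v = v) ∨ (∃ v, star v * v = z * q ∧ p * v = v)

lemma pi_mul {v p : M} (hp : IsStarProjection p) (h : star v * v = p) : v * p = v := by
  have h1 : star (v - v * p) * (v - v * p) = 0 := by
    have e1 : p * p = p := hp.isIdempotentElem.eq
    rw [star_sub, star_mul, hp.isSelfAdjoint.star_eq]
    have : (star v - p * star v) * (v - v * p)
        = star v * v - star v * v * p - p * (star v * v) + p * (star v * v) * p := by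
      noncomm_ring
    rw [this, h, e1, e1]
    abel
  exact sub_eq_zero.1 (CStarRing.star_mul_self_eq_zero_iff _ |>.1 h1) |>.symm

lemma pi_final {v p : M} (hp : IsStarProjection p) (h : star v * v = p) :
    IsStarProjection (v * star v) := by
  refine ⟨?_, ?_⟩
  · show v * star v * (v * star v) = v * star v
    rw [mul_assoc, ← mul_assoc (star v), h, ← mul_assoc, pi_mul hp h]
  · show star (v * star v) = v * star v
    rw [star_mul, star_star]

lemma conj_proj {g p : M} (hg : g * star g = 1) (hp : IsStarProjection p) :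
    IsStarProjection (star g * p * g) := by
  refine ⟨?_, ?_⟩
  · show star g * p * g * (star g * p * g) = star g * p * g
    have : star g * p * g * (star g * p * g) = star g * (p * (g * star g) * p) * g := by
      noncomm_ring
    rw [this, hg, mul_one, hp.isIdempotentElem.eq]
  · show star (star g * p * g) = star g * p * g
    rw [star_mul, star_mul, star_star, hp.isSelfAdjoint.star_eq, mul_assoc]

lemma pre_unitary {W : Type*} {a : W → M} {u : ℕ → M} (ha : ∀ r, a r ∈ unitary M)
    (hu : ∀ i, u i ∈ unitary M) (w : ℕ → W) (i : ℕ) : pre a u w i ∈ unitary M := by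
  induction i with
  | zero => exact one_mem _
  | succ i ih => exact mul_mem (mul_mem ih (ha _)) (hu _)

omit [CStarAlgebra M] in
lemma pre_congr [Monoid M] {W : Type*} (a : W → M) {u u' : ℕ → M} {w w' : ℕ → W} (i : ℕ)
    (hu : ∀ j < i, u j = u' j) (hw : ∀ j < i, w j = w' j) : pre a u w i = pre a u' w' i := by
  induction i with
  | zero => rfl
  | succ i ih =>
    rw [pre, pre, ih (fun j hj => hu j (by omega)) (fun j hj => hw j (by omega)),
      hu i (by omega), hw i (by omega)]

lemma sym_unitary {u : M} (h1 : star u = u) (h2 : u * u = 1) : u ∈ unitary M :=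
  ⟨by rw [h1, h2], by rw [h1, h2]⟩

namespace Hyp

variable {U : Set M} {τ : M →L[ℂ] ℂ} (h : Hyp U τ)
include h

lemma t_one : τ 1 = 1 := h.tU 1 h.one

lemma proj_nonneg {p : M} (hp : IsStarProjection p) : 0 ≤ (τ p).re := by
  have := h.pos p
  rwa [hp.isSelfAdjoint.star_eq, hp.isIdempotentElem.eq] at this

lemma proj_mul {z p : M} (hz : z ∈ U) (hp : IsStarProjection p) : IsStarProjection (z * p) :=
  (h.proj z hz).mul hp (h.cen z hz p)

lemma re_mul {z p : M} (hz : z ∈ U) (hp : IsStarProjection p) : (τ (z * p)).re = (τ p).re := by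
  have hc : ∀ x : M, Commute (1 - z) x := fun x =>
    (Commute.one_left x).sub_left (h.cen z hz x)
  have h1 := h.proj_nonneg ((h.proj z hz).one_sub.mul hp (hc p))
  have h2 := h.proj_nonneg ((h.proj z hz).one_sub.mul hp.one_sub (hc _))
  have e1 : (1 - z) * p = p - z * p := by noncomm_ring
  have e2 : (1 - z) * (1 - p) = 1 - z - (p - z * p) := by noncomm_ring
  rw [e1, map_sub, Complex.sub_re] at h1
  rw [e2, map_sub, map_sub, map_sub, h.t_one, h.tU z hz, sub_self, Complex.sub_re,
    Complex.sub_re, Complex.zero_re] at h2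
  linarith

lemma re_mono {p q : M} (hp : IsStarProjection p) (hq : IsStarProjection q) (hpq : q * p = p) :
    (τ p).re ≤ (τ q).re := by
  have := h.proj_nonneg (hp.sub_of_mul_eq_right hq hpq)
  rw [map_sub, Complex.sub_re] at this
  linarith

lemma re_conj {g : M} (hg : g * star g = 1) (p : M) : τ (star g * p * g) = τ p := by
  rw [h.tr, ← mul_assoc, hg, one_mul]

/-- comparison by the trace -/
lemma tc {p q : M} (hp : IsStarProjection p) (hq : IsStarProjection q)
    (hlt : (τ p).re < (τ q).re) : ∃ z ∈ U, ∃ v, star v * v = z * p ∧ q * v = v := by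
  obtain ⟨z, hz, hv | ⟨v, hv, hpv⟩⟩ := h.cmp p q hp hq
  · exact ⟨z, hz, hv⟩
  · exfalso
    have h1 := h.re_mono (pi_final (h.proj_mul hz hq) hv) hp (by rw [← mul_assoc, hpv])
    rw [h.tr, hv, h.re_mul hz hq] at h1
    linarith

/-- finite joins -/
lemma joinFin {ι : Type*} (s : Finset ι) (p : ι → M) (hp : ∀ i ∈ s, IsStarProjection (p i)) :
    ∃ r, IsStarProjection r ∧ (∀ i ∈ s, r * p i = p i) ∧
      (τ r).re ≤ ∑ i ∈ s, (τ (p i)).re := by
  classical
  induction s using Finset.induction_on with
  | empty => exact ⟨0, IsStarProjection.zero _, by simp, by simp⟩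
  | insert j s hj ih =>
    obtain ⟨r, hr, hr1, hr2⟩ := ih (fun i hi => hp i (mem_insert_of_mem hi))
    obtain ⟨r', hr', h1, h2, h3⟩ := h.join (p j) r (hp j (mem_insert_self _ _)) hr
    refine ⟨r', hr', fun i hi => ?_, ?_⟩
    · rcases mem_insert.1 hi with rfl | hi
      · exact h1
      · rw [← hr1 i hi, ← mul_assoc, h2]
    · rw [sum_insert hj]
      linarith

/-- one displacement step -/
lemma disp {F e : M} (hF : IsStarProjection F) (he : IsStarProjection e)
    (hlt : (τ F).re + 2 * (τ e).re < 1) :
    ∃ u : M, star u = u ∧ u * u = 1 ∧ ∃ z ∈ U, z * (F * u * e) = 0 := by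
  obtain ⟨r, hr, h1, h2, h3⟩ := h.join F e hF he
  obtain ⟨z, hz, v, hv, hrv⟩ := h.tc he hr.one_sub (by
    rw [map_sub, h.t_one, Complex.sub_re, Complex.one_re]; linarith)
  have hp := h.proj_mul hz he
  have rv : r * v = 0 := by rw [← hrv, ← mul_assoc, hr.mul_one_sub_self, zero_mul]
  have kill : ∀ x : M, IsStarProjection x → r * x = x → x * v = 0 := by
    intro x hx hrx
    have : x * r = x := by
      have := congrArg star hrx
      rwa [star_mul, hx.isSelfAdjoint.star_eq, hr.isSelfAdjoint.star_eq] at this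
    rw [← this, mul_assoc, rv, mul_zero]
  obtain ⟨p, hpd⟩ : ∃ p, p = z * e := ⟨_, rfl⟩
  rw [← hpd] at hp hv
  have pp : p * p = p := hp.isIdempotentElem.eq
  have ps : star p = p := hp.isSelfAdjoint.star_eq
  have vp : v * p = v := pi_mul hp hv
  have pv : p * v = 0 := by rw [hpd, mul_assoc, kill e he h2, mul_zero]
  have vv : v * v = 0 := by
    calc v * v = v * p * v := by rw [vp]
      _ = 0 := by rw [mul_assoc, pv, mul_zero]
  have sp : star v * p = 0 := by
    have := congrArg star pv
    rwa [star_mul, ps, star_zero] at this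
  have pS : p * star v = star v := by
    have := congrArg star vp
    rwa [star_mul, ps] at this
  have ss : star v * star v = 0 := by rw [← star_mul, vv, star_zero]
  obtain ⟨q, hqd⟩ : ∃ q, q = v * star v := ⟨_, rfl⟩
  have qq : q * q = q := by rw [hqd]; exact (pi_final hp hv).isIdempotentElem.eq
  have qs : star q = q := by rw [hqd, star_mul, star_star]
  have vq : v * q = 0 := by rw [hqd, ← mul_assoc, vv, zero_mul]
  have sq : star v * q = star v := by rw [hqd, ← mul_assoc, hv, pS]
  have pq : p * q = 0 := by rw [hqd, ← mul_assoc, pv, zero_mul]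
  have qv : q * v = v := by rw [hqd, mul_assoc, hv, vp]
  have qS : q * star v = 0 := by rw [hqd, mul_assoc, ss, mul_zero]
  have qp : q * p = 0 := by rw [hqd, mul_assoc, sp, mul_zero]
  refine ⟨v + star v + 1 - p - q, ?_, ?_, z, hz, ?_⟩
  · rw [star_sub, star_sub, star_add, star_add, star_star, star_one, ps, qs]
    abel
  · simp only [mul_add, add_mul, mul_sub, sub_mul, mul_one, one_mul, pp, vp, pv, vv, sp, pS, ss,
      qq, vq, sq, pq, qv, qS, qp, hv, ← hqd]
    abel
  · have e1 : (v + star v + 1 - p - q) * p = v := by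
      simp only [add_mul, sub_mul, one_mul, pp, vp, sp, qp]
      abel
    rw [h.cen z hz, mul_assoc, ← h.cen z hz, ← hpd, mul_assoc, e1, kill F hF h1]

lemma k7_ind {W : Type*} [Fintype W] [Nonempty W] (a : W → M) (ha : ∀ r, a r ∈ unitary M)
    {e : M} (he : IsStarProjection e) (N : ℕ)
    (hτ : ((N : ℝ) * (Fintype.card W : ℝ) ^ N + 2) * (τ e).re < 1) (i : ℕ) (hi : i ≤ N) :
    ∃ u : ℕ → M, (∀ j, star (u j) = u j ∧ u j * u j = 1) ∧ ∃ z ∈ U, ∃ F : M,
      IsStarProjection F ∧ (τ F).re ≤ ((i : ℝ) + 1) * (Fintype.card W : ℝ) ^ i * (τ e).re ∧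
      (∀ w, ∀ l ≤ i, F * (star (pre a u w i) * pre a u w l * e)
        = star (pre a u w i) * pre a u w l * e) ∧
      ∀ w l m, l < m → m ≤ i → z * (e * star (pre a u w l) * pre a u w m * e) = 0 := by
  have hc : (1 : ℝ) ≤ Fintype.card W := by exact_mod_cast Fintype.card_pos
  have he0 := h.proj_nonneg he
  induction i with
  | zero =>
    refine ⟨fun _ => 1, fun _ => by simp, 1, h.one, e, he, by simp, fun w l hl => ?_,
      fun w l m hlm hm => by omega⟩
    obtain rfl : l = 0 := by omega
    simp [pre, he.isIdempotentElem.eq]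
  | succ i ih =>
    obtain ⟨u, hu, z, hz, F, hF, hF1, hF2, hF3⟩ := ih (by omega)
    obtain ⟨F', hF', hj1, hj2⟩ := h.joinFin univ (fun r => star (a r) * F * a r)
      (fun r _ => conj_proj (ha r).2 hF)
    simp only [h.re_conj (ha _).2, sum_const, card_univ, nsmul_eq_mul] at hj2
    have b1 : (τ F').re ≤ ((i : ℝ) + 1) * (Fintype.card W : ℝ) ^ (i + 1) * (τ e).re := by
      refine hj2.trans ((mul_le_mul_of_nonneg_left hF1 (by positivity)).trans_eq ?_)
      ring
    have b2 : ((i : ℝ) + 1) * (Fintype.card W : ℝ) ^ (i + 1)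
        ≤ (N : ℝ) * (Fintype.card W : ℝ) ^ N :=
      mul_le_mul (by exact_mod_cast hi) (pow_le_pow_right₀ hc hi) (by positivity) (by positivity)
    obtain ⟨g, gs, gg, z', hz', hg⟩ := h.disp hF' he (by
      have := mul_le_mul_of_nonneg_right b2 he0
      linarith)
    have gu : g * star g = 1 := by rw [gs, gg]
    obtain ⟨F2, hF2p, k1, k2, k3⟩ := h.join _ e (conj_proj gu hF') he
    rw [h.re_conj gu] at k3
    have hlow : ∀ w, ∀ l ≤ i, pre a (Function.update u i g) w l = pre a u w l := fun w l hl =>
      pre_congr a l (fun j hj => Function.update_of_ne (by omega) _ _) (fun _ _ => rfl)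
    have htop : ∀ w, pre a (Function.update u i g) w (i + 1) = pre a u w i * a (w i) * g := by
      intro w
      rw [pre, hlow w i le_rfl, Function.update_self]
    have hu' : ∀ j, star (Function.update u i g j) = Function.update u i g j ∧
        Function.update u i g j * Function.update u i g j = 1 := by
      intro j
      by_cases hj : j = i
      · subst hj
        rw [Function.update_self]
        exact ⟨gs, gg⟩
      · rw [Function.update_of_ne hj]
        exact hu j
    -- the old ranges, seen in the frame after the letter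
    have key : ∀ w, ∀ l ≤ i, F' * (star (a (w i)) * (star (pre a u w i) * pre a u w l * e))
        = star (a (w i)) * (star (pre a u w i) * pre a u w l * e) := by
      intro w l hl
      have e1 : star (a (w i)) * (star (pre a u w i) * pre a u w l * e)
          = star (a (w i)) * F * a (w i)
            * (star (a (w i)) * (star (pre a u w i) * pre a u w l * e)) := by
        rw [mul_assoc (star (a (w i)) * F), ← mul_assoc (a (w i)), (ha _).2, one_mul,
          mul_assoc (star (a (w i))), hF2 w l hl]
      rw [e1, ← mul_assoc, hj1 _ (mem_univ _)]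
    refine ⟨Function.update u i g, hu', z * z', h.mul z hz z' hz', F2, hF2p, ?_, ?_, ?_⟩
    · have b3 : (1 : ℝ) ≤ (Fintype.card W : ℝ) ^ (i + 1) := one_le_pow₀ hc
      have := mul_le_mul_of_nonneg_right b3 he0
      push_cast
      nlinarith
    · intro w l hl
      rcases Nat.lt_or_ge i l with hl' | hl'
      · obtain rfl : l = i + 1 := by omega
        rw [(pre_unitary ha (fun j => sym_unitary (hu' j).1 (hu' j).2) w _).1, one_mul, k2]
      · rw [htop, hlow w l hl']
        have e1 : star (pre a u w i * a (w i) * g) * pre a u w l * e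
            = star g * F' * g
              * (star g * (star (a (w i)) * (star (pre a u w i) * pre a u w l * e))) := by
          rw [mul_assoc (star g * F'), ← mul_assoc g, gu, one_mul, mul_assoc (star g), key w l hl']
          simp only [star_mul, mul_assoc]
        rw [e1, ← mul_assoc, k1]
    · intro w l m hlm hm
      rcases Nat.lt_or_ge i m with hm' | hm'
      · obtain rfl : m = i + 1 := by omega
        have hl : l ≤ i := by omega
        rw [htop, hlow w l hl]
        have e0 := congrArg star (key w l hl)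
        simp only [star_mul, star_star, hF'.isSelfAdjoint.star_eq, he.isSelfAdjoint.star_eq] at e0
        have e1 : e * star (pre a u w l) * (pre a u w i * a (w i) * g) * e
            = e * (star (pre a u w l) * pre a u w i) * a (w i) * (F' * g * e) := by
          conv_rhs => rw [← mul_assoc, ← mul_assoc, e0]
          simp only [mul_assoc]
        rw [e1, mul_assoc z, ← mul_assoc z', h.cen z' hz', mul_assoc _ z', hg]
        simp
      · rw [hlow w l (by omega), hlow w m hm', h.cen z hz z', mul_assoc, hF3 w l m hlm hm',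
          mul_zero]

end Hyp

lemma norm_sum_orth {ι : Type*} (s : Finset ι) (x : ι → M) (hx : ∀ i ∈ s, ‖x i‖ ≤ 1)
    (ho : ∀ i ∈ s, ∀ j ∈ s, i ≠ j → star (x i) * x j = 0) :
    ‖∑ i ∈ s, x i‖ ≤ √(s.card : ℝ) := by
  apply Real.le_sqrt_of_sq_le
  rw [sq, ← CStarRing.norm_star_mul_self, star_sum, sum_mul_sum]
  have : ∀ i ∈ s, ∑ j ∈ s, star (x i) * x j = star (x i) * x i := fun i hi =>
    sum_eq_single i (fun j hj hji => ho i hi j hj hji.symm) (fun hn => (hn hi).elim)
  rw [sum_congr rfl this]
  refine (norm_sum_le _ _).trans ?_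
  have : ∀ i ∈ s, ‖star (x i) * x i‖ ≤ 1 := fun i hi => by
    rw [CStarRing.norm_star_mul_self]
    exact mul_le_one₀ (hx i hi) (norm_nonneg _) (hx i hi)
  simpa using sum_le_sum this

lemma norm_conj {g : M} (hg : g ∈ unitary M) (x : M) : ‖g * x * star g‖ = ‖x‖ := by
  rw [CStarRing.norm_mul_mem_unitary _ (Unitary.star_mem hg), CStarRing.norm_mem_unitary_mul _ hg]

/-- K7: displacement along all words -/
theorem k7 {U : Set M} {τ : M →L[ℂ] ℂ} (h : Hyp U τ) {W : Type*} [Fintype W] [DecidableEq W]
    (a : W → M) (ha : ∀ r, a r ∈ unitary M) {e : M} (he : IsStarProjection e) {N : ℕ} (hN : 0 < N)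
    (hτ : ((N : ℝ) * (Fintype.card W : ℝ) ^ N + 2) * (τ e).re < 1) :
    ∃ u : ℕ → M, (∀ j, star (u j) = u j ∧ u j * u j = 1) ∧ (∀ j, u j ∈ unitary M) ∧
      ∃ z ∈ U, ∀ (S : W → M) (G : Finset W) (ε : ℝ), 0 ≤ ε → (∀ r, ‖S r‖ ≤ 1) →
        (∀ r ∈ G, ‖(1 - e) * S r‖ ≤ ε) → ∀ w : ℕ → W, ‖z * avgS a S u N w‖
          ≤ ε + (((range N).filter (fun i => w i ∉ G)).card : ℝ) / N + 1 / √(N : ℝ) := by
  rcases isEmpty_or_nonempty W with hW | hW
  · exact ⟨fun _ => 1, fun _ => by simp, fun _ => one_mem _, 1, h.one,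
      fun _ _ _ _ _ _ w => hW.elim (w 0)⟩
  obtain ⟨u, hu, z, hz, -, -, -, -, ho⟩ := h.k7_ind a ha he N hτ N le_rfl
  have huu : ∀ j, u j ∈ unitary M := fun j => sym_unitary (hu j).1 (hu j).2
  refine ⟨u, hu, huu, z, hz, fun S G ε hε hS hG w => ?_⟩
  have hB := pre_unitary ha huu w
  have hzn : ‖z‖ ≤ 1 := (h.proj z hz).norm_le
  have hzs : star z = z := (h.proj z hz).isSelfAdjoint.star_eq
  have hes : star e = e := he.isSelfAdjoint.star_eq
  have hNr : (0 : ℝ) < N := by exact_mod_cast hN
  have zle : ∀ x : M, ‖z * x‖ ≤ ‖x‖ := fun x =>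
    (norm_mul_le _ _).trans (mul_le_of_le_one_left (norm_nonneg _) hzn)
  set B := pre a u w with hBd
  set s := (range N).filter (fun i => w i ∈ G) with hs
  set t := (range N).filter (fun i => w i ∉ G) with ht
  have hsN : (s.card : ℝ) ≤ N := by
    have := card_filter_le (range N) (fun i => w i ∈ G)
    rw [card_range] at this
    exact_mod_cast this
  have split : z * ∑ i ∈ range N, B i * S (w i) * star (B i)
      = ∑ i ∈ s, z * (B i * ((1 - e) * S (w i)) * star (B i))
        + ∑ i ∈ t, z * (B i * S (w i) * star (B i))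
        + ∑ i ∈ s, z * (B i * (e * S (w i)) * star (B i)) := by
    rw [← sum_filter_add_sum_filter_not (range N) (fun i => w i ∈ G), mul_add, mul_sum, mul_sum,
      add_right_comm, ← sum_add_distrib]
    congr 1
    refine sum_congr rfl fun i _ => ?_
    noncomm_ring
  have n1 : ‖∑ i ∈ s, z * (B i * ((1 - e) * S (w i)) * star (B i))‖ ≤ N * ε := by
    refine (norm_sum_le _ _).trans ?_
    refine (sum_le_card_nsmul _ _ ε fun i hi => ?_).trans ?_
    · exact (zle _).trans ((norm_conj (hB i) _).trans_le (hG _ (mem_filter.1 hi).2))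
    · rw [nsmul_eq_mul]
      exact mul_le_mul_of_nonneg_right hsN hε
  have n2 : ‖∑ i ∈ t, z * (B i * S (w i) * star (B i))‖ ≤ t.card := by
    refine (norm_sum_le _ _).trans ?_
    refine (sum_le_card_nsmul _ _ 1 fun i _ => ?_).trans (by simp)
    exact (zle _).trans ((norm_conj (hB i) _).trans_le (hS _))
  have n3 : ‖∑ i ∈ s, z * (B i * (e * S (w i)) * star (B i))‖ ≤ √(N : ℝ) := by
    refine (norm_sum_orth s _ (fun i _ => ?_) (fun i hi j hj hij => ?_)).trans
      (Real.sqrt_le_sqrt hsN)
    · refine (zle _).trans ((norm_conj (hB i) _).trans_le ((norm_mul_le _ _).trans ?_))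
      exact mul_le_one₀ he.norm_le (norm_nonneg _) (hS _)
    · have hiN : i ≤ N := (mem_range.1 (mem_filter.1 hi).1).le
      have hjN : j ≤ N := (mem_range.1 (mem_filter.1 hj).1).le
      have h0 : z * (e * star (B i) * B j * e) = 0 := by
        rcases lt_or_gt_of_ne hij with hlt | hlt
        · exact ho w i j hlt hjN
        · have := congrArg star (ho w j i hlt hiN)
          simp only [star_mul, star_star, hzs, hes, star_zero] at this
          rw [h.cen z hz, ← this]
          simp only [mul_assoc, hBd]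
      have e1 : star (z * (B i * (e * S (w i)) * star (B i)))
            * (z * (B j * (e * S (w j)) * star (B j)))
          = B i * star (S (w i)) * (e * star (B i) * (z * z) * (B j * e))
            * (S (w j) * star (B j)) := by
        simp only [star_mul, star_star, hzs, hes, mul_assoc]
      have e2 : e * star (B i) * z * (B j * e) = z * (e * star (B i) * B j * e) := by
        rw [← h.cen z hz]
        simp only [mul_assoc]
      rw [e1, (h.proj z hz).isIdempotentElem.eq, e2, h0, mul_zero, zero_mul]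
  rw [avgS, mul_smul_comm, norm_smul, norm_inv, Complex.norm_natCast, ← hBd, split]
  have tot := (norm_add_le _ _).trans (add_le_add ((norm_add_le _ _).trans (add_le_add n1 n2)) n3)
  refine (mul_le_mul_of_nonneg_left tot (by positivity)).trans_eq ?_
  have hq : 0 < √(N : ℝ) := Real.sqrt_pos.2 hNr
  have hqq : √(N : ℝ) * √(N : ℝ) = N := Real.mul_self_sqrt hNr.le
  have : (N : ℝ)⁻¹ * √(N : ℝ) = 1 / √(N : ℝ) := by
    field_simp
    nlinarith
  rw [mul_add, mul_add, this, ← mul_assoc, inv_mul_cancel₀ hNr.ne', one_mul,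
    div_eq_inv_mul _ (N : ℝ)]

end Pool.Agent.Lib.MP_08bba9_an.K
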