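import Mathlib

/-! Spectral projections from range projections, with the two estimates used for displacement. -/

noncomputable section

namespace Pool.Agent.Lib.MP_08bba9_an.K

variable {M : Type*} [CStarAlgebra M]

/-- Every element has a range projection. -/
def RK (M : Type*) [CStarAlgebra M] : Prop :=
  ∀ T : M, ∃ R : M, IsStarProjection R ∧ R * T = T ∧ ∀ x, x * T = 0 → x * R = 0

theorem tr_nonneg (τ : M →L[ℂ] ℂ) (tr : ∀ x y, τ (x * y) = τ (y * x))
    (pos : ∀ x, 0 ≤ (τ (star x * x)).re) (b c : M) :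
    0 ≤ (τ (star b * b * (star c * c))).re := by
  have h : τ (star b * b * (star c * c)) = τ (star (b * star c) * (b * star c)) := by
    rw [← mul_assoc, tr, star_mul, star_star]
    congr 1
    noncomm_ring
  rw [h]
  exact pos _

/-- The spectral projection of `S S⋆` above `ε ^ 2`. -/
theorem exists_sp (rk : RK M) (τ : M →L[ℂ] ℂ) (tr : ∀ x y, τ (x * y) = τ (y * x))
    (pos : ∀ x, 0 ≤ (τ (star x * x)).re) (S : M) {ε : ℝ} (hε : 0 ≤ ε) :
    ∃ f : M, IsStarProjection f ∧ ‖(1 - f) * S‖ ≤ ε ∧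
      ∀ p : ℕ, ε ^ (2 * p) * (τ f).re ≤ (τ ((S * star S) ^ p)).re := by
  let _ : PartialOrder M := CStarAlgebra.spectralOrder M
  have _ : StarOrderedRing M := CStarAlgebra.spectralOrderedRing M
  set h : M := S * star S with hh
  set t : ℝ := ε ^ 2 with ht
  have t0 : 0 ≤ t := by positivity
  have h0 : 0 ≤ h := mul_star_self_nonneg S
  set k : M := h - algebraMap ℝ M t with hk
  have ksa : IsSelfAdjoint k := h0.isSelfAdjoint.sub (IsSelfAdjoint.algebraMap M (IsSelfAdjoint.all t))
  obtain ⟨f, hf, f1, f2⟩ := rk (k⁺)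
  have kp : 0 ≤ k⁺ := CFC.posPart_nonneg k
  have kn : 0 ≤ k⁻ := CFC.negPart_nonneg k
  have kd : k⁺ - k⁻ = k := CFC.posPart_sub_negPart k ksa
  have n1 : k⁻ * f = 0 := f2 _ (CFC.negPart_mul_posPart k)
  have n2 : f * k⁻ = 0 := by
    have := congrArg star n1
    rwa [star_mul, hf.isSelfAdjoint.star_eq, kn.isSelfAdjoint.star_eq, star_zero] at this
  have p2 : k⁺ * f = k⁺ := by
    have := congrArg star f1
    rwa [star_mul, hf.isSelfAdjoint.star_eq, kp.isSelfAdjoint.star_eq] at this
  have hh' : h = algebraMap ℝ M t + (k⁺ - k⁻) := by rw [kd, hk]; abel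
  have ff : f * f = f := hf.isIdempotentElem.eq
  have hf' : IsStarProjection (1 - f) := hf.one_sub
  have hfm : h * f = t • f + k⁺ := by
    rw [hh', add_mul, sub_mul, p2, n1, sub_zero, ← Algebra.smul_def]
  refine ⟨f, hf, ?_, ?_⟩
  · have e1 : (1 - f) * S * star ((1 - f) * S) = t • (1 - f) - k⁻ := by
      rw [star_mul, hf'.isSelfAdjoint.star_eq]
      have : (1 - f) * S * (star S * (1 - f)) = (1 - f) * (h * (1 - f)) := by
        rw [hh]; noncomm_ring
      rw [this, mul_sub h, mul_one, hfm]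
      have e2 : h - (t • f + k⁺) = t • (1 - f) - k⁻ := by
        rw [hh', smul_sub, Algebra.algebraMap_eq_smul_one]; abel
      rw [e2, mul_sub, mul_smul_comm, hf'.isIdempotentElem.eq, sub_mul, one_mul, n2, sub_zero]
    have e3 : ‖(1 - f) * S * star ((1 - f) * S)‖ ≤ t := by
      have l1 : (1 - f) * S * star ((1 - f) * S) ≤ t • (1 - f) := by
        rw [e1]; exact sub_le_self _ kn
      refine (CStarAlgebra.norm_le_norm_of_nonneg_of_le (mul_star_self_nonneg _) l1).trans ?_
      rw [norm_smul, Real.norm_of_nonneg t0]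
      exact mul_le_of_le_one_right t0 hf'.norm_le
    rw [CStarRing.norm_self_mul_star, ht, ← sq] at e3
    exact (pow_le_pow_iff_left₀ (norm_nonneg _) hε two_ne_zero).1 e3
  · have key : ∀ {b c : M}, 0 ≤ b → 0 ≤ c → 0 ≤ (τ (b * c)).re := by
      intro b c hb hc
      obtain ⟨b', rfl⟩ := CStarAlgebra.nonneg_iff_eq_star_mul_self.1 hb
      obtain ⟨c', rfl⟩ := CStarAlgebra.nonneg_iff_eq_star_mul_self.1 hc
      exact tr_nonneg τ tr pos _ _
    have rs : ∀ x : M, (τ (t • x)).re = t * (τ x).re := by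
      intro x
      rw [← Complex.coe_smul, map_smul, smul_eq_mul, Complex.re_ofReal_mul]
    have step : ∀ p : ℕ, t ^ p * (τ f).re ≤ (τ (h ^ p * f)).re := by
      intro p
      induction p with
      | zero => simp
      | succ p ih =>
        rw [pow_succ h, mul_assoc, hfm, mul_add, mul_smul_comm, map_add, Complex.add_re, rs]
        have := key (CStarAlgebra.pow_nonneg h0 p) kp
        have h2 := mul_le_mul_of_nonneg_left ih t0
        rw [pow_succ]
        nlinarith
    intro p
    have e4 : h ^ p = h ^ p * f + h ^ p * (1 - f) := by noncomm_ring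
    have := key (CStarAlgebra.pow_nonneg h0 p) hf'.nonneg
    rw [pow_mul, ← ht, e4, map_add, Complex.add_re]
    linarith [step p]

end Pool.Agent.Lib.MP_08bba9_an.K
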