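import Pool.Agent.Lib.MP_08bba9_an.K.Disp
import Pool.Agent.Lib.MP_08bba9_an.K.Sp

/-! The norm property for words. -/

noncomputable section

namespace Pool.Agent.Lib.MP_08bba9_an.K

variable {M : Type*} [CStarAlgebra M]

/-- a finite word as an infinite word -/
def wext {W : Type*} {N : ℕ} (r : W) (w : Fin N → W) : ℕ → W :=
  fun j => if h : j < N then w ⟨j, h⟩ else r

/-- case D: projections of arbitrarily small positive trace -/
def Dif (τ : M →L[ℂ] ℂ) : Prop :=
  ∀ g : ℝ, 0 < g → ∃ s : M, IsStarProjection s ∧ 0 < (τ s).re ∧ (τ s).re ≤ g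

/-- the norm property under `z`: one sequence of unitaries for the whole family `Y` -/
def KP {R I : Type*} [Fintype R] (a : R → M) (Y : I → R → M) (z : M) (ε : ℝ) : Prop :=
  ∃ N : ℕ, 0 < N ∧ ∃ u : ℕ → M, (∀ j, u j ∈ unitary M) ∧ ∀ (r : R) (i : I),
    ∑ w : Fin N → R, ‖z * avgS a (Y i) u N (wext r w)‖ ≤ ε * (Fintype.card R : ℝ) ^ N

/-- the same for the twice expanded test -/
def KP2 {R I : Type*} [Fintype R] (a : R → M) (Y : I → R → M) (z : M) (ε : ℝ) : Prop :=
  ∃ N : ℕ, 0 < N ∧ ∃ u : ℕ → M, (∀ j, u j ∈ unitary M) ∧ ∃ r : R,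
    KP (fun v : Fin N → R => pre a u (wext r v) N)
      (fun i v => avgS a (Y i) u N (wext r v)) z ε

/-- `z` carries a sequence of isometries of `z M` with orthogonal ranges -/
def PInf (z : M) : Prop :=
  ∃ t : ℕ → M, (∀ i, star (t i) * t i = z) ∧ ∀ i j, i ≠ j → star (t i) * t j = 0

end Pool.Agent.Lib.MP_08bba9_an.K
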