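import Mathlib

/-! The Powers estimate for a chain of free symmetries in a star algebra with a trace. -/

namespace Pool.Agent.Lib.MP_08bba9_an.K5

open Finset

variable {B : Type*} [Ring B] [StarRing B] [Algebra ℂ B] [StarModule ℂ B]

/-- A normalised positive trace on a star algebra. -/
structure IsTr (t : B →ₗ[ℂ] ℂ) : Prop where
  comm : ∀ x y, t (x * y) = t (y * x)
  star : ∀ x, t (star x) = star (t x)
  pos : ∀ x, 0 ≤ (t (Star.star x * x)).re
  one : t 1 = 1

/-- The real scalar product defined by the trace. -/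
def ip (t : B →ₗ[ℂ] ℂ) (x y : B) : ℝ := (t (star x * y)).re

/-- The alternating word `b₁ u b₂ u ⋯ bₖ u`. -/
def alt (u : B) (l : List B) : B := (l.map (· * u)).prod

variable {t : B →ₗ[ℂ] ℂ}

omit [StarModule ℂ B] in
theorem ip_comm (ht : IsTr t) (x y : B) : ip t x y = ip t y x := by
  have := ht.star (star x * y)
  rw [star_mul, star_star] at this
  simp [ip, this]

omit [StarModule ℂ B] in
theorem ip_add_right (x y z : B) : ip t x (y + z) = ip t x y + ip t x z := by
  simp [ip, mul_add]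

omit [StarModule ℂ B] in
theorem ip_add_left (x y z : B) : ip t (x + y) z = ip t x z + ip t y z := by
  simp [ip, add_mul]

omit [StarModule ℂ B] in
theorem ip_sub_right (x y z : B) : ip t x (y - z) = ip t x y - ip t x z := by
  simp [ip, mul_sub]

omit [StarModule ℂ B] in
theorem ip_sub_left (x y z : B) : ip t (x - y) z = ip t x z - ip t y z := by
  simp [ip, sub_mul]

omit [StarModule ℂ B] in
theorem ip_sum_sum {ι : Type*} (s : Finset ι) (x y : ι → B) :
    ip t (∑ i ∈ s, x i) (∑ j ∈ s, y j) = ∑ i ∈ s, ∑ j ∈ s, ip t (x i) (y j) := by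
  simp [ip, star_sum, sum_mul_sum]

omit [StarModule ℂ B] in
theorem two_ip_le (ht : IsTr t) (x y : B) : 2 * ip t x y ≤ ip t x x + ip t y y := by
  have h : 0 ≤ ip t (x - y) (x - y) := ht.pos _
  rw [ip_sub_left, ip_sub_right, ip_sub_right, ip_comm ht y x] at h
  linarith

omit [StarModule ℂ B] in
theorem ip_add_le (ht : IsTr t) (x y : B) :
    ip t (x + y) (x + y) ≤ 2 * ip t x x + 2 * ip t y y := by
  rw [ip_add_left, ip_add_right, ip_add_right, ip_comm ht y x]
  linarith [two_ip_le ht x y]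

omit [StarModule ℂ B] in
theorem ip_sum_le (ht : IsTr t) {ι : Type*} (s : Finset ι) (x : ι → B) :
    ip t (∑ i ∈ s, x i) (∑ i ∈ s, x i) ≤ s.card * ∑ i ∈ s, ip t (x i) (x i) := by
  rw [ip_sum_sum]
  have h : 2 * ∑ i ∈ s, ∑ j ∈ s, ip t (x i) (x j) ≤
      ∑ i ∈ s, ∑ j ∈ s, (ip t (x i) (x i) + ip t (x j) (x j)) := by
    rw [mul_sum]
    refine sum_le_sum fun i _ => ?_
    rw [mul_sum]
    exact sum_le_sum fun j _ => two_ip_le ht _ _
  simp only [sum_add_distrib, sum_const, nsmul_eq_mul, ← mul_sum] at h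
  linarith

omit [StarModule ℂ B] in
theorem ip_sum_orth {ι : Type*} [DecidableEq ι] (s : Finset ι) (x : ι → B)
    (h : ∀ i j, i ≠ j → ip t (x i) (x j) = 0) :
    ip t (∑ i ∈ s, x i) (∑ i ∈ s, x i) = ∑ i ∈ s, ip t (x i) (x i) := by
  rw [ip_sum_sum]
  refine sum_congr rfl fun i hi => ?_
  exact sum_eq_single_of_mem i hi fun j _ hj => h i j hj.symm

theorem ip_smul (c : ℝ) (x : B) : ip t ((c : ℂ) • x) ((c : ℂ) • x) = c ^ 2 * ip t x x := by
  simp [ip, star_smul, sq, mul_assoc]

omit [StarModule ℂ B] in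
theorem ip_isom {v : B} (hv : star v * v = 1) (x : B) : ip t (v * x) (v * x) = ip t x x := by
  rw [ip, ip, star_mul, mul_assoc, ← mul_assoc (star v), hv, one_mul]

section words

variable {ι : Type*}

/-- Reduced words in the letters `L`, with the first and the last index. -/
inductive Wd (L : ι → Set B) : ι → ι → B → Prop
  | single {i : ι} {w : B} : w ∈ L i → Wd L i i w
  | cons {i j k : ι} {w x : B} : w ∈ L i → i ≠ j → Wd L j k x → Wd L i k (w * x)

variable {L : ι → Set B}

omit [StarRing B] [Algebra ℂ B] [StarModule ℂ B] in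
theorem Wd.mul {i k j l : ι} {x y : B} (hx : Wd L i k x) (hy : Wd L j l y) (h : k ≠ j) :
    Wd L i l (x * y) := by
  induction hx with
  | single hw => exact .cons hw h hy
  | cons hw hij _ ih => rw [mul_assoc]; exact .cons hw hij (ih h)

omit [Algebra ℂ B] [StarModule ℂ B] in
theorem Wd.star (hL : ∀ i, ∀ w ∈ L i, star w ∈ L i) {i k : ι} {x : B} (hx : Wd L i k x) :
    Wd L k i (star x) := by
  induction hx with
  | single hw => exact .single (hL _ _ hw)
  | cons hw hij _ ih => rw [star_mul]; exact ih.mul (.single (hL _ _ hw)) hij.symm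

variable (L) in
/-- The span of the reduced words with first index `i`. -/
def W (i : ι) : Submodule ℂ B := Submodule.span ℂ {x | ∃ k, Wd L i k x}

variable (L) in
/-- The span of `1` and of all reduced words. -/
def D (s : Finset ι) : Submodule ℂ B where
  carrier := {x | ∃ (c : ℂ) (y : ι → B), (∀ i, y i ∈ W L i) ∧ x = c • 1 + ∑ i ∈ s, y i}
  add_mem' := by
    rintro _ _ ⟨c, y, hy, rfl⟩ ⟨c', y', hy', rfl⟩
    refine ⟨c + c', y + y', fun i => add_mem (hy i) (hy' i), ?_⟩
    simp only [Pi.add_apply, sum_add_distrib, add_smul]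
    abel
  zero_mem' := ⟨0, 0, fun _ => zero_mem _, by simp⟩
  smul_mem' := by
    rintro a _ ⟨c, y, hy, rfl⟩
    exact ⟨a * c, a • y, fun i => Submodule.smul_mem _ _ (hy i), by
      simp [smul_sum, mul_smul]⟩

/-- A free family of sets of centred letters. -/
structure Fr (t : B →ₗ[ℂ] ℂ) (L : ι → Set B) (s : Finset ι) : Prop where
  idx : ∀ i, ∀ w ∈ L i, i ∈ s
  star : ∀ i, ∀ w ∈ L i, star w ∈ L i
  mul : ∀ i, ∀ z ∈ L i, ∀ w ∈ L i, z * w - t (z * w) • 1 ∈ L i
  free : ∀ i k x, Wd L i k x → t x = 0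

variable {s : Finset ι}

omit [StarModule ℂ B] in
theorem Fr.tW (h : Fr t L s) {i : ι} {x : B} (hx : x ∈ W L i) : t x = 0 := by
  induction hx using Submodule.span_induction with
  | mem x hx => obtain ⟨k, hk⟩ := hx; exact h.free _ _ _ hk
  | zero => simp
  | add x y _ _ a b => simp [a, b]
  | smul c x _ a => simp [a]

theorem Fr.orth (h : Fr t L s) {i j : ι} (hij : i ≠ j) {x y : B} (hx : x ∈ W L i)
    (hy : y ∈ W L j) : t (Star.star x * y) = 0 := by
  induction hx using Submodule.span_induction with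
  | mem x hx =>
    induction hy using Submodule.span_induction with
    | mem y hy =>
      obtain ⟨k, hk⟩ := hx
      obtain ⟨l, hl⟩ := hy
      exact h.free _ _ _ ((hk.star h.star).mul hl hij)
    | zero => simp
    | add x y _ _ a b => simp [mul_add, a, b]
    | smul c x _ a => simp [a]
  | zero => simp
  | add x y _ _ a b => simp [add_mul, a, b]
  | smul c x _ a => simp [star_smul, a]

omit [StarRing B] [StarModule ℂ B] in
theorem mul_mem_W {i j : ι} (hij : i ≠ j) {z y : B} (hz : z ∈ L i) (hy : y ∈ W L j) :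
    z * y ∈ W L i := by
  induction hy using Submodule.span_induction with
  | mem y hy => obtain ⟨l, hl⟩ := hy; exact Submodule.subset_span ⟨l, .cons hz hij hl⟩
  | zero => simp
  | add x y _ _ a b => rw [mul_add]; exact add_mem a b
  | smul c x _ a => rw [mul_smul_comm]; exact Submodule.smul_mem _ _ a

omit [StarModule ℂ B] in
theorem Fr.W_le [DecidableEq ι] (h : Fr t L s) {i : ι} {x : B} (hx : x ∈ W L i) :
    x ∈ D L s := by
  induction hx using Submodule.span_induction with
  | mem x hx =>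
    obtain ⟨k, hk⟩ := hx
    have hi : i ∈ s := by
      cases hk with
      | single hw => exact h.idx _ _ hw
      | cons hw _ _ => exact h.idx _ _ hw
    refine ⟨0, Pi.single i x, fun j => ?_, by simp [hi]⟩
    rcases eq_or_ne j i with rfl | hj
    · rw [Pi.single_eq_same]; exact Submodule.subset_span ⟨k, hk⟩
    · rw [Pi.single_eq_of_ne hj]; exact zero_mem _
  | zero => exact zero_mem _
  | add x y _ _ a b => exact add_mem a b
  | smul c x _ a => exact Submodule.smul_mem _ _ a

omit [StarRing B] [StarModule ℂ B] in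
theorem one_mem_D : (1 : B) ∈ D L s := ⟨1, 0, fun _ => zero_mem _, by simp⟩

omit [StarModule ℂ B] in
theorem Fr.mul_mem_D [DecidableEq ι] (h : Fr t L s) {i : ι} {z y : B} (hz : z ∈ L i)
    (hy : y ∈ W L i) : z * y ∈ D L s := by
  induction hy using Submodule.span_induction with
  | mem y hy =>
    obtain ⟨l, hl⟩ := hy
    cases hl with
    | single hw =>
      rw [← sub_add_cancel (z * y) (t (z * y) • 1)]
      exact add_mem (h.W_le (Submodule.subset_span ⟨i, .single (h.mul _ _ hz _ hw)⟩))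
        (Submodule.smul_mem _ _ one_mem_D)
    | @cons _ j _ w x hw hij hx =>
      have e : z * (w * x) = (z * w - t (z * w) • 1) * x + t (z * w) • x := by
        simp [sub_mul, mul_assoc]
      rw [e]
      exact add_mem (h.W_le (Submodule.subset_span ⟨l, .cons (h.mul _ _ hz _ hw) hij hx⟩))
        (Submodule.smul_mem _ _ (h.W_le (Submodule.subset_span ⟨l, hx⟩)))
  | zero => simp
  | add x y _ _ a b => rw [mul_add]; exact add_mem a b
  | smul c x _ a => rw [mul_smul_comm]; exact Submodule.smul_mem _ _ a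

/-- One step of the Powers estimate. -/
theorem Fr.step [DecidableEq ι] (ht : IsTr t) (h : Fr t L s) {z : ι → B}
    (hz : ∀ i ∈ s, z i ∈ L i) (hc : ∀ i ∈ s, ∀ x, ip t (z i * x) (z i * x) ≤ ip t x x) {x : B}
    (hx : x ∈ D L s) : (∑ i ∈ s, z i) * x ∈ D L s ∧
      ip t ((∑ i ∈ s, z i) * x) ((∑ i ∈ s, z i) * x) ≤ 4 * s.card * ip t x x := by
  obtain ⟨c, y, hy, hxe⟩ := hx
  have h1 : ∀ i ∈ s, z i * (x - y i) ∈ W L i := by
    intro i hi
    have e : x - y i = c • 1 + ∑ j ∈ s.erase i, y j := by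
      rw [hxe, ← add_sum_erase s y hi]; abel
    rw [e, mul_add, mul_sum, mul_smul_comm, mul_one]
    exact add_mem (Submodule.smul_mem _ _ (Submodule.subset_span ⟨i, .single (hz i hi)⟩))
      (sum_mem fun j hj => mul_mem_W (ne_of_mem_erase hj).symm (hz i hi) (hy j))
  have e : (∑ i ∈ s, z i) * x = ∑ i ∈ s, z i * (x - y i) + ∑ i ∈ s, z i * y i := by
    rw [sum_mul, ← sum_add_distrib]
    exact sum_congr rfl fun i _ => by rw [← mul_add, sub_add_cancel]
  have o1 : ∀ i, ip t (c • 1) (y i) = 0 := fun i => by simp [ip, star_smul, h.tW (hy i)]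
  have o2 : ∀ i j, i ≠ j → ip t (y i) (y j) = 0 := fun i j hij => by
    simp [ip, h.orth hij (hy i) (hy j)]
  have o3 : ∀ i ∈ s, ip t x (y i) = ip t (y i) (y i) := fun i hi => by
    have : ip t (∑ j ∈ s, y j) (y i) = ∑ j ∈ s, ip t (y j) (y i) := by
      simp [ip, star_sum, sum_mul]
    rw [hxe, ip_add_left, o1, zero_add, this]
    exact sum_eq_single_of_mem i hi fun j _ hj => o2 j i hj
  have o4 : ∑ i ∈ s, ip t (y i) (y i) ≤ ip t x x := by
    have h0 : ip t (c • 1) (∑ j ∈ s, y j) = 0 := by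
      have : ip t (c • 1) (∑ j ∈ s, y j) = ∑ j ∈ s, ip t (c • 1) (y j) := by
        simp only [ip, mul_sum, map_sum, Complex.re_sum]
      rw [this]
      exact sum_eq_zero fun j _ => o1 j
    have h2 : 0 ≤ ip t (c • 1) (c • 1) := ht.pos _
    rw [hxe, ip_add_left, ip_add_right, ip_add_right, ip_comm ht (∑ j ∈ s, y j) (c • 1), h0,
      ip_sum_orth s y o2]
    linarith
  refine ⟨e ▸ add_mem (sum_mem fun i hi => h.W_le (h1 i hi))
    (sum_mem fun i hi => h.mul_mem_D (hz i hi) (hy i)), ?_⟩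
  have b1 : ip t (∑ i ∈ s, z i * (x - y i)) (∑ i ∈ s, z i * (x - y i)) ≤ s.card * ip t x x := by
    rw [ip_sum_sum, ← nsmul_eq_mul, ← sum_const]
    refine sum_le_sum fun i hi => ?_
    rw [sum_eq_single_of_mem i hi fun j hj hji => by
      simp [ip, -star_mul, h.orth hji.symm (h1 i hi) (h1 j hj)]]
    refine (hc i hi _).trans ?_
    have h2 : 0 ≤ ip t (y i) (y i) := ht.pos _
    rw [ip_sub_left, ip_sub_right, ip_sub_right, ip_comm ht (y i) x, o3 i hi]
    linarith
  have b2 : ip t (∑ i ∈ s, z i * y i) (∑ i ∈ s, z i * y i) ≤ s.card * ip t x x :=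
    (ip_sum_le ht s _).trans (mul_le_mul_of_nonneg_left
      ((sum_le_sum fun i hi => hc i hi _).trans o4) (Nat.cast_nonneg _))
  rw [e]
  linarith [ip_add_le ht (∑ i ∈ s, z i * (x - y i)) (∑ i ∈ s, z i * y i)]

end words

omit [StarModule ℂ B] in
/-- Moments from an `L²` bound on an invariant set. -/
theorem moment {P : B → Prop} {c : ℝ} (hc : 0 ≤ c) (p : ℕ) : ∀ S : B,
    (∀ x, P x → P (S * x) ∧ ip t (S * x) (S * x) ≤ c * ip t x x) →
    (∀ x, P x → P (star S * x) ∧ ip t (star S * x) (star S * x) ≤ c * ip t x x) →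
    ∀ x, P x → ip t x ((S * star S) ^ p * x) ≤ c ^ p * ip t x x := by
  induction p with
  | zero => intro S _ _ x _; simp
  | succ p ih =>
    intro S h1 h2 x hx
    have h3 := ih (star S) h2 (by simpa using h1) _ (h2 x hx).1
    have e : (S * star S) ^ (p + 1) = S * (star S * star (star S)) ^ p * star S := by
      rw [star_star]
      clear ih h3
      induction p with
      | zero => simp
      | succ p ih => rw [pow_succ, ih, pow_succ]; simp only [mul_assoc]
    have e2 : ip t x ((S * star S) ^ (p + 1) * x) =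
        ip t (star S * x) ((star S * star (star S)) ^ p * (star S * x)) := by
      rw [e]
      simp [ip, mul_assoc]
    rw [e2, pow_succ, mul_assoc]
    exact h3.trans (mul_le_mul_of_nonneg_left (h2 x hx).2 (pow_nonneg hc _))

section chain

omit [StarRing B] [Algebra ℂ B] [StarModule ℂ B] in
theorem alt_cons (u b : B) (l : List B) : alt u (b :: l) = b * u * alt u l := by simp [alt]

omit [StarRing B] [Algebra ℂ B] [StarModule ℂ B] in
theorem alt_concat (u b : B) (l : List B) : alt u (l ++ [b]) = alt u l * (b * u) := by simp [alt]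

theorem odd_zero (ht : IsTr t) {Q : StarSubalgebra ℂ B} {u : B} (hu : u * u = 1)
    (hf : ∀ l : List B, l ≠ [] → (∀ b ∈ l, b ∈ Q ∧ t b = 0) → t (alt u l) = 0) (n : ℕ) :
    ∀ l : List B, l.length = 2 * n + 1 → (∀ b ∈ l, b ∈ Q ∧ t b = 0) → ∀ g ∈ Q,
      t (g * u * alt u l) = 0 := by
  induction n using Nat.strong_induction_on with
  | _ n ih =>
  intro l hl hb g hg
  have e : g * u * alt u l = alt u ((g - t g • 1) :: l) + t g • (u * alt u l) := by
    simp [alt_cons, sub_mul]
  have h1 : t (alt u ((g - t g • 1) :: l)) = 0 := hf _ (by simp) (by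
    intro b hb'
    rcases List.mem_cons.1 hb' with rfl | h
    · exact ⟨sub_mem hg (SMulMemClass.smul_mem _ (one_mem Q)), by simp [ht.one]⟩
    · exact hb b h)
  have h2 : t (u * alt u l) = 0 := by
    rcases List.eq_nil_or_concat' l with rfl | ⟨l', b, rfl⟩
    · simp at hl
    rw [ht.comm, alt_concat, mul_assoc, mul_assoc, hu, mul_one]
    have hb0 := hb b (by simp)
    rcases l' with _ | ⟨b1, l''⟩
    · simpa [alt] using hb0.2
    · simp only [List.length_append, List.length_cons, List.length_nil] at hl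
      rw [ht.comm, alt_cons, ← mul_assoc, ← mul_assoc]
      exact ih (n - 1) (by omega) l'' (by omega) (fun x hx => hb x (by simp [hx])) _
        (mul_mem hb0.1 (hb b1 (by simp)).1)
  rw [e, map_add, h1, map_smul, h2, smul_zero, add_zero]

omit [StarRing B] [StarModule ℂ B] in
theorem Wd.mem {ι : Type*} {L : ι → Set B} {Q : Subalgebra ℂ B} (hL : ∀ i, ∀ w ∈ L i, w ∈ Q)
    {i k : ι} {x : B} (hx : Wd L i k x) : x ∈ Q := by
  induction hx with
  | single hw => exact hL _ _ hw
  | cons hw _ _ ih => exact mul_mem (hL _ _ hw) ih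

/-- Adding a top family of letters `E u c u E*` keeps freeness. -/
theorem free_succ (ht : IsTr t) {Q : StarSubalgebra ℂ B} {u E : B} (hu : u * u = 1)
    (hf : ∀ l : List B, l ≠ [] → (∀ b ∈ l, b ∈ Q ∧ t b = 0) → t (alt u l) = 0)
    (hE : E ∈ Q) (h1 : star E * E = 1) (h2 : E * star E = 1) {L L' : ℕ → Set B} {m : ℕ}
    (hL : ∀ i, ∀ w ∈ L i, w ∈ Q) (hlow : ∀ i k x, Wd L i k x → t x = 0)
    (hL' : ∀ i, ∀ w ∈ L' i, w ∈ L i ∨ (i = m ∧ ∃ c ∈ Q, t c = 0 ∧ w = E * u * c * u * star E))
    (hm : ∀ w, w ∉ L m) : ∀ i k x, Wd L' i k x → t x = 0 := by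
  have cj : ∀ y, t (star E * y * E) = t y := fun y => by
    rw [ht.comm, ← mul_assoc, h2, one_mul]
  have cm : ∀ x y, star E * (x * y) * E = star E * x * E * (star E * y * E) := fun x y => by
    simp only [mul_assoc]
    rw [← mul_assoc E, h2, one_mul]
  have top : ∀ c, star E * (E * u * c * u * star E) * E = u * (c * u) := fun c => by
    simp only [mul_assoc]
    rw [h1, ← mul_assoc, h1, one_mul, mul_one]
  have mQ : ∀ {i k y}, Wd L i k y → star E * y * E ∈ Q := fun hy =>
    mul_mem (mul_mem (star_mem hE) (hy.mem (Q := Q.toSubalgebra) hL)) hE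
  have key : ∀ i k x, Wd L' i k x → (∃ k', Wd L i k' x) ∨
      ∃ (y0 g : B) (l : List B) (n : ℕ), l.length = 2 * n + 1 ∧ (∀ b ∈ l, b ∈ Q ∧ t b = 0) ∧
        g ∈ Q ∧ star E * x * E = y0 * u * alt u l * g ∧
        ((i = m ∧ y0 = 1) ∨ ∃ k' y, Wd L i k' y ∧ y0 = star E * y * E) := by
    intro i k x hx
    induction hx with
    | @single i w hw =>
      rcases hL' _ _ hw with h | ⟨rfl, c, hc, hc0, rfl⟩
      · exact .inl ⟨i, .single h⟩
      · exact .inr ⟨1, 1, [c], 0, rfl, by simp [hc, hc0], one_mem _, by simp [top, alt],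
          .inl ⟨rfl, rfl⟩⟩
    | @cons i j k w x hw hij _ ih =>
      rcases hL' _ _ hw with h | ⟨rfl, c, hc, hc0, rfl⟩
      · rcases ih with ⟨k', hk⟩ | ⟨y0, g, l, n, hl, hb, hg, he, hy⟩
        · exact .inl ⟨k', .cons h hij hk⟩
        · rcases hy with ⟨_, rfl⟩ | ⟨k', y, hy, rfl⟩
          · exact .inr ⟨star E * w * E, g, l, n, hl, hb, hg, by
              rw [cm, he]; simp only [mul_assoc, one_mul], .inr ⟨i, w, .single h, rfl⟩⟩
          · exact .inr ⟨star E * (w * y) * E, g, l, n, hl, hb, hg, by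
              rw [cm, he, cm]; simp only [mul_assoc], .inr ⟨k', _, .cons h hij hy, rfl⟩⟩
      · rcases ih with ⟨k', hk⟩ | ⟨y0, g, l, n, hl, hb, hg, he, hy⟩
        · exact .inr ⟨1, star E * x * E, [c], 0, rfl, by simp [hc, hc0], mQ hk, by
            rw [cm, top]; simp [alt, mul_assoc], .inl ⟨rfl, rfl⟩⟩
        · rcases hy with ⟨h, _⟩ | ⟨k', y, hy, rfl⟩
          · exact absurd h.symm hij
          · refine .inr ⟨1, g, c :: (star E * y * E) :: l, n + 1, by simp [hl]; ring, ?_, hg, by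
              rw [cm, top, he]; simp only [alt_cons, mul_assoc, one_mul], .inl ⟨rfl, rfl⟩⟩
            intro b hb'
            rcases List.mem_cons.1 hb' with rfl | hb'
            · exact ⟨hc, hc0⟩
            rcases List.mem_cons.1 hb' with rfl | hb'
            · exact ⟨mQ hy, by rw [cj, hlow _ _ _ hy]⟩
            · exact hb b hb'
  intro i k x hx
  rcases key i k x hx with ⟨k', hk⟩ | ⟨y0, g, l, n, hl, hb, hg, he, hy⟩
  · exact hlow _ _ _ hk
  · have h0 : y0 ∈ Q := by
      rcases hy with ⟨_, rfl⟩ | ⟨k', y, hy, rfl⟩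
      exacts [one_mem _, mQ hy]
    rw [← cj, he, ht.comm, ← mul_assoc, ← mul_assoc]
    exact odd_zero ht hu hf n l hl hb _ (mul_mem hg h0)

/-- The Powers estimate for conjugates along a chain of free symmetries. -/
theorem pow_bound (ht : IsTr t) (Q : ℕ → StarSubalgebra ℂ B) (mono : ∀ i, Q i ≤ Q (i + 1))
    (N : ℕ) (u a Y C : ℕ → B)
    (hu : ∀ i < N, u i ∈ Q (i + 1) ∧ star (u i) = u i ∧ u i * u i = 1)
    (hf : ∀ i < N, ∀ l : List B, l ≠ [] → (∀ b ∈ l, b ∈ Q i ∧ t b = 0) → t (alt (u i) l) = 0)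
    (ha : ∀ i, a i ∈ Q 0 ∧ star (a i) * a i = 1 ∧ a i * star (a i) = 1)
    (hY : ∀ i, Y i ∈ Q 0 ∧ t (Y i) = 0 ∧ (∀ x, ip t (Y i * x) (Y i * x) ≤ ip t x x) ∧
      ∀ x, ip t (star (Y i) * x) (star (Y i) * x) ≤ ip t x x)
    (C0 : C 0 = 1) (Cs : ∀ i, C (i + 1) = C i * a i * u i) (p : ℕ) :
    (t ((((N : ℂ)⁻¹ • ∑ i ∈ range N, C i * Y i * star (C i)) *
      star ((N : ℂ)⁻¹ • ∑ i ∈ range N, C i * Y i * star (C i))) ^ p)).re ≤ (4 / N) ^ p := by
  have mono' : Monotone Q := monotone_nat_of_le_succ mono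
  have hC : ∀ i ≤ N, C i ∈ Q i ∧ star (C i) * C i = 1 ∧ C i * star (C i) = 1 := by
    intro i hi
    induction i with
    | zero => simp [C0]
    | succ i ih =>
      obtain ⟨c1, c2, c3⟩ := ih (by omega)
      obtain ⟨u1, u2, u3⟩ := hu i (by omega)
      obtain ⟨a1, a2, a3⟩ := ha i
      rw [Cs, star_mul, star_mul, u2]
      refine ⟨mul_mem (mul_mem (mono i c1) (mono' (Nat.zero_le _) a1)) u1, ?_, ?_⟩
      · simp only [mul_assoc]
        rw [← mul_assoc (star (C i)), c2, one_mul, ← mul_assoc (star (a i)), a2, one_mul, u3]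
      · simp only [mul_assoc]
        rw [← mul_assoc (u i), u3, one_mul, ← mul_assoc (a i), a3, one_mul, c3]
  let L : ℕ → ℕ → Set B := fun m i =>
    {w | i < m ∧ ∃ c ∈ Q 0, t c = 0 ∧ w = C i * c * star (C i)}
  have cj : ∀ i ≤ N, ∀ c, t (C i * c * star (C i)) = t c := fun i hi c => by
    rw [ht.comm, ← mul_assoc, (hC i hi).2.1, one_mul]
  have hfree : ∀ m, m + 1 ≤ N → ∀ i k x, Wd (L (m + 1)) i k x → t x = 0 := by
    intro m hm
    induction m with
    | zero =>
      intro i k x hx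
      cases hx with
      | single hw =>
        obtain ⟨hi, c, _, hc, rfl⟩ := hw
        rw [cj _ (by omega), hc]
      | cons hw hij hx =>
        have h1 := hw.1
        cases hx with
        | single hw' => have := hw'.1; omega
        | cons hw' _ _ => have := hw'.1; omega
    | succ m ih =>
      obtain ⟨c1, c2, c3⟩ := hC m (by omega)
      obtain ⟨u1, u2, u3⟩ := hu m (by omega)
      obtain ⟨a1, a2, a3⟩ := ha m
      refine free_succ ht (Q := Q m) (E := C m * a m) (L := L (m + 1)) (m := m + 1) u3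
        (hf m (by omega)) (mul_mem c1 (mono' (Nat.zero_le _) a1)) ?_ ?_ ?_ (ih (by omega)) ?_
        fun w hw => absurd hw.1 (lt_irrefl _)
      · rw [star_mul]
        simp only [mul_assoc]
        rw [← mul_assoc (star (C m)), c2, one_mul, a2]
      · rw [star_mul]
        simp only [mul_assoc]
        rw [← mul_assoc (a m), a3, one_mul, c3]
      · rintro i _ ⟨hi, c, hc, _, rfl⟩
        have := mono' (show i ≤ m by omega) (hC i (by omega)).1
        exact mul_mem (mul_mem this (mono' (Nat.zero_le _) hc)) (star_mem this)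
      · rintro i _ ⟨hi, c, hc, hc0, rfl⟩
        rcases Nat.lt_succ_iff_lt_or_eq.1 hi with h | rfl
        · exact .inl ⟨h, c, hc, hc0, rfl⟩
        · refine .inr ⟨rfl, c, mono' (Nat.zero_le _) hc, hc0, ?_⟩
          rw [Cs, star_mul (C m * a m), u2]
          simp only [mul_assoc]
  have hFr : Fr t (L N) (range N) := by
    refine ⟨fun i w hw => mem_range.2 hw.1, ?_, ?_, ?_⟩
    · rintro i _ ⟨hi, c, hc, hc0, rfl⟩
      exact ⟨hi, star c, star_mem hc, by rw [ht.star, hc0, star_zero], by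
        simp [mul_assoc]⟩
    · rintro i _ ⟨hi, c, hc, _, rfl⟩ _ ⟨_, c', hc', _, rfl⟩
      obtain ⟨_, c2, c3⟩ := hC i hi.le
      have e : C i * c * star (C i) * (C i * c' * star (C i)) = C i * (c * c') * star (C i) := by
        simp only [mul_assoc]
        rw [← mul_assoc (star (C i)), c2, one_mul]
      refine ⟨hi, c * c' - t (c * c') • 1,
        sub_mem (mul_mem hc hc') (SMulMemClass.smul_mem _ (one_mem _)), by simp [ht.one], ?_⟩
      rw [e, cj i hi.le]
      simp [mul_sub, sub_mul, c3]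
    · rcases N with _ | N
      · intro i k x hx
        cases hx with
        | single hw => exact absurd hw.1 (Nat.not_lt_zero _)
        | cons hw _ _ => exact absurd hw.1 (Nat.not_lt_zero _)
      · exact hfree N le_rfl
  have main : ∀ Z : ℕ → B, (∀ i, Z i ∈ Q 0 ∧ t (Z i) = 0 ∧
      ∀ x, ip t (Z i * x) (Z i * x) ≤ ip t x x) → ∀ x, x ∈ D (L N) (range N) →
      ((N : ℂ)⁻¹ • ∑ i ∈ range N, C i * Z i * star (C i)) * x ∈ D (L N) (range N) ∧
      ip t (((N : ℂ)⁻¹ • ∑ i ∈ range N, C i * Z i * star (C i)) * x)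
        (((N : ℂ)⁻¹ • ∑ i ∈ range N, C i * Z i * star (C i)) * x) ≤ 4 / N * ip t x x := by
    intro Z hZ x hx
    obtain ⟨k1, k2⟩ := hFr.step ht (z := fun i => C i * Z i * star (C i))
      (fun i hi => ⟨mem_range.1 hi, Z i, (hZ i).1, (hZ i).2.1, rfl⟩) (fun i hi x => by
        obtain ⟨_, c2, c3⟩ := hC i (mem_range.1 hi).le
        rw [mul_assoc, mul_assoc, ip_isom c2]
        exact ((hZ i).2.2 _).trans (ip_isom (by rw [star_star, c3]) x).le) hx
    rw [smul_mul_assoc]
    refine ⟨Submodule.smul_mem _ _ k1, ?_⟩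
    have e : (N : ℂ)⁻¹ = (((N : ℝ)⁻¹ : ℝ) : ℂ) := by simp
    rw [e, ip_smul]
    rw [card_range] at k2
    refine (mul_le_mul_of_nonneg_left k2 (sq_nonneg _)).trans (le_of_eq ?_)
    rcases Nat.eq_zero_or_pos N with rfl | hN
    · simp
    · field_simp
  have e : star ((N : ℂ)⁻¹ • ∑ i ∈ range N, C i * Y i * star (C i)) =
      (N : ℂ)⁻¹ • ∑ i ∈ range N, C i * star (Y i) * star (C i) := by
    simp [star_smul, star_sum, mul_assoc]
  have := moment (t := t) (P := (· ∈ D (L N) (range N))) (c := 4 / N) (by positivity) p _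
    (main Y fun i => ⟨(hY i).1, (hY i).2.1, (hY i).2.2.1⟩)
    (by
      rw [e]
      exact main _ fun i => ⟨star_mem (hY i).1, by rw [ht.star, (hY i).2.1, star_zero],
        (hY i).2.2.2⟩) 1 one_mem_D
  simpa only [ip, star_one, one_mul, mul_one, ht.one, Complex.one_re] using this

end chain

end Pool.Agent.Lib.MP_08bba9_an.K5
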