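import Pool.Agent.Lib.MP_08bba9_an.K.Mx

/-! Assembly of the finite case: two levels of words. -/

noncomputable section

namespace Pool.Agent.Lib.MP_08bba9_an.K

open Finset

variable {M : Type*} [CStarAlgebra M]

/-- extension of a finite word by a default letter -/
def extW {R : Type*} (r0 : R) {N : ℕ} (w : Fin N → R) : ℕ → R :=
  fun i => if h : i < N then w ⟨i, h⟩ else r0

theorem sum_eval {ι W : Type*} [Fintype ι] [DecidableEq ι] [Fintype W] (j : ι) (f : W → ℝ) :
    (∑ w : ι → W, f (w j)) * Fintype.card W = Fintype.card (ι → W) * ∑ x, f x := by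
  rw [Fintype.card_congr (Equiv.funSplitAt j W), Fintype.card_prod,
    ← (Equiv.funSplitAt j W).symm.sum_comp, Fintype.sum_prod_type]
  have : ∀ (x : W) (y : {i // i ≠ j} → W), f ((Equiv.funSplitAt j W).symm (x, y) j) = f x := by
    intro x y
    simp [Equiv.funSplitAt, Equiv.piSplitAt]
  simp only [this, sum_const, card_univ, nsmul_eq_mul]
  rw [← mul_sum]
  push_cast
  ring

theorem sum_bad {W : Type*} [Fintype W] [DecidableEq W] (w0 : W) (G : Finset W) (N : ℕ) :
    (∑ w : Fin N → W, ((((range N).filter (fun i => extW w0 w i ∉ G)).card : ℝ))) *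
      Fintype.card W = N * Fintype.card (Fin N → W) * (Gᶜ.card : ℝ) := by
  have h1 : ∀ w : Fin N → W, ((((range N).filter (fun i => extW w0 w i ∉ G)).card : ℝ)) =
      ∑ j : Fin N, if w j ∉ G then (1 : ℝ) else 0 := by
    intro w
    rw [card_filter, Nat.cast_sum, ← Fin.sum_univ_eq_sum_range
      (fun i => (((if extW w0 w i ∉ G then 1 else 0 : ℕ)) : ℝ))]
    refine sum_congr rfl fun j _ => ?_
    simp [extW]
  have h2 : (∑ x : W, if x ∉ G then (1 : ℝ) else 0) = (Gᶜ.card : ℝ) := by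
    rw [← sum_filter, sum_const, nsmul_eq_mul, mul_one]
    congr 2
    ext x
    simp
  simp only [h1]
  rw [sum_comm, sum_mul, sum_congr rfl fun j _ =>
    sum_eval j (fun x => if x ∉ G then (1 : ℝ) else 0), h2, sum_const, card_univ,
    Fintype.card_fin, nsmul_eq_mul, mul_assoc]

/-- Second level: a projection of small trace carrying the large parts is displaced. -/
theorem level2 {U : Set M} {τ : M →L[ℂ] ℂ} (h : Hyp U τ) {W I : Type*} [Fintype W]
    [DecidableEq W] (w0 : W) (A : W → M) (hA : ∀ w, A w ∈ unitary M) (S : I → W → M)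
    (hS : ∀ i w, ‖S i w‖ ≤ 1) {e : M} (he : IsStarProjection e) {N : ℕ} (hN : 0 < N)
    (hτ : ((N : ℝ) * (Fintype.card W : ℝ) ^ N + 2) * (τ e).re < 1) (G : I → Finset W) {ε : ℝ}
    (hε : 0 < ε) (hG : ∀ i, ∀ w ∈ G i, ‖(1 - e) * S i w‖ ≤ ε)
    (hbad : ∀ i, ((G i)ᶜ.card : ℝ) ≤ ε * Fintype.card W) (hNε : 1 / √(N : ℝ) ≤ ε) :
    ∃ u : ℕ → M, (∀ j, u j ∈ unitary M) ∧ ∃ z ∈ U, ∀ i,
      ∑ w : Fin N → W, ‖z * avgS A (S i) u N (extW w0 w)‖ ≤
        3 * ε * Fintype.card (Fin N → W) := by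
  obtain ⟨u, -, hu, z, hz, hk⟩ := k7 h A hA he hN hτ
  refine ⟨u, hu, z, hz, fun i => ?_⟩
  have hN' : (0 : ℝ) < N := by exact_mod_cast hN
  have : Nonempty W := ⟨w0⟩
  have hW : (0 : ℝ) < Fintype.card W := by exact_mod_cast Fintype.card_pos
  refine (sum_le_sum fun w _ => hk (S i) (G i) ε hε.le (hS i) (hG i) (extW w0 w)).trans ?_
  rw [sum_add_distrib, sum_add_distrib, sum_const, sum_const, card_univ, nsmul_eq_mul,
    nsmul_eq_mul, ← sum_div]
  have h1 := sum_bad w0 (G i) N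
  have hc : (0 : ℝ) ≤ Fintype.card (Fin N → W) := by positivity
  have h2 : (∑ w : Fin N → W, ((((range N).filter (fun j => extW w0 w j ∉ G i)).card : ℝ))) / N
      ≤ ε * Fintype.card (Fin N → W) := by
    rw [div_le_iff₀ hN']
    refine le_of_mul_le_mul_right ?_ hW
    rw [h1]
    have := mul_le_mul_of_nonneg_left (hbad i) (mul_nonneg hN'.le hc)
    linarith
  have h3 := mul_le_mul_of_nonneg_left hNε hc
  linarith

theorem exists_N {ε : ℝ} (hε : 0 < ε) : ∃ N : ℕ, 0 < N ∧ 1 / √(N : ℝ) ≤ ε := by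
  obtain ⟨N, hN⟩ := exists_nat_gt (1 / ε ^ 2)
  have h0 : (0 : ℝ) < N := lt_trans (by positivity) hN
  refine ⟨N, by exact_mod_cast h0, ?_⟩
  rw [div_le_iff₀ (Real.sqrt_pos.2 h0), ← div_le_iff₀' hε]
  apply Real.le_sqrt_of_sq_le
  rw [div_pow, one_pow]
  exact hN.le

/-- the conclusion of the finite case, with two levels of words -/
def Two (U : Set M) {R I : Type*} [Fintype R] (r0 : R) (a : R → M) (Y : I → R → M) (ε : ℝ) :
    Prop :=
  ∃ N : ℕ, 0 < N ∧ ∃ u : ℕ → M, (∀ j, u j ∈ unitary M) ∧ ∃ N' : ℕ, 0 < N' ∧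
    ∃ u' : ℕ → M, (∀ j, u' j ∈ unitary M) ∧ ∃ z ∈ U, ∀ i,
      ∑ w : Fin N' → Fin N → R, ‖z * avgS (fun x : Fin N → R => pre a u (extW r0 x) N)
        (fun x => avgS a (Y i) u N (extW r0 x)) u' N' (extW (fun _ => r0) w)‖ ≤
        ε * Fintype.card (Fin N' → Fin N → R)

/-- the case in which small projections have trace zero -/
theorem two_mx {U : Set M} {τ : M →L[ℂ] ℂ} (h : Hyp U τ) (rk : RK M) {g : ℝ} (hg : 0 < g)
    (hmx : ∀ s, IsStarProjection s → (τ s).re < g → (τ s).re ≤ 0)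
    {d : M} (hd : star d = d) (dd : d * d = 1) {R I : Type*} [Fintype R] [Fintype I] (r0 : R)
    {a : R → M} (ha : ∀ r, a r ∈ unitary M) {Y : I → R → M} (hY : ∀ i r, ‖Y i r‖ ≤ 1)
    (hdY : ∀ i r, d * Y i r * d = -Y i r) {ε : ℝ} (hε : 0 < ε) : Two U r0 a Y (3 * ε) := by
  classical
  obtain ⟨N, hN⟩ := exists_nat_gt (Fintype.card I / (ε ^ 3 * g))
  have hN0 : (0 : ℝ) < N := lt_of_le_of_lt (by positivity) hN
  have hN1 : 0 < N := by exact_mod_cast hN0
  obtain ⟨u, hu, hk⟩ := k6 τ h.pos h.t_one hd dd (Ω := I × (Fin N → R))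
    (fun ω => extW r0 ω.2) ha (Y := fun ω => Y ω.1) (fun ω => hY ω.1) (fun ω => hdY ω.1) hN1
  set S : I → (Fin N → R) → M := fun i x => avgS a (Y i) u N (extW r0 x) with hS
  choose f hf f1 f2 using fun (i : I) (x : Fin N → R) => exists_sp rk τ h.tr h.pos (S i x) hε.le
  obtain ⟨e, he, e1, e2⟩ := h.joinFin (univ.filter fun ω : I × (Fin N → R) =>
    (τ (f ω.1 ω.2)).re < g) (fun ω => f ω.1 ω.2) (fun ω _ => hf _ _)
  have e3 : (τ e).re ≤ 0 :=
    e2.trans (sum_nonpos fun ω hω => hmx _ (hf _ _) (mem_filter.1 hω).2)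
  obtain ⟨N', hN', hN''⟩ := exists_N hε
  have sq0 : ∀ i x, 0 ≤ (τ (S i x * star (S i x))).re := fun i x => by
    have := h.pos (star (S i x))
    rwa [star_star] at this
  obtain ⟨u', hu', z, hz, hfin⟩ := level2 h (fun _ => r0)
    (fun x : Fin N → R => pre a u (extW r0 x) N) (fun x => pre_unitary ha hu _ _) S
    (fun i x => norm_avgS_le' ha hu (hY i) N _) he hN'
    (lt_of_le_of_lt (mul_nonpos_of_nonneg_of_nonpos (by positivity) e3) one_pos)
    (fun i => univ.filter fun x => (τ (f i x)).re < g) hε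
    (fun i x hx => by
      have h1 : e * f i x = f i x := e1 (i, x) (mem_filter.2 ⟨mem_univ _, (mem_filter.1 hx).2⟩)
      have h2 : (1 - e) * S i x = (1 - e) * ((1 - f i x) * S i x) := by
        rw [← mul_assoc, mul_sub (1 - e), mul_one, sub_mul 1 e (f i x), one_mul, h1, sub_self,
          sub_zero]
      rw [h2]
      exact (norm_mul_le _ _).trans ((mul_le_of_le_one_left (norm_nonneg _)
        he.one_sub.norm_le).trans (f1 i x)))
    (fun i => by
      have h1 : ((univ.filter fun x => (τ (f i x)).re < g)ᶜ.card : ℝ) * (ε ^ 2 * g) ≤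
          ∑ x, (τ (S i x * star (S i x))).re := by
        rw [← nsmul_eq_mul]
        refine (card_nsmul_le_sum _ (fun x => (τ (S i x * star (S i x))).re) _
          fun x hx => ?_).trans (sum_le_sum_of_subset_of_nonneg (subset_univ _)
            fun x _ _ => sq0 i x)
        have h2 := f2 i x 1
        rw [mul_one, pow_one] at h2
        have h3 : g ≤ (τ (f i x)).re := by simpa using hx
        exact (mul_le_mul_of_nonneg_left h3 (by positivity)).trans h2
      have h2 : ∑ x, (τ (S i x * star (S i x))).re ≤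
          Fintype.card I * Fintype.card (Fin N → R) / N := by
        rw [Fintype.sum_prod_type, Fintype.card_prod, Nat.cast_mul] at hk
        exact (single_le_sum (f := fun i => ∑ x, (τ (S i x * star (S i x))).re)
          (fun i _ => sum_nonneg fun x _ => sq0 i x) (mem_univ i)).trans hk
      have h3 : (Fintype.card I : ℝ) * Fintype.card (Fin N → R) / N ≤
          ε * Fintype.card (Fin N → R) * (ε ^ 2 * g) := by
        rw [div_lt_iff₀ (by positivity)] at hN
        rw [div_le_iff₀ hN0]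
        have := mul_le_mul_of_nonneg_right hN.le
          (show (0 : ℝ) ≤ Fintype.card (Fin N → R) by positivity)
        linarith
      exact le_of_mul_le_mul_right (h1.trans (h2.trans h3)) (by positivity)) hN''
  exact ⟨N, hN1, u, hu, N', hN', u', hu', z, hz, hfin⟩

/-- moments of the averaged words are those of free variables, up to a factor two -/
def Pow (τ : M →L[ℂ] ℂ) {R I : Type*} (a : R → M) (Y : I → R → M) : Prop :=
  ∀ N p : ℕ, 0 < N → ∃ u : ℕ → M, (∀ j, u j ∈ unitary M) ∧ ∀ i (w : ℕ → R),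
    (τ ((avgS a (Y i) u N w * star (avgS a (Y i) u N w)) ^ p)).re ≤ 2 * (4 / N) ^ p

/-- the diffuse case -/
theorem two_pow {U : Set M} {τ : M →L[ℂ] ℂ} (h : Hyp U τ) (rk : RK M)
    {R I : Type*} [Fintype R] [Fintype I] (r0 : R)
    {a : R → M} (ha : ∀ r, a r ∈ unitary M) {Y : I → R → M} (hY : ∀ i r, ‖Y i r‖ ≤ 1)
    (hp : Pow τ a Y) {ε : ℝ} (hε : 0 < ε) : Two U r0 a Y (3 * ε) := by
  classical
  obtain ⟨N, hN⟩ := exists_nat_gt (8 / ε ^ 2)
  have hN0 : (0 : ℝ) < N := lt_trans (by positivity) hN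
  have hN1 : 0 < N := by exact_mod_cast hN0
  obtain ⟨N', hN', hN''⟩ := exists_N hε
  set K : ℝ := ((N' : ℝ) * (Fintype.card (Fin N → R) : ℝ) ^ N' + 2) *
    (Fintype.card (I × (Fin N → R)) * 2 + 1) with hK
  have K0 : 0 < K := by positivity
  obtain ⟨p, hp'⟩ := exists_pow_lt_of_lt_one (inv_pos.2 K0) (show (1 / 2 : ℝ) < 1 by norm_num)
  obtain ⟨u, hu, hk⟩ := hp N p hN1
  set S : I → (Fin N → R) → M := fun i x => avgS a (Y i) u N (extW r0 x) with hS
  choose f hf f1 f2 using fun (i : I) (x : Fin N → R) => exists_sp rk τ h.tr h.pos (S i x) hε.le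
  obtain ⟨e, he, e1, e2⟩ := h.joinFin (univ : Finset (I × (Fin N → R)))
    (fun ω => f ω.1 ω.2) (fun ω _ => hf _ _)
  have f3 : ∀ i x, (τ (f i x)).re ≤ 2 * (1 / 2) ^ p := by
    intro i x
    have h1 := (f2 i x p).trans (hk i _)
    have h2 : (4 / (N : ℝ)) ^ p ≤ (ε ^ 2 * (1 / 2)) ^ p := by
      refine pow_le_pow_left₀ (by positivity) ?_ p
      rw [div_lt_iff₀ (by positivity)] at hN
      rw [div_le_iff₀ hN0]
      linarith
    rw [mul_pow, ← pow_mul] at h2
    refine le_of_mul_le_mul_left ?_ (show 0 < ε ^ (2 * p) by positivity)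
    linarith
  have e3 : (τ e).re ≤ (Fintype.card (I × (Fin N → R)) * 2 + 1) * (1 / 2) ^ p := by
    refine e2.trans ((sum_le_sum fun ω _ => f3 ω.1 ω.2).trans ?_)
    rw [sum_const, card_univ, nsmul_eq_mul]
    have : (0 : ℝ) ≤ (1 / 2) ^ p := by positivity
    linarith
  obtain ⟨u', hu', z, hz, hfin⟩ := level2 h (fun _ => r0)
    (fun x : Fin N → R => pre a u (extW r0 x) N) (fun x => pre_unitary ha hu _ _) S
    (fun i x => norm_avgS_le' ha hu (hY i) N _) he hN'
    (by
      refine lt_of_le_of_lt (mul_le_mul_of_nonneg_left e3 (by positivity)) ?_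
      rw [← mul_assoc, ← hK, ← lt_div_iff₀' K0, one_div]
      simpa using hp')
    (fun _ => univ) hε
    (fun i x _ => by
      have h1 : e * f i x = f i x := e1 (i, x) (mem_univ _)
      have h2 : (1 - e) * S i x = (1 - e) * ((1 - f i x) * S i x) := by
        rw [← mul_assoc, mul_sub (1 - e), mul_one, sub_mul 1 e (f i x), one_mul, h1, sub_self,
          sub_zero]
      rw [h2]
      exact (norm_mul_le _ _).trans ((mul_le_of_le_one_left (norm_nonneg _)
        he.one_sub.norm_le).trans (f1 i x)))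
    (fun i => by simp; positivity) hN''
  exact ⟨N, hN1, u, hu, N', hN', u', hu', z, hz, hfin⟩

/-- Both cases. -/
theorem two_all {U : Set M} {τ : M →L[ℂ] ℂ} (h : Hyp U τ) (rk : RK M)
    {d : M} (hd : star d = d) (dd : d * d = 1) {R I : Type*} [Fintype R] [Fintype I] (r0 : R)
    {a : R → M} (ha : ∀ r, a r ∈ unitary M) {Y : I → R → M} (hY : ∀ i r, ‖Y i r‖ ≤ 1)
    (hdY : ∀ i r, d * Y i r * d = -Y i r)
    (hp : (∀ η : ℝ, 0 < η → ∃ s, IsStarProjection s ∧ 0 < (τ s).re ∧ (τ s).re ≤ η) → Pow τ a Y)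
    {ε : ℝ} (hε : 0 < ε) : Two U r0 a Y ε := by
  have e : ε = 3 * (ε / 3) := by ring
  rw [e]
  by_cases hD : ∀ η : ℝ, 0 < η → ∃ s, IsStarProjection s ∧ 0 < (τ s).re ∧ (τ s).re ≤ η
  · exact two_pow h rk r0 ha hY (hp hD) (by positivity)
  · push Not at hD
    obtain ⟨g, hg, hD⟩ := hD
    refine two_mx h rk hg (fun s hs hlt => ?_) hd dd r0 ha hY hdY (by positivity)
    by_contra hc
    exact absurd (hD s hs (not_le.1 hc)) (not_lt.2 hlt.le)

end Pool.Agent.Lib.MP_08bba9_an.K
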