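import Mathlib

/-! Dixmier averaging in the two-norm of a tracial state. -/

open scoped ComplexOrder

namespace Pool.Agent.Lib.MP_08bba9_an.K

namespace Dix

variable {M : Type*} [CStarAlgebra M] [PartialOrder M] [StarOrderedRing M]

/-- squared two-norm -/
noncomputable def n2 (τ : M →L[ℂ] ℂ) (x : M) : ℝ := (τ (star x * x)).re

section basic
variable {τ : M →L[ℂ] ℂ}

omit [StarOrderedRing M] in
lemma re_nonneg (hp : ∀ c : M, 0 ≤ c → 0 ≤ τ c) {c : M} (hc : 0 ≤ c) : 0 ≤ (τ c).re :=
  (Complex.nonneg_iff.1 (hp c hc)).1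

lemma re_mono (hp : ∀ c : M, 0 ≤ c → 0 ≤ τ c) {a b : M} (h : a ≤ b) : (τ a).re ≤ (τ b).re := by
  have := re_nonneg hp (sub_nonneg.2 h)
  rw [map_sub, Complex.sub_re] at this
  linarith

lemma im_sa (hp : ∀ c : M, 0 ≤ c → 0 ≤ τ c) {a : M} (ha : IsSelfAdjoint a) : (τ a).im = 0 := by
  have h1 := (Complex.nonneg_iff.1 (hp _ (CFC.posPart_nonneg a))).2
  have h2 := (Complex.nonneg_iff.1 (hp _ (CFC.negPart_nonneg a))).2
  rw [← CFC.posPart_sub_negPart a ha, map_sub, Complex.sub_im, ← h1, ← h2, sub_self]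

lemma n2_nonneg (hp : ∀ c : M, 0 ≤ c → 0 ≤ τ c) (x : M) : 0 ≤ n2 τ x :=
  re_nonneg hp (star_mul_self_nonneg x)

omit [PartialOrder M] [StarOrderedRing M] in
lemma n2_par (a b : M) : n2 τ (a + b) + n2 τ (a - b) = 2 * n2 τ a + 2 * n2 τ b := by
  simp only [n2, star_add, star_sub, add_mul, mul_add, sub_mul, mul_sub, map_add, map_sub,
    Complex.add_re, Complex.sub_re]
  ring

omit [PartialOrder M] [StarOrderedRing M] in
lemma n2_smul (c : ℂ) (a : M) : n2 τ (c • a) = ‖c‖ ^ 2 * n2 τ a := by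
  have : star c * c = ((‖c‖ ^ 2 : ℝ) : ℂ) := by
    rw [Complex.star_def, mul_comm, Complex.mul_conj, Complex.normSq_eq_norm_sq]
  rw [n2, n2, star_smul, smul_mul_smul_comm, map_smul, smul_eq_mul, this, Complex.re_ofReal_mul]

omit [PartialOrder M] [StarOrderedRing M] in
lemma n2_neg (a : M) : n2 τ (-a) = n2 τ a := by simp [n2]

lemma n2_add_le (hp : ∀ c : M, 0 ≤ c → 0 ≤ τ c) (a b : M) :
    n2 τ (a + b) ≤ 2 * n2 τ a + 2 * n2 τ b := by
  have := n2_par (τ := τ) a b
  have := n2_nonneg hp (a - b)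
  linarith

omit [PartialOrder M] [StarOrderedRing M] in
lemma n2_conj (ht : ∀ x y : M, τ (x * y) = τ (y * x)) {u : M} (hu : u ∈ unitary M) (a : M) :
    n2 τ (star u * a * u) = n2 τ a := by
  have h2 : u * star u = 1 := hu.2
  have : star (star u * a * u) * (star u * a * u) = star u * (star a * a * u) := by
    simp only [star_mul, star_star, mul_assoc]
    rw [← mul_assoc u (star u), h2, one_mul]
  rw [n2, n2, this, ht, mul_assoc, h2, mul_one]

/-- Cauchy-Schwarz for selfadjoint elements, in quadratic form -/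
lemma cs_sa (hp : ∀ c : M, 0 ≤ c → 0 ≤ τ c) (ht : ∀ x y : M, τ (x * y) = τ (y * x)) {d e : M}
    (hd : IsSelfAdjoint d) (he : IsSelfAdjoint e) (l : ℝ) :
    2 * l * (τ (d * e)).re ≤ n2 τ d + l ^ 2 * n2 τ e := by
  have h := n2_nonneg hp (d - (l : ℂ) • e)
  have e1 : star (d - (l : ℂ) • e) = d - (l : ℂ) • e := by
    rw [star_sub, star_smul, hd.star_eq, he.star_eq, Complex.star_def, Complex.conj_ofReal]
  rw [n2, e1] at h
  simp only [sub_mul, mul_sub, smul_mul_assoc, mul_smul_comm, map_sub, map_smul, smul_eq_mul,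
    Complex.sub_re, Complex.re_ofReal_mul, ht e d] at h
  rw [n2, n2, hd.star_eq, he.star_eq]
  nlinarith

end basic

/-- spectral piece data -/
structure Good (τ : M →L[ℂ] ℂ) (r x : M) (t : ℝ) (p : M) : Prop where
  proj : IsStarProjection p
  sub : r * p = p
  pos : 0 ≤ (x - (t : ℂ) • 1) * p
  big : t ≤ (τ p).re

lemma swap {τ : M →L[ℂ] ℂ} (hp : ∀ c : M, 0 ≤ c → 0 ≤ τ c)
    (ht : ∀ x y : M, τ (x * y) = τ (y * x)) {r x p q z v : M} {t : ℝ} (ht0 : 0 ≤ t)
    (hr : IsStarProjection r) (hx : IsSelfAdjoint x)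
    (gp : Good τ r x t p) (gq : Good τ r (-x) t q) (hpq : p * q = 0)
    (hz : IsStarProjection z) (hzc : ∀ y, z * y = y * z) (hz1 : τ z = τ 1)
    (hv : star v * v = z * p) (hqv : q * v = v) :
    ∃ u ∈ unitary M, u * r = r * u ∧ 4 * t ^ 3 ≤ n2 τ (x - star u * x * u) := by
  have pp := gp.proj.isIdempotentElem.eq
  have ps := gp.proj.isSelfAdjoint.star_eq
  have qq := gq.proj.isIdempotentElem.eq
  have qs := gq.proj.isSelfAdjoint.star_eq
  have zz := hz.isIdempotentElem.eq
  have zs := hz.isSelfAdjoint.star_eq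
  have rs := hr.isSelfAdjoint.star_eq
  set e := z * p with he
  have es : star e = e := by rw [he, star_mul, ps, zs, hzc]
  have ee : e * e = e := by
    rw [he, mul_assoc, ← mul_assoc p z, ← hzc p, mul_assoc, pp, ← mul_assoc, zz]
  have ve : v * e = v := by
    have h0 : star (v - v * e) * (v - v * e) = 0 := by
      simp only [star_sub, star_mul, es, sub_mul, mul_sub, mul_assoc]
      rw [← mul_assoc (star v) v e, hv, ee]
      simp [ee]
    exact (sub_eq_zero.1 ((CStarRing.star_mul_self_eq_zero_iff _).1 h0)).symm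
  have ep : e * p = e := by rw [he, mul_assoc, pp]
  have vp : v * p = v := by rw [← ve, mul_assoc, ep]
  have eq0 : e * q = 0 := by rw [he, mul_assoc, hpq, mul_zero]
  have ev : e * v = 0 := by rw [← hqv, ← mul_assoc, eq0, zero_mul]
  have vv : v * v = 0 := by
    calc v * v = v * e * v := by rw [ve]
      _ = 0 := by rw [mul_assoc, ev, mul_zero]
  set w := star v with hw
  have we : w * e = 0 := by
    have := congrArg star ev
    rwa [star_mul, es, star_zero] at this
  have ew : e * w = w := by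
    have := congrArg star ve
    rwa [star_mul, es] at this
  have ww : w * w = 0 := by
    have := congrArg star vv
    rwa [star_mul, star_zero] at this
  have wv : w * v = e := hv
  set f := v * w with hf
  have fs : star f = f := by rw [hf, star_mul, hw, star_star]
  have fv : f * v = v := by rw [hf, mul_assoc, wv, ve]
  have wf : w * f = w := by rw [hf, ← mul_assoc, wv, ew]
  have fw : f * w = 0 := by rw [hf, mul_assoc, ww, mul_zero]
  have vf : v * f = 0 := by rw [hf, ← mul_assoc, vv, zero_mul]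
  have ff : f * f = f := by rw [hf, ← mul_assoc, ← hf, fv]
  have ef : e * f = 0 := by rw [hf, ← mul_assoc, ev, zero_mul]
  have fe : f * e = 0 := by rw [hf, mul_assoc, we, mul_zero]
  set u := v + w + 1 - e - f with hu
  have us : star u = u := by
    rw [hu, star_sub, star_sub, star_add, star_add, star_one, es, fs, hw, star_star, add_comm v]
  have uu : u * u = 1 := by
    simp only [hu, add_mul, mul_add, sub_mul, mul_sub, one_mul, mul_one, vv, ww, wv, ← hf, ve, we,
      ev, ew, ee, ef, fe, fv, wf, fw, vf, ff]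
    abel
  have rv : r * v = v := by rw [← hqv, ← mul_assoc, gq.sub]
  have pr : p * r = p := by
    have := congrArg star gp.sub
    rwa [star_mul, ps, rs] at this
  have vr : v * r = v := by rw [← vp, mul_assoc, pr]
  have rw' : r * w = w := by
    have := congrArg star vr
    rwa [star_mul, rs] at this
  have wr : w * r = w := by
    have := congrArg star rv
    rwa [star_mul, rs] at this
  have ur : u * r = r * u := by
    have a1 : e * r = e := by rw [← wv, mul_assoc, vr]
    have a2 : r * e = e := by rw [← wv, ← mul_assoc, rw']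
    have a3 : f * r = f := by rw [hf, mul_assoc, wr]
    have a4 : r * f = f := by rw [hf, ← mul_assoc, rv]
    simp only [hu, add_mul, mul_add, sub_mul, mul_sub, one_mul, mul_one, rv, vr, rw', wr, a1, a2,
      a3, a4]
  have uun : u ∈ unitary M := ⟨by rw [us, uu], by rw [us, uu]⟩
  refine ⟨u, uun, ur, ?_⟩
  have ue : u * e = v := by
    simp only [hu, add_mul, sub_mul, one_mul, ve, we, ee, fe]
    abel
  have vu : v * u = f := by
    simp only [hu, mul_add, mul_sub, mul_one, vv, ← hf, ve, vf]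
    abel
  have te : (τ e).re = (τ p).re := by
    have h1 : 0 ≤ (1 - z) * p := by
      have : (1 - z) * p = star ((1 - z) * p) * ((1 - z) * p) := by
        rw [star_mul, star_sub, star_one, zs, ps, mul_assoc, ← mul_assoc (1 - z) (1 - z)]
        have h3 : (1 - z) * (1 - z) = 1 - z := hz.one_sub.isIdempotentElem.eq
        have h4 : p * (1 - z) = (1 - z) * p := by rw [mul_sub, sub_mul, hzc]; simp
        rw [h3, ← mul_assoc, h4, mul_assoc, pp]
      rw [this]; exact star_mul_self_nonneg _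
    have h2 : 0 ≤ (1 - z) * (1 - p) := by
      have p1 : (1 - p) * (1 - p) = 1 - p := gp.proj.one_sub.isIdempotentElem.eq
      have : (1 - z) * (1 - p) = star ((1 - z) * (1 - p)) * ((1 - z) * (1 - p)) := by
        rw [star_mul, star_sub, star_sub, star_one, zs, ps, mul_assoc,
          ← mul_assoc (1 - z) (1 - z)]
        have h3 : (1 - z) * (1 - z) = 1 - z := hz.one_sub.isIdempotentElem.eq
        have h4 : (1 - p) * (1 - z) = (1 - z) * (1 - p) := by
          simp only [mul_sub, sub_mul, hzc, one_mul, mul_one]; abel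
        rw [h3, ← mul_assoc, h4, mul_assoc, p1]
      rw [this]; exact star_mul_self_nonneg _
    have a1 := re_nonneg hp h1
    have a2 := re_nonneg hp h2
    simp only [sub_mul, mul_sub, one_mul, mul_one, map_sub, Complex.sub_re, ← he, hz1] at a1 a2
    linarith
  have tf : (τ f).re = (τ e).re := by rw [hf, ht, wv]
  have b1 : t * (τ e).re ≤ (τ (x * e)).re := by
    have h1 : 0 ≤ star z * ((x - (t : ℂ) • 1) * p) * z := star_left_conjugate_nonneg gp.pos z
    have h2 : star z * ((x - (t : ℂ) • 1) * p) * z = x * e - (t : ℂ) • e := by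
      rw [zs, hzc, mul_assoc, zz, mul_assoc, ← hzc p, ← he, sub_mul, smul_mul_assoc, one_mul]
    have := re_nonneg hp h1
    rw [h2, map_sub, map_smul, smul_eq_mul, Complex.sub_re, Complex.re_ofReal_mul] at this
    linarith
  have b2 : (τ (x * f)).re ≤ -(t * (τ f).re) := by
    have h1 : 0 ≤ star v * ((-x - (t : ℂ) • 1) * q) * v := star_left_conjugate_nonneg gq.pos v
    have h2 : τ (star v * ((-x - (t : ℂ) • 1) * q) * v) = -τ (x * f) - (t : ℂ) * τ f := by
      rw [mul_assoc, mul_assoc, hqv, ht, mul_assoc, ← hw, ← hf, sub_mul, smul_mul_assoc, one_mul,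
        map_sub, map_smul, smul_eq_mul, neg_mul, map_neg]
    have := re_nonneg hp h1
    rw [h2, Complex.sub_re, Complex.neg_re, Complex.re_ofReal_mul] at this
    linarith
  have hd : IsSelfAdjoint (x - star u * x * u) := hx.sub (hx.conjugate' u)
  have b3 : τ ((x - star u * x * u) * e) = τ (x * e) - τ (x * f) := by
    rw [sub_mul, map_sub, us, mul_assoc, ue, mul_assoc, ht u, mul_assoc, vu]
  have b4 := cs_sa hp ht hd (show IsSelfAdjoint e from es) (2 * t)
  have b5 : n2 τ e = (τ e).re := by rw [n2, es, ee]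
  rw [b3, b5, Complex.sub_re] at b4
  have b6 := gp.big
  rw [tf] at b2
  rw [← te] at b6
  have b7 : 4 * t ^ 2 * t ≤ 4 * t ^ 2 * (τ e).re := by gcongr
  have b8 : 4 * t * (2 * (t * (τ e).re)) ≤ 4 * t * ((τ (x * e)).re - (τ (x * f)).re) := by
    gcongr; linarith
  nlinarith

omit [PartialOrder M] [StarOrderedRing M] in
lemma spec_le {x : M} (h : ‖x‖ ≤ 1) {s : ℝ} (hs : s ∈ spectrum ℝ x) : |s| ≤ 1 := by
  rcases subsingleton_or_nontrivial M with _ | _
  · simp [spectrum.of_subsingleton] at hs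
  · exact (spectrum.norm_le_norm_of_mem hs).trans h

/-- the ramp function -/
def ramp (t : ℝ) (s : ℝ) : ℝ := max (s - t) 0

lemma ramp_cont (t : ℝ) : Continuous (ramp t) := by unfold ramp; fun_prop

lemma piece {τ : M →L[ℂ] ℂ} (hp : ∀ c : M, 0 ≤ c → 0 ≤ τ c)
    (h1 : (τ 1).re ≤ 1) {r x p : M} {t : ℝ} (ht0 : 0 ≤ t)
    (hr : IsStarProjection r) (hx : IsSelfAdjoint x) (hn : ‖x‖ ≤ 1) (hrx : r * x = x)
    (hm : 2 * t ≤ (τ (cfc (ramp 0) x)).re) (hpp : IsStarProjection p)
    (hpy : p * cfc (ramp t) x = cfc (ramp t) x)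
    (hk : ∀ a : M, a * cfc (ramp t) x = 0 → a * p = 0) : Good τ r x t p := by
  have c1 := (ramp_cont t).continuousOn (s := spectrum ℝ x)
  have c0 := (ramp_cont 0).continuousOn (s := spectrum ℝ x)
  set y := cfc (ramp t) x with hy
  set y' := cfc (fun s : ℝ => max (t - s) 0) x with hy'
  have c2 : ContinuousOn (fun s : ℝ => max (t - s) 0) (spectrum ℝ x) := by fun_prop
  have hc : cfc (fun _ : ℝ => t) x = (t : ℂ) • (1 : M) := by
    rw [cfc_const t x, Algebra.algebraMap_eq_smul_one, Complex.coe_smul]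
  have y0 : 0 ≤ y := cfc_nonneg fun s _ => le_max_right _ _
  have ys : star y = y := y0.isSelfAdjoint.star_eq
  have ps := hpp.isSelfAdjoint.star_eq
  have d1 : x - (t : ℂ) • 1 = y - y' := by
    rw [hy, hy', ← cfc_sub _ _ x c1 c2, ← hc]
    have := cfc_sub (fun s : ℝ => s) (fun _ : ℝ => t) x (by fun_prop) (by fun_prop)
    rw [cfc_id' ℝ x] at this
    rw [← this]
    refine cfc_congr fun s _ => ?_
    simp only [ramp, max_def]
    split_ifs <;> linarith
  have d2 : y' * y = 0 := by
    rw [hy, hy', ← cfc_mul _ _ x c2 c1, ← cfc_zero ℝ x]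
    refine cfc_congr fun s _ => ?_
    simp only [ramp, max_def, Pi.zero_apply]
    split_ifs <;> first | (simp; done) | (exfalso; linarith)
  have yp : y * p = y := by
    have := congrArg star hpy
    rwa [star_mul, ys, ps] at this
  refine ⟨hpp, ?_, ?_, ?_⟩
  · have e1 : IsStarProjection (1 - r) := hr.one_sub
    set e := 1 - r with he
    have ex : e * x = 0 := by rw [he, sub_mul, one_mul, hrx, sub_self]
    have es := e1.isSelfAdjoint.star_eq
    have a1 : e * y - e * y' = -((t : ℂ) • e) := by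
      rw [← mul_sub, ← d1, mul_sub, ex, mul_smul_comm, mul_one, zero_sub]
    have a2 : star (y * e) * (y * e) = -((t : ℂ) • (star e * y * e)) := by
      have := congrArg (· * (y * e)) a1
      simp only [sub_mul, neg_mul, smul_mul_assoc] at this
      rw [mul_assoc e y', ← mul_assoc y', d2, zero_mul, mul_zero, sub_zero] at this
      rw [star_mul, es, ys, this, mul_assoc]
    have a3 : 0 ≤ (t : ℂ) • (star e * y * e) := by
      rw [Complex.coe_smul]
      exact smul_nonneg ht0 (star_left_conjugate_nonneg y0 e)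
    have a4 : star (y * e) * (y * e) = 0 :=
      le_antisymm (by rw [a2]; exact neg_nonpos.2 a3) (star_mul_self_nonneg _)
    have a5 : y * e = 0 := (CStarRing.star_mul_self_eq_zero_iff _).1 a4
    have a6 : e * y = 0 := by
      have := congrArg star a5
      rwa [star_mul, es, ys, star_zero] at this
    have a7 := hk e a6
    rw [he, sub_mul, one_mul, sub_eq_zero] at a7
    exact a7.symm
  · rw [d1, sub_mul, yp, hk y' d2, sub_zero]
    exact y0
  · have a1 : cfc (ramp 0) x ≤ (t : ℂ) • 1 + y := by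
      rw [hy, ← hc, ← cfc_add _ _ _ (by fun_prop) c1]
      refine cfc_mono (fun s _ => ?_) c0 (by fun_prop)
      simp only [ramp, max_def]
      split_ifs <;> linarith
    have a2 : y ≤ 1 := by
      rw [hy]
      refine cfc_le_one _ _ fun s hs => ?_
      have := abs_le.1 (spec_le hn hs)
      simp only [ramp, max_def]
      split_ifs <;> linarith
    have a3 : y ≤ p := by
      have := star_left_conjugate_nonneg (sub_nonneg.2 a2) p
      rwa [ps, mul_sub, sub_mul, mul_one, hpp.isIdempotentElem.eq, hpy, yp, sub_nonneg] at this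
    have b1 := re_mono hp a1
    have b2 := re_mono hp a3
    rw [map_add, map_smul, smul_eq_mul, Complex.add_re, Complex.re_ofReal_mul] at b1
    nlinarith

/-- range projections exist -/
def RK (M : Type*) [CStarAlgebra M] : Prop :=
  ∀ T : M, ∃ R : M, IsStarProjection R ∧ R * T = T ∧ ∀ x : M, x * T = 0 → x * R = 0

/-- comparison up to a central projection of full trace -/
def Cmp (τ : M →L[ℂ] ℂ) : Prop :=
  ∀ p q : M, IsStarProjection p → IsStarProjection q →
    ∃ z : M, IsStarProjection z ∧ (∀ y, z * y = y * z) ∧ τ z = τ 1 ∧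
      ((∃ v : M, star v * v = z * p ∧ q * v = v) ∨ (∃ v : M, star v * v = z * q ∧ p * v = v))

lemma k1a {τ : M →L[ℂ] ℂ} (hp : ∀ c : M, 0 ≤ c → 0 ≤ τ c)
    (ht : ∀ x y : M, τ (x * y) = τ (y * x)) (h1 : (τ 1).re ≤ 1) (hR : RK M) (hC : Cmp τ)
    {r x : M} (hr : IsStarProjection r) (hx : IsSelfAdjoint x) (hn : ‖x‖ ≤ 1) (hrx : r * x = x)
    (h0 : τ x = 0) :
    ∃ u ∈ unitary M, u * r = r * u ∧ n2 τ x ^ 3 / 16 ≤ n2 τ (x - star u * x * u) := by
  have c0 := (ramp_cont 0).continuousOn (s := spectrum ℝ x)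
  have cn : ∀ t, ContinuousOn (fun s : ℝ => ramp t (-s)) (spectrum ℝ x) := fun t =>
    ((ramp_cont t).comp continuous_neg).continuousOn
  have en : ∀ t, cfc (ramp t) (-x) = cfc (fun s : ℝ => ramp t (-s)) x := fun t =>
    (cfc_comp_neg (ramp t) x (ramp_cont t).continuousOn).symm
  set m := (τ (cfc (ramp 0) x)).re with hm
  have m0 : 0 ≤ m := re_nonneg hp (cfc_nonneg fun s _ => le_max_right _ _)
  have d1 : x = cfc (ramp 0) x - cfc (ramp 0) (-x) := by
    rw [en, ← cfc_sub _ _ x c0 (cn 0)]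
    conv_lhs => rw [← cfc_id' ℝ x]
    refine cfc_congr fun s _ => ?_
    simp only [ramp, max_def]
    split_ifs <;> linarith
  have m1 : (τ (cfc (ramp 0) (-x))).re = m := by
    have := congrArg (fun a => (τ a).re) d1
    simp only [map_sub, Complex.sub_re, h0, Complex.zero_re] at this
    linarith
  have m2 : n2 τ x ≤ 2 * m := by
    have a1 : star x * x ≤ cfc (ramp 0) x + cfc (ramp 0) (-x) := by
      rw [en, ← cfc_add _ _ _ c0 (cn 0), hx.star_eq]
      conv_lhs => rw [← cfc_id' ℝ x, ← cfc_mul _ _ x (by fun_prop) (by fun_prop)]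
      refine cfc_mono (fun s hs => ?_) (by fun_prop) (c0.add (cn 0))
      have := abs_le.1 (spec_le hn hs)
      simp only [ramp, max_def]
      split_ifs <;> nlinarith
    have := re_mono hp a1
    rw [map_add, Complex.add_re, m1] at this
    rw [n2]; linarith
  have t0 : 0 ≤ m / 2 := by linarith
  obtain ⟨p, p1, p2, p3⟩ := hR (cfc (ramp (m / 2)) x)
  obtain ⟨q, q1, q2, q3⟩ := hR (cfc (ramp (m / 2)) (-x))
  have gp : Good τ r x (m / 2) p := piece hp h1 t0 hr hx hn hrx (by linarith) p1 p2 p3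
  have gq : Good τ r (-x) (m / 2) q :=
    piece hp h1 t0 hr hx.neg (by rwa [norm_neg]) (by rw [mul_neg, hrx]) (by linarith) q1 q2 q3
  have yw : cfc (ramp (m / 2)) x * cfc (ramp (m / 2)) (-x) = 0 := by
    rw [en, ← cfc_mul _ _ x (ramp_cont _).continuousOn (cn _), ← cfc_zero ℝ x]
    refine cfc_congr fun s _ => ?_
    simp only [ramp, max_def, Pi.zero_apply]
    split_ifs <;> first | (simp; done) | (exfalso; linarith)
  have qp : q * p = 0 := by
    refine p3 q ?_
    have := congrArg star (q3 _ yw)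
    rwa [star_mul, q1.isSelfAdjoint.star_eq, star_zero,
      (IsSelfAdjoint.cfc (f := ramp (m / 2)) (a := x)).star_eq] at this
  have pq : p * q = 0 := by
    have := congrArg star qp
    rwa [star_mul, q1.isSelfAdjoint.star_eq, p1.isSelfAdjoint.star_eq, star_zero] at this
  have n0 := n2_nonneg hp x
  have fin : n2 τ x ^ 3 / 16 ≤ 4 * (m / 2) ^ 3 := by
    have : n2 τ x ^ 3 ≤ (2 * m) ^ 3 := by gcongr
    nlinarith
  obtain ⟨z, z1, z2, z3, ⟨v, v1, v2⟩ | ⟨v, v1, v2⟩⟩ := hC p q p1 q1
  · obtain ⟨u, u1, u2, u3⟩ := swap hp ht t0 hr hx gp gq pq z1 z2 z3 v1 v2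
    exact ⟨u, u1, u2, fin.trans u3⟩
  · obtain ⟨u, u1, u2, u3⟩ :=
      swap hp ht t0 hr hx.neg gq (by rwa [neg_neg]) qp z1 z2 z3 v1 v2
    refine ⟨u, u1, u2, fin.trans (u3.trans (le_of_eq ?_))⟩
    rw [← n2_neg]
    congr 1
    rw [mul_neg, neg_mul]; abel

/-- average of the conjugates along a list -/
noncomputable def avg (L : List M) (x : M) : M :=
  ((L.length : ℂ)⁻¹) • (L.map fun u => star u * x * u).sum

/-- admissible lists -/
def Adm (r : M) (L : List M) : Prop := L ≠ [] ∧ ∀ u ∈ L, u ∈ unitary M ∧ u * r = r * u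

section avg
omit [PartialOrder M] [StarOrderedRing M]

lemma sum_conj (L : List M) (x w : M) :
    ((L.map (· * w)).map fun u => star u * x * u).sum
      = star w * (L.map fun u => star u * x * u).sum * w := by
  induction L with
  | nil => simp
  | cons a L ih =>
    rw [List.map_cons, List.map_cons, List.sum_cons, ih, List.map_cons, List.sum_cons]
    simp only [mul_add, add_mul, star_mul, mul_assoc]

lemma avg_double {L : List M} (hL : L ≠ []) (x w : M) :
    avg (L ++ L.map (· * w)) x = (2⁻¹ : ℂ) • (avg L x + star w * avg L x * w) := by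
  have h : (L.length : ℂ) ≠ 0 := by
    exact_mod_cast (List.length_pos_iff.2 hL).ne'
  rw [avg, avg, List.map_append, List.sum_append, sum_conj, mul_smul_comm, smul_mul_assoc,
    ← smul_add, smul_smul, List.length_append, List.length_map]
  congr 1
  push_cast
  field_simp
  ring

lemma adm_double {r w : M} {L : List M} (hL : Adm r L) (hw : w ∈ unitary M) (hr : w * r = r * w) :
    Adm r (L ++ L.map (· * w)) := by
  refine ⟨by simp [hL.1], fun u hu => ?_⟩
  rcases List.mem_append.1 hu with h | h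
  · exact hL.2 u h
  · obtain ⟨a, ha, rfl⟩ := List.mem_map.1 h
    refine ⟨mul_mem (hL.2 a ha).1 hw, ?_⟩
    rw [mul_assoc, hr, ← mul_assoc, (hL.2 a ha).2, mul_assoc]

lemma avg_add (L : List M) (x y : M) : avg L (x + y) = avg L x + avg L y := by
  rw [avg, avg, avg, ← smul_add, ← List.sum_map_add]
  simp only [mul_add, add_mul]

lemma avg_smul (L : List M) (c : ℂ) (x : M) : avg L (c • x) = c • avg L x := by
  rw [avg, avg, smul_comm c]
  congr 1
  induction L with
  | nil => simp
  | cons a L ih =>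
    rw [List.map_cons, List.sum_cons, ih, List.map_cons, List.sum_cons, smul_add, mul_smul_comm,
      smul_mul_assoc]

lemma avg_sa (L : List M) {x : M} (hx : IsSelfAdjoint x) : IsSelfAdjoint (avg L x) := by
  have : IsSelfAdjoint (L.map fun u => star u * x * u).sum := by
    induction L with
    | nil => simp
    | cons a L ih =>
      rw [List.map_cons, List.sum_cons]
      exact (hx.conjugate' a).add ih
  rw [IsSelfAdjoint, avg, star_smul, this.star_eq]
  simp

lemma avg_norm {r : M} {L : List M} (hL : Adm r L) (x : M) : ‖avg L x‖ ≤ ‖x‖ := by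
  have h : (0 : ℝ) < L.length := by exact_mod_cast List.length_pos_iff.2 hL.1
  have : ∀ L : List M, (∀ u ∈ L, u ∈ unitary M) →
      ‖(L.map fun u => star u * x * u).sum‖ ≤ L.length * ‖x‖ := by
    intro L h
    induction L with
    | nil => simp
    | cons a L ih =>
      rw [List.map_cons, List.sum_cons, List.length_cons]
      refine (norm_add_le _ _).trans ?_
      have ha := h a (by simp)
      rw [CStarRing.norm_mul_mem_unitary _ ha,
        CStarRing.norm_mem_unitary_mul _ (Unitary.star_mem ha)]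
      have := ih fun u hu => h u (by simp [hu])
      push_cast
      linarith
  have h2 := this L fun u hu => (hL.2 u hu).1
  rw [avg, norm_smul, norm_inv, Complex.norm_natCast, inv_mul_le_iff₀ h]
  exact h2

lemma avg_left {r x : M} (hr : star r = r) {L : List M} (hL : Adm r L) (hx : r * x = x) :
    r * avg L x = avg L x := by
  rw [avg, mul_smul_comm, ← List.sum_map_mul_left]
  congr 2
  refine List.map_congr_left fun u hu => ?_
  have := congrArg star (hL.2 u hu).2
  rw [star_mul, star_mul, hr] at this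
  rw [← mul_assoc, ← mul_assoc, this, mul_assoc (star u), hx]

lemma avg_fix {r : M} {L : List M} (hL : Adm r L) : avg L r = r := by
  have h : (L.length : ℂ) ≠ 0 := by
    exact_mod_cast (List.length_pos_iff.2 hL.1).ne'
  have : (L.map fun u => star u * r * u) = L.map fun _ => r := by
    refine List.map_congr_left fun u hu => ?_
    have h1 : star u * u = 1 := (hL.2 u hu).1.1
    rw [mul_assoc, ← (hL.2 u hu).2, ← mul_assoc, h1, one_mul]
  rw [avg, this, List.map_const', List.sum_replicate, ← Nat.cast_smul_eq_nsmul ℂ, smul_smul,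
    inv_mul_cancel₀ h, one_smul]

lemma avg_tr {τ : M →L[ℂ] ℂ} (ht : ∀ x y : M, τ (x * y) = τ (y * x)) {r x : M} {L : List M}
    (hL : Adm r L) (hx : τ x = 0) : τ (avg L x) = 0 := by
  rw [avg, map_smul, map_list_sum, List.map_map, List.sum_eq_zero, smul_zero]
  intro a ha
  obtain ⟨u, hu, rfl⟩ := List.mem_map.1 ha
  have h1 : u * star u = 1 := (hL.2 u hu).1.2
  rw [Function.comp_apply, ht, ← mul_assoc, h1, one_mul, hx]

end avg

lemma dix_sa {τ : M →L[ℂ] ℂ} (hp : ∀ c : M, 0 ≤ c → 0 ≤ τ c)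
    (ht : ∀ x y : M, τ (x * y) = τ (y * x)) (h1 : (τ 1).re ≤ 1) (hR : RK M) (hC : Cmp τ)
    {r : M} (hr : IsStarProjection r) {ι : Type*} [Fintype ι] (H : ι → M)
    (hs : ∀ j, IsSelfAdjoint (H j)) (hn : ∀ j, ‖H j‖ ≤ 1) (hrx : ∀ j, r * H j = H j)
    (h0 : ∀ j, τ (H j) = 0) {g : ℝ} (hg : 0 < g) :
    ∃ L, Adm r L ∧ ∀ j, n2 τ (avg L (H j)) ≤ g := by
  by_contra hcon
  push Not at hcon
  have step : ∀ L, Adm r L → ∃ L', Adm r L' ∧
      ∑ j, n2 τ (avg L' (H j)) ≤ ∑ j, n2 τ (avg L (H j)) - g ^ 3 / 64 := by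
    intro L hL
    obtain ⟨j0, hj0⟩ := hcon L hL
    obtain ⟨u, u1, u2, u3⟩ := k1a hp ht h1 hR hC hr (avg_sa L (hs j0))
      ((avg_norm hL _).trans (hn j0)) (avg_left hr.isSelfAdjoint.star_eq hL (hrx j0))
      (avg_tr ht hL (h0 j0))
    refine ⟨_, adm_double hL u1 u2, ?_⟩
    have key : ∀ j, n2 τ (avg (L ++ L.map (· * u)) (H j))
        = n2 τ (avg L (H j)) - n2 τ (avg L (H j) - star u * avg L (H j) * u) / 4 := by
      intro j
      have := n2_par (τ := τ) (avg L (H j)) (star u * avg L (H j) * u)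
      rw [n2_conj ht u1] at this
      rw [avg_double hL.1, n2_smul]
      norm_num
      linarith
    simp only [key, Finset.sum_sub_distrib]
    have a1 : n2 τ (avg L (H j0) - star u * avg L (H j0) * u) / 4
        ≤ ∑ j, n2 τ (avg L (H j) - star u * avg L (H j) * u) / 4 :=
      Finset.single_le_sum (f := fun j => n2 τ (avg L (H j) - star u * avg L (H j) * u) / 4)
        (fun j _ => div_nonneg (n2_nonneg hp _) (by norm_num)) (Finset.mem_univ j0)
    have a2 : g ^ 3 ≤ n2 τ (avg L (H j0)) ^ 3 := by gcongr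
    linarith
  have one : Adm r [1] := ⟨by simp, by simp⟩
  have iter : ∀ k : ℕ, ∃ L, Adm r L ∧
      ∑ j, n2 τ (avg L (H j)) ≤ ∑ j, n2 τ (avg [1] (H j)) - k * (g ^ 3 / 64) := by
    intro k
    induction k with
    | zero => exact ⟨[1], one, by simp⟩
    | succ k ih =>
      obtain ⟨L, hL, h⟩ := ih
      obtain ⟨L', hL', h'⟩ := step L hL
      refine ⟨L', hL', ?_⟩
      push_cast
      linarith
  obtain ⟨k, hk⟩ := exists_nat_gt ((∑ j, n2 τ (avg [1] (H j))) / (g ^ 3 / 64))
  obtain ⟨L, -, h⟩ := iter k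
  rw [div_lt_iff₀ (by positivity)] at hk
  have := Finset.sum_nonneg (s := Finset.univ) fun j _ => n2_nonneg hp (avg L (H j))
  linarith

open scoped ComplexStarModule in
lemma dix_cent {τ : M →L[ℂ] ℂ} (hp : ∀ c : M, 0 ≤ c → 0 ≤ τ c)
    (ht : ∀ x y : M, τ (x * y) = τ (y * x)) (h1 : (τ 1).re ≤ 1) (hR : RK M) (hC : Cmp τ)
    {r : M} (hr : IsStarProjection r) {ι : Type*} [Fintype ι] (Z : ι → M)
    (hl : ∀ j, r * Z j = Z j) (hr' : ∀ j, Z j * r = Z j)
    (h0 : ∀ j, τ (Z j) = 0) {g : ℝ} (hg : 0 < g) :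
    ∃ L, Adm r L ∧ ∀ j, n2 τ (avg L (Z j)) ≤ g := by
  have rs := hr.isSelfAdjoint.star_eq
  set C : ℝ := 1 + ∑ j, ‖Z j‖ with hCdef
  have C0 : 0 < C := by positivity
  have C1 : ∀ j, ‖Z j‖ ≤ C := fun j => by
    have := Finset.single_le_sum (f := fun j => ‖Z j‖) (fun j _ => norm_nonneg _)
      (Finset.mem_univ j)
    linarith
  have hst : ∀ j, r * star (Z j) = star (Z j) := fun j => by
    have := congrArg star (hr' j)
    rwa [star_mul, rs] at this
  have dec : ∀ j, Z j = (ℜ (Z j) : M) + Complex.I • (ℑ (Z j) : M) := fun j =>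
    (realPart_add_I_smul_imaginaryPart (Z j)).symm
  have tr0 : ∀ j, τ (ℜ (Z j) : M) = 0 ∧ τ (ℑ (Z j) : M) = 0 := fun j => by
    have a1 := im_sa hp (ℜ (Z j)).2
    have a2 := im_sa hp (ℑ (Z j)).2
    have a3 := h0 j
    rw [dec j, map_add, map_smul, smul_eq_mul] at a3
    have a4 := congrArg Complex.re a3
    have a5 := congrArg Complex.im a3
    simp only [Complex.add_re, Complex.add_im, Complex.mul_re, Complex.mul_im, Complex.I_re,
      Complex.I_im, a1, a2, Complex.zero_re, Complex.zero_im] at a4 a5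
    exact ⟨Complex.ext (by simpa using a4) a1, Complex.ext (by simpa using a5) a2⟩
  let P : ι × Bool → M := fun a => cond a.2 (ℜ (Z a.1) : M) (ℑ (Z a.1) : M)
  have P1 : ∀ a, IsSelfAdjoint (P a) := by
    rintro ⟨j, _ | _⟩
    exacts [(ℑ (Z j)).2, (ℜ (Z j)).2]
  have P2 : ∀ a, ‖P a‖ ≤ C := by
    rintro ⟨j, _ | _⟩
    exacts [(imaginaryPart.norm_le (Z j)).trans (C1 j), (realPart.norm_le (Z j)).trans (C1 j)]
  have P3 : ∀ a, r * P a = P a := by
    rintro ⟨j, _ | _⟩
    · simp only [P, cond, imaginaryPart_apply_coe, mul_smul_comm, mul_sub, hl, hst]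
    · simp only [P, cond, realPart_apply_coe, mul_smul_comm, mul_add, hl, hst]
  have P4 : ∀ a, τ (P a) = 0 := by
    rintro ⟨j, _ | _⟩
    exacts [(tr0 j).2, (tr0 j).1]
  obtain ⟨L, hL, h⟩ := dix_sa hp ht h1 hR hC hr (fun a => ((C⁻¹ : ℝ) : ℂ) • P a)
    (fun a => by
      rw [IsSelfAdjoint, star_smul, (P1 a).star_eq, Complex.star_def, Complex.conj_ofReal])
    (fun a => by
      rw [norm_smul, Complex.norm_real, Real.norm_of_nonneg (by positivity), inv_mul_le_iff₀ C0]
      simpa using P2 a)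
    (fun a => by rw [mul_smul_comm, P3]) (fun a => by rw [map_smul, P4, smul_zero])
    (g := g / (4 * C ^ 2)) (by positivity)
  have h' : ∀ a, n2 τ (avg L (P a)) ≤ g / 4 := fun a => by
    have := h a
    rw [avg_smul, n2_smul, Complex.norm_real, Real.norm_of_nonneg (by positivity), inv_pow,
      inv_mul_le_iff₀ (by positivity)] at this
    refine this.trans (le_of_eq ?_)
    field_simp
  refine ⟨L, hL, fun j => ?_⟩
  rw [dec j, avg_add, avg_smul]
  refine (n2_add_le hp _ _).trans ?_
  rw [n2_smul, Complex.norm_I]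
  have a1 : n2 τ (avg L (ℜ (Z j) : M)) ≤ g / 4 := h' (j, true)
  have a2 : n2 τ (avg L (ℑ (Z j) : M)) ≤ g / 4 := h' (j, false)
  linarith

end Dix

/-- Dixmier averaging in the two-norm, list form -/
theorem dixmier {M : Type*} [CStarAlgebra M] {τ : M →L[ℂ] ℂ}
    (ht : ∀ x y : M, τ (x * y) = τ (y * x)) (pos : ∀ x : M, 0 ≤ (τ (star x * x)).re)
    (st : ∀ x : M, τ (star x) = star (τ x)) (h1 : τ 1 = 1)
    (hR : ∀ T : M, ∃ R : M, IsStarProjection R ∧ R * T = T ∧ ∀ x : M, x * T = 0 → x * R = 0)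
    (hC : ∀ p q : M, IsStarProjection p → IsStarProjection q →
      ∃ z : M, IsStarProjection z ∧ (∀ y, z * y = y * z) ∧ τ z = 1 ∧
      ((∃ v : M, star v * v = z * p ∧ q * v = v) ∨ (∃ v : M, star v * v = z * q ∧ p * v = v)))
    {r : M} (hr : IsStarProjection r) {ι : Type*} [Finite ι] (X : ι → M)
    (hX : ∀ j, r * X j * r = X j) {g : ℝ} (hg : 0 < g) :
    ∃ L : List M, L ≠ [] ∧ (∀ u ∈ L, u ∈ unitary M ∧ u * r = r * u) ∧
      ∀ j, Dix.n2 τ (Dix.avg L (X j) - (τ (X j) / τ r) • r) ≤ g := by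
  let _ := CStarAlgebra.spectralOrder M
  have := CStarAlgebra.spectralOrderedRing M
  have := Fintype.ofFinite ι
  have hp : ∀ c : M, 0 ≤ c → 0 ≤ τ c := fun c hc => by
    obtain ⟨y, rfl⟩ := CStarAlgebra.nonneg_iff_eq_star_mul_self.1 hc
    refine Complex.nonneg_iff.2 ⟨pos y, ?_⟩
    have := st (star y * y)
    rw [star_mul, star_star] at this
    have := congrArg Complex.im this
    rw [Complex.star_def, Complex.conj_im] at this
    linarith
  have rr := hr.isIdempotentElem.eq
  have rs := hr.isSelfAdjoint.star_eq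
  have hl : ∀ j, r * X j = X j := fun j => by
    rw [← hX j, ← mul_assoc, ← mul_assoc, rr]
  have hr' : ∀ j, X j * r = X j := fun j => by rw [← hX j, mul_assoc, rr]
  have h0 : ∀ j, τ (X j - (τ (X j) / τ r) • r) = 0 := fun j => by
    rw [map_sub, map_smul, smul_eq_mul]
    by_cases h : τ r = 0
    · rw [h, mul_zero, sub_zero]
      have hs : star (X j) * r = star (X j) := by
        have := congrArg star (hl j)
        rwa [star_mul, rs] at this
      have key : ∀ l : ℝ, 2 * l * Complex.normSq (τ (X j)) ≤ Dix.n2 τ (X j) := fun l => by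
        have a := pos (X j - ((l : ℂ) * τ (X j)) • r)
        simp only [star_sub, star_smul, rs, sub_mul, mul_sub, smul_mul_assoc, mul_smul_comm, rr,
          hl, hs, map_sub, map_smul, smul_eq_mul, h, st, mul_zero, Complex.sub_re, Complex.mul_re,
          Complex.mul_im, Complex.star_def, map_mul, Complex.conj_re, Complex.conj_im,
          Complex.conj_ofReal, Complex.ofReal_re, Complex.ofReal_im,
          Complex.zero_re] at a
        rw [Dix.n2, Complex.normSq_apply]
        nlinarith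
      by_contra hne
      have a : 0 < Complex.normSq (τ (X j)) := Complex.normSq_pos.2 hne
      have b := key ((Dix.n2 τ (X j) + 1) / (2 * Complex.normSq (τ (X j))))
      have c : 2 * ((Dix.n2 τ (X j) + 1) / (2 * Complex.normSq (τ (X j))))
          * Complex.normSq (τ (X j)) = Dix.n2 τ (X j) + 1 := by field_simp
      linarith
    · rw [div_mul_cancel₀ _ h, sub_self]
  obtain ⟨L, hL, h⟩ := Dix.dix_cent hp ht (by rw [h1]; simp) hR
    (fun p q a b => by rw [h1]; exact hC p q a b) hr (fun j => X j - (τ (X j) / τ r) • r)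
    (fun j => by rw [mul_sub, hl, mul_smul_comm, rr])
    (fun j => by rw [sub_mul, hr', smul_mul_assoc, rr]) h0 hg
  refine ⟨L, hL.1, hL.2, fun j => ?_⟩
  have := h j
  rwa [sub_eq_add_neg, ← neg_smul, Dix.avg_add, Dix.avg_smul, Dix.avg_fix hL, neg_smul,
    ← sub_eq_add_neg] at this

/-- Dixmier averaging in the two-norm, indexed form -/
theorem dixmier_fin {M : Type*} [CStarAlgebra M] {τ : M →L[ℂ] ℂ}
    (ht : ∀ x y : M, τ (x * y) = τ (y * x)) (pos : ∀ x : M, 0 ≤ (τ (star x * x)).re)
    (st : ∀ x : M, τ (star x) = star (τ x)) (h1 : τ 1 = 1)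
    (hR : ∀ T : M, ∃ R : M, IsStarProjection R ∧ R * T = T ∧ ∀ x : M, x * T = 0 → x * R = 0)
    (hC : ∀ p q : M, IsStarProjection p → IsStarProjection q →
      ∃ z : M, IsStarProjection z ∧ (∀ y, z * y = y * z) ∧ τ z = 1 ∧
      ((∃ v : M, star v * v = z * p ∧ q * v = v) ∨ (∃ v : M, star v * v = z * q ∧ p * v = v)))
    {r : M} (hr : IsStarProjection r) {ι : Type*} [Finite ι] (X : ι → M)
    (hX : ∀ j, r * X j * r = X j) {g : ℝ} (hg : 0 < g) :
    ∃ (R : ℕ) (u : Fin R → M), 0 < R ∧ (∀ i, u i ∈ unitary M ∧ u i * r = r * u i) ∧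
      ∀ j, Dix.n2 τ ((R : ℂ)⁻¹ • ∑ i, star (u i) * X j * u i - (τ (X j) / τ r) • r) ≤ g := by
  obtain ⟨L, h0, h2, h3⟩ := dixmier ht pos st h1 hR hC hr X hX hg
  refine ⟨L.length, fun i => L[i.1], List.length_pos_iff.2 h0,
    fun i => h2 _ (List.getElem_mem _), fun j => ?_⟩
  have := h3 j
  rwa [Dix.avg, ← Fin.sum_univ_fun_getElem L fun u => star u * X j * u] at this

end Pool.Agent.Lib.MP_08bba9_an.K
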