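import Mathlib

/-! The 2-seminorm of a positive trace on a unital C⋆-algebra, and two selection lemmas. -/

open Finset
open scoped ComplexOrder

namespace Pool.Agent.Lib.MP_08bba9_an.K

namespace Quant

section abstract
variable {E : Type*} [AddCommGroup E] [Module ℝ E] (B : E →ₗ[ℝ] E →ₗ[ℝ] ℝ)

theorem greedy {Ω : Type*} [Fintype Ω] [Nonempty Ω] (C : ℝ) :
    ∀ (K : ℕ) (D : Fin K → Ω → E) (b : E), (∀ l, ∑ ω, D l ω = 0) →
      (∀ l ω, B (D l ω) (D l ω) ≤ C) →
      ∃ ω : Fin K → Ω, B (b + ∑ l, D l (ω l)) (b + ∑ l, D l (ω l)) ≤ B b b + K * C := by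
  intro K
  induction K with
  | zero => intro D b _ _; exact ⟨fun l => l.elim0, by simp⟩
  | succ K ih =>
    intro D b h0 hC
    have h1 : ∃ ω ∈ (univ : Finset Ω), B (b + D 0 ω) (b + D 0 ω) ≤ B b b + C := by
      apply Finset.exists_le_of_sum_le univ_nonempty
      have e1 : ∑ ω, B b (D 0 ω) = 0 := by rw [← map_sum, h0, map_zero]
      have e2 : ∑ ω, B (D 0 ω) b = 0 := by
        rw [← LinearMap.sum_apply, ← map_sum, h0, map_zero, LinearMap.zero_apply]
      calc ∑ ω, B (b + D 0 ω) (b + D 0 ω)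
          = ∑ ω, ((B b b + B (D 0 ω) (D 0 ω)) + (B b (D 0 ω) + B (D 0 ω) b)) := by
            refine sum_congr rfl fun ω _ => ?_
            simp only [map_add, LinearMap.add_apply]; ring
        _ = ∑ ω, (B b b + B (D 0 ω) (D 0 ω)) := by
            rw [sum_add_distrib, sum_add_distrib (f := fun ω => B b (D 0 ω)), e1, e2]; simp
        _ ≤ ∑ _ω : Ω, (B b b + C) := sum_le_sum fun ω _ => by linarith [hC 0 ω]
    obtain ⟨ω0, -, h1⟩ := h1
    obtain ⟨ω, hω⟩ := ih (fun l => D l.succ) (b + D 0 ω0) (fun l => h0 _) (fun l ω => hC _ _)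
    refine ⟨Fin.cons ω0 ω, ?_⟩
    rw [Fin.sum_univ_succ]
    simp only [Fin.cons_zero, Fin.cons_succ]
    rw [← add_assoc]
    push_cast
    linarith

theorem par (x y : E) : B (x + y) (x + y) + B (x - y) (x - y) = 2 * B x x + 2 * B y y := by
  simp only [map_add, map_sub, LinearMap.add_apply, LinearMap.sub_apply]; ring

theorem signs (hB : ∀ x, 0 ≤ B x x) :
    ∀ (K : ℕ) (Z : Fin K → Fin K → E) (a : Fin K → E) (b : E), (∀ l, Z l l = 0) →
      ∃ s : Fin K → ℝ, (∀ l, s l * s l = 1) ∧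
        B (b + ∑ l, s l • a l + ∑ l, ∑ m, (s l * s m) • Z l m)
          (b + ∑ l, s l • a l + ∑ l, ∑ m, (s l * s m) • Z l m)
          ≤ B b b + ∑ l, B (a l) (a l) + 2 * ∑ l, ∑ m, B (Z l m) (Z l m) := by
  intro K
  induction K with
  | zero => intro Z a b _; exact ⟨fun l => l.elim0, fun l => l.elim0, by simp⟩
  | succ K ih =>
    intro Z a b h0
    set W : Fin K → E := fun m => Z 0 m.succ + Z m.succ 0 with hW
    have hsum : (B (b + a 0) (b + a 0) + ∑ m : Fin K, B (a m.succ + W m) (a m.succ + W m))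
        + (B (b - a 0) (b - a 0) + ∑ m : Fin K, B (a m.succ - W m) (a m.succ - W m))
        ≤ 2 * (B b b + B (a 0) (a 0) + ∑ m : Fin K, B (a m.succ) (a m.succ)
          + 2 * (∑ m : Fin K, B (Z 0 m.succ) (Z 0 m.succ)
            + ∑ m : Fin K, B (Z m.succ 0) (Z m.succ 0))) := by
      have e1 := par B b (a 0)
      have e2 : ∑ m : Fin K, B (a m.succ + W m) (a m.succ + W m)
          + ∑ m : Fin K, B (a m.succ - W m) (a m.succ - W m)
          ≤ 2 * ∑ m : Fin K, B (a m.succ) (a m.succ)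
            + 4 * ∑ m : Fin K, B (Z 0 m.succ) (Z 0 m.succ)
            + 4 * ∑ m : Fin K, B (Z m.succ 0) (Z m.succ 0) := by
        rw [← sum_add_distrib, mul_sum, mul_sum, mul_sum, ← sum_add_distrib, ← sum_add_distrib]
        refine sum_le_sum fun m _ => ?_
        have e3 := par B (a m.succ) (W m)
        have e4 := par B (Z 0 m.succ) (Z m.succ 0)
        have e5 := hB (Z 0 m.succ - Z m.succ 0)
        have e6 : B (W m) (W m) = B (Z 0 m.succ + Z m.succ 0) (Z 0 m.succ + Z m.succ 0) := rfl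
        linarith
      linarith
    have key : ∃ σ : ℝ, σ * σ = 1 ∧
        B (b + σ • a 0) (b + σ • a 0) + ∑ m : Fin K, B (a m.succ + σ • W m) (a m.succ + σ • W m)
        ≤ B b b + B (a 0) (a 0) + ∑ m : Fin K, B (a m.succ) (a m.succ)
          + 2 * (∑ m : Fin K, B (Z 0 m.succ) (Z 0 m.succ)
            + ∑ m : Fin K, B (Z m.succ 0) (Z m.succ 0)) := by
      by_contra hc
      push Not at hc
      have c1 := hc 1 (by norm_num)
      have c2 := hc (-1) (by norm_num)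
      simp only [one_smul] at c1
      simp only [neg_smul, one_smul, ← sub_eq_add_neg] at c2
      linarith
    obtain ⟨σ, hσ, hk⟩ := key
    obtain ⟨s, hs, hi⟩ := ih (fun l m => Z l.succ m.succ) (fun m => a m.succ + σ • W m)
      (b + σ • a 0) (fun l => h0 _)
    refine ⟨Fin.cons σ s, fun l => Fin.cases hσ hs l, ?_⟩
    have eq : b + ∑ l, (Fin.cons σ s : Fin (K + 1) → ℝ) l • a l
        + ∑ l, ∑ m, ((Fin.cons σ s : Fin (K + 1) → ℝ) l * (Fin.cons σ s : Fin (K + 1) → ℝ) m) • Z l m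
        = b + σ • a 0 + ∑ l, s l • (a l.succ + σ • W l)
          + ∑ l, ∑ m, (s l * s m) • Z l.succ m.succ := by
      simp only [Fin.sum_univ_succ, Fin.cons_zero, Fin.cons_succ, h0, smul_zero, zero_add, hW,
        smul_add, sum_add_distrib, smul_smul, mul_comm σ]
      abel
    rw [eq]
    simp only [Fin.sum_univ_succ, h0, map_zero, zero_add, sum_add_distrib]
    linarith

end abstract

variable {M : Type*} [CStarAlgebra M] (τ : M →L[ℂ] ℂ)

/-- square of the 2-seminorm -/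
noncomputable def q2 (x : M) : ℝ := (τ (star x * x)).re

/-- the 2-seminorm -/
noncomputable def n2 (x : M) : ℝ := √(q2 τ x)

variable {τ}

theorem pos_of (hp : ∀ x, 0 ≤ τ (star x * x)) [PartialOrder M] [StarOrderedRing M] {c : M}
    (hc : 0 ≤ c) : 0 ≤ τ c := by
  have h : c = star (CFC.sqrt c) * CFC.sqrt c := by
    rw [(CFC.sqrt_nonneg c).star_eq, CFC.sqrt_mul_sqrt_self c hc]
  rw [h]; exact hp _

theorem herm (hp : ∀ x, 0 ≤ τ (star x * x)) (x : M) : τ (star x) = star (τ x) := by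
  let _ := CStarAlgebra.spectralOrder M
  have := CStarAlgebra.spectralOrderedRing M
  let f : M →ₚ[ℂ] ℂ := PositiveLinearMap.mk₀ τ.toLinearMap fun c hc => pos_of hp hc
  exact map_star f x

theorem q2_nonneg (hp : ∀ x, 0 ≤ τ (star x * x)) (x : M) : 0 ≤ q2 τ x :=
  (Complex.nonneg_iff.1 (hp x)).1

theorem n2_nonneg (x : M) : 0 ≤ n2 τ x := Real.sqrt_nonneg _

theorem n2_sq (hp : ∀ x, 0 ≤ τ (star x * x)) (x : M) : n2 τ x ^ 2 = q2 τ x :=
  Real.sq_sqrt (q2_nonneg hp x)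

theorem q2_star (htr : ∀ x y, τ (x * y) = τ (y * x)) (x : M) : q2 τ (star x) = q2 τ x := by
  unfold q2; rw [star_star, htr]

theorem q2_mul_left (hp : ∀ x, 0 ≤ τ (star x * x)) (a x : M) :
    q2 τ (a * x) ≤ ‖a‖ ^ 2 * q2 τ x := by
  let _ := CStarAlgebra.spectralOrder M
  have := CStarAlgebra.spectralOrderedRing M
  have h : star x * (star a * a) * x ≤ ‖star a * a‖ • (star x * x) :=
    CStarAlgebra.star_left_conjugate_le_norm_smul
  have h2 := (Complex.nonneg_iff.1 (pos_of hp (sub_nonneg.2 h))).1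
  rw [map_sub, Complex.sub_re, CStarRing.norm_star_mul_self, ← Complex.coe_smul, map_smul,
    smul_eq_mul, Complex.re_ofReal_mul] at h2
  unfold q2
  rw [star_mul, mul_assoc, ← mul_assoc (star a), ← mul_assoc (star x), sq]
  linarith

theorem q2_mul_right (htr : ∀ x y, τ (x * y) = τ (y * x)) (hp : ∀ x, 0 ≤ τ (star x * x))
    (x a : M) : q2 τ (x * a) ≤ ‖a‖ ^ 2 * q2 τ x := by
  rw [← q2_star htr, star_mul, ← q2_star htr x, ← norm_star a]
  exact q2_mul_left hp _ _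

theorem q2_left_le (hp : ∀ x, 0 ≤ τ (star x * x)) {a : M} (ha : ‖a‖ ≤ 1) (x : M) :
    q2 τ (a * x) ≤ q2 τ x := by
  have h1 : ‖a‖ ^ 2 ≤ 1 := pow_le_one₀ (norm_nonneg _) ha
  exact (q2_mul_left hp a x).trans (mul_le_of_le_one_left (q2_nonneg hp x) h1)

theorem q2_right_le (htr : ∀ x y, τ (x * y) = τ (y * x)) (hp : ∀ x, 0 ≤ τ (star x * x))
    {a : M} (ha : ‖a‖ ≤ 1) (x : M) : q2 τ (x * a) ≤ q2 τ x := by
  have h1 : ‖a‖ ^ 2 ≤ 1 := pow_le_one₀ (norm_nonneg _) ha
  exact (q2_mul_right htr hp x a).trans (mul_le_of_le_one_left (q2_nonneg hp x) h1)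

theorem cs (hp : ∀ x, 0 ≤ τ (star x * x)) (x y : M) :
    ‖τ (star x * y)‖ ≤ n2 τ x * n2 τ y := by
  let _ := CStarAlgebra.spectralOrder M
  have := CStarAlgebra.spectralOrderedRing M
  let f : M →ₚ[ℂ] ℂ := PositiveLinearMap.mk₀ τ.toLinearMap fun c hc => pos_of hp hc
  exact norm_inner_le_norm (𝕜 := ℂ) (f.toPreGNS x) (f.toPreGNS y)

theorem n2_add (hp : ∀ x, 0 ≤ τ (star x * x)) (x y : M) : n2 τ (x + y) ≤ n2 τ x + n2 τ y := by
  let _ := CStarAlgebra.spectralOrder M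
  have := CStarAlgebra.spectralOrderedRing M
  let f : M →ₚ[ℂ] ℂ := PositiveLinearMap.mk₀ τ.toLinearMap fun c hc => pos_of hp hc
  exact norm_add_le (f.toPreGNS x) (f.toPreGNS y)

theorem q2_smul (c : ℂ) (x : M) : q2 τ (c • x) = ‖c‖ ^ 2 * q2 τ x := by
  unfold q2
  rw [star_smul, smul_mul_smul_comm, map_smul, smul_eq_mul, Complex.star_def,
    ← Complex.normSq_eq_conj_mul_self, Complex.re_ofReal_mul, Complex.normSq_eq_norm_sq]

theorem n2_smul (c : ℂ) (x : M) : n2 τ (c • x) = ‖c‖ * n2 τ x := by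
  unfold n2
  rw [q2_smul, Real.sqrt_mul (sq_nonneg _), Real.sqrt_sq (norm_nonneg _)]

theorem n2_zero : n2 τ 0 = 0 := by simp [n2, q2]

theorem n2_neg (x : M) : n2 τ (-x) = n2 τ x := by simp [n2, q2]

theorem n2_sub (hp : ∀ x, 0 ≤ τ (star x * x)) (x y : M) : n2 τ (x - y) ≤ n2 τ x + n2 τ y := by
  rw [sub_eq_add_neg, ← n2_neg y]; exact n2_add hp _ _

theorem n2_sum (hp : ∀ x, 0 ≤ τ (star x * x)) {ι : Type*} (s : Finset ι) (x : ι → M) :
    n2 τ (∑ i ∈ s, x i) ≤ ∑ i ∈ s, n2 τ (x i) :=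
  Finset.le_sum_of_subadditive (n2 τ) n2_zero.le (n2_add hp) s x

theorem n2_mono {x y : M} (h : q2 τ x ≤ q2 τ y) : n2 τ x ≤ n2 τ y := Real.sqrt_le_sqrt h

theorem q2_proj {p : M} (h : IsStarProjection p) : q2 τ p = (τ p).re := by
  unfold q2; rw [h.isSelfAdjoint.star_eq, h.isIdempotentElem.eq]

/-- `|τ (g Y)| ≤ τ g` for a projection `g` and a contraction `Y`. -/
theorem norm_proj_mul (htr : ∀ x y, τ (x * y) = τ (y * x)) (hp : ∀ x, 0 ≤ τ (star x * x))
    {g Y : M} (hg : IsStarProjection g) (hY : ‖Y‖ ≤ 1) : ‖τ (g * Y)‖ ≤ (τ g).re := by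
  have e : τ (g * Y) = τ (star g * (Y * g)) := by
    rw [hg.isSelfAdjoint.star_eq, ← mul_assoc, htr (g * Y) g, ← mul_assoc, hg.isIdempotentElem.eq]
  rw [e, ← q2_proj hg, ← n2_sq hp, sq]
  exact (cs hp _ _).trans
    (mul_le_mul_of_nonneg_left (n2_mono (q2_left_le hp hY g)) (n2_nonneg _))

/-- the real bilinear form on families -/
noncomputable def bil (τ : M →L[ℂ] ℂ) (ι : Type*) [Fintype ι] :
    (ι → M) →ₗ[ℝ] (ι → M) →ₗ[ℝ] ℝ :=
  LinearMap.mk₂ ℝ (fun x y => ∑ j, (τ (star (x j) * y j)).re)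
    (fun x x' y => by simp [add_mul, sum_add_distrib])
    (fun c x y => by
      simp only [Pi.smul_apply, star_smul, star_trivial, smul_mul_assoc, smul_eq_mul, mul_sum]
      refine sum_congr rfl fun j _ => ?_
      rw [← Complex.coe_smul, map_smul, smul_eq_mul, Complex.re_ofReal_mul])
    (fun x y y' => by simp [mul_add, sum_add_distrib])
    (fun c x y => by
      simp only [Pi.smul_apply, mul_smul_comm, smul_eq_mul, mul_sum]
      refine sum_congr rfl fun j _ => ?_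
      rw [← Complex.coe_smul, map_smul, smul_eq_mul, Complex.re_ofReal_mul])

theorem bil_self {ι : Type*} [Fintype ι] (x : ι → M) : bil τ ι x x = ∑ j, q2 τ (x j) := rfl

end Quant

end Pool.Agent.Lib.MP_08bba9_an.K
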