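import Pool.Agent.Lib.MP_08bba9_an.K.FreeStep
import Pool.Agent.Lib.MP_08bba9_an.K.QuantA

/-! Step K4: existence of an almost free symmetry. -/

namespace Lib.MP_08bba9_an.K4

open scoped ComplexOrder
open Pool.Agent.Lib.MP_08bba9_an.K.Quant

variable {M : Type*} [CStarAlgebra M] {ι : Type*} {τ : M →L[ℂ] ℂ} {x : ι → M}

lemma n2_mul_left (hp : ∀ x, 0 ≤ τ (star x * x)) (a y : M) : n2 τ (a * y) ≤ ‖a‖ * n2 τ y := by
  unfold n2
  rw [← Real.sqrt_sq (norm_nonneg a), ← Real.sqrt_mul (sq_nonneg _)]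
  exact Real.sqrt_le_sqrt (q2_mul_left hp a y)

lemma proj_nonneg (hp : ∀ x, 0 ≤ τ (star x * x)) {q : M} (hq : IsStarProjection q) : 0 ≤ τ q := by
  have := hp q
  rwa [hq.isSelfAdjoint.star_eq, hq.isIdempotentElem.eq] at this

lemma proj_re (hp : ∀ x, 0 ≤ τ (star x * x)) {q : M} (hq : IsStarProjection q) :
    τ q = ((τ q).re : ℂ) :=
  Complex.ext (by simp) (by simpa using (Complex.nonneg_iff.1 (proj_nonneg hp hq)).2.symm)

lemma proj_re_nonneg (hp : ∀ x, 0 ≤ τ (star x * x)) {q : M} (hq : IsStarProjection q) :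
    0 ≤ (τ q).re := (Complex.nonneg_iff.1 (proj_nonneg hp hq)).1

lemma proj_re_le (h1 : τ 1 = 1) (hp : ∀ x, 0 ≤ τ (star x * x)) {q : M}
    (hq : IsStarProjection q) : (τ q).re ≤ 1 := by
  have := proj_re_nonneg hp hq.one_sub
  rw [map_sub, h1, Complex.sub_re, Complex.one_re] at this
  linarith

lemma cut2 (htr : ∀ a b, τ (a * b) = τ (b * a)) (hp : ∀ x, 0 ≤ τ (star x * x)) {q T : M}
    (hq : IsStarProjection q) (hT : q * T = T) {c : ℝ} (hc : 0 ≤ c)
    (h : q2 τ T ≤ (τ q).re * c ^ 2) (Z : M) : ‖τ (T * Z)‖ ≤ (τ q).re * c * ‖Z‖ := by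
  have e : τ (T * Z) = τ (star (star T) * (Z * q)) := by
    rw [star_star, ← mul_assoc, htr _ q, ← mul_assoc, hT]
  have h0 := proj_re_nonneg hp hq
  have a1 : n2 τ (star T) ≤ n2 τ q * c := by
    unfold n2
    rw [q2_star htr, q2_proj hq, ← Real.sqrt_sq hc, ← Real.sqrt_mul h0]
    exact Real.sqrt_le_sqrt h
  have a2 := n2_mul_left hp Z q
  have a3 : n2 τ q ^ 2 = (τ q).re := by rw [n2_sq hp, q2_proj hq]
  have a4 : 0 ≤ n2 τ q := n2_nonneg q
  rw [e]
  refine (cs hp _ _).trans ((mul_le_mul a1 a2 (n2_nonneg _) (by positivity)).trans_eq ?_)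
  rw [← a3]; ring

lemma cut1 (htr : ∀ a b, τ (a * b) = τ (b * a)) (hp : ∀ x, 0 ≤ τ (star x * x)) {q : M}
    (hq : IsStarProjection q) (Z : M) : ‖τ (q * Z)‖ ≤ (τ q).re * ‖Z‖ := by
  simpa using cut2 htr hp hq hq.isIdempotentElem.eq zero_le_one (by simp [q2_proj hq]) Z

lemma norm_tau_le (h1 : τ 1 = 1) (htr : ∀ a b, τ (a * b) = τ (b * a))
    (hp : ∀ x, 0 ≤ τ (star x * x)) (a : M) : ‖τ a‖ ≤ ‖a‖ := by
  simpa [h1] using cut1 htr hp (IsStarProjection.one M) a

lemma k3' (htr : ∀ a b, τ (a * b) = τ (b * a)) (hp : ∀ x, 0 ≤ τ (star x * x)) (h3 : K3In τ)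
    (I : Type*) [Finite I] {r γ η₀ : ℝ} (hr : 1 ≤ r) (hγ : 0 < γ) (hη : 0 < η₀) :
    ∃ c₀ : ℝ, 0 < c₀ ∧ ∀ (f : M) (X : I → M), IsStarProjection f → η₀ ≤ (τ f).re →
      (∀ i, ‖X i‖ ≤ r) → ∃ q w : M, IsStarProjection q ∧ f * q = q ∧ star w = w ∧ w * w = q ∧
        τ w = 0 ∧ c₀ ≤ (τ q).re ∧ (τ q).re ≤ γ ∧ ∀ i Z, ‖τ (q * X i * q * Z)‖ ≤
          (τ q).re * (2 * ‖τ (f * X i)‖ / η₀ + γ) * ‖Z‖ := by
  have r0 : 0 < r := by linarith
  obtain ⟨c₀, hc, H⟩ := h3 (Nat.card I) (γ / r) η₀ (by positivity) hη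
  refine ⟨c₀, hc, fun f X hf hf' hX => ?_⟩
  let e := Finite.equivFin I
  have nr : ‖((r⁻¹ : ℝ) : ℂ)‖ = r⁻¹ := by
    rw [Complex.norm_real, Real.norm_of_nonneg (by positivity)]
  obtain ⟨q, w, a1, a2, a3, a4, a5, a6, a7, a8⟩ :=
    H f (fun j => ((r⁻¹ : ℝ) : ℂ) • X (e.symm j)) hf hf' fun j => by
      rw [norm_smul, nr, inv_mul_le_iff₀ r0, mul_one]; exact hX _
  refine ⟨q, w, a1, a2, a3, a4, a5, a6, a7.trans (div_le_self hγ.le hr), fun i Z => ?_⟩
  have b := a8 (e i)
  simp only [Equiv.symm_apply_apply] at b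
  have b2 := cut2 htr hp a1 (T := q * (((r⁻¹ : ℝ) : ℂ) • X i) * q)
    (by rw [← mul_assoc, ← mul_assoc, a1.isIdempotentElem.eq]) (by positivity) b Z
  simp only [mul_smul_comm, smul_mul_assoc, map_smul, smul_eq_mul, norm_mul, nr] at b2
  rw [inv_mul_le_iff₀ r0] at b2
  refine b2.trans_eq ?_
  field_simp

lemma cube_of_sq {w q : M} (hq : IsStarProjection q) (h1 : star w = w) (h2 : w * w = q) :
    q * w = w := by
  have e := hq.isIdempotentElem.eq
  have c : w * q = q * w := by rw [← h2, mul_assoc]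
  have h : star (w - q * w) * (w - q * w) = 0 := by
    rw [star_sub, star_mul, h1, hq.isSelfAdjoint.star_eq, c]
    have e1 : w * (q * w) = q := by rw [← mul_assoc, c, mul_assoc, h2, e]
    have e2 : q * w * w = q := by rw [mul_assoc, h2, e]
    have e3 : q * w * (q * w) = q := by rw [mul_assoc, e1, e]
    rw [sub_mul, mul_sub, mul_sub, h2, e1, e2, e3]; simp
  exact (sub_eq_zero.1 (CStarRing.star_mul_self_eq_zero_iff _ |>.1 h)).symm

lemma step [Finite ι] (h1 : τ 1 = 1) (htr : ∀ a b, τ (a * b) = τ (b * a))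
    (hp : ∀ x, 0 ≤ τ (star x * x)) (h3 : K3In τ) (hx : ∀ i, ‖x i‖ ≤ 1) (d : ℕ) {η₀ : ℝ}
    (hη : 0 < η₀) : ∃ L : ℝ, 0 ≤ L ∧ ∀ γ : ℝ, 0 < γ → ∃ c₀ : ℝ, 0 < c₀ ∧ ∀ (v : M) (D : ℝ),
      St τ v → 0 ≤ D → Small τ x d (lt τ v) D → η₀ ≤ 1 - (τ (v * v)).re →
        ∃ (v' : M) (h : ℝ), St τ v' ∧ c₀ ≤ h ∧ (τ (v' * v')).re = (τ (v * v)).re + h ∧
          Small τ x d (lt τ v') (D + h * L * (D + γ)) := by
  have hn := norm_tau_le h1 htr hp
  set B : ℝ := 2 ^ d * 2 ^ d * 2 with hB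
  set E : ℝ := 9 ^ d with hE
  set a : ℝ := 2 * (E + 1) / η₀ with ha
  have B0 : 0 ≤ B := by positivity
  have E0 : 0 ≤ E := by positivity
  have a0 : 0 ≤ a := by positivity
  refine ⟨d * ((a + 1) + E + d * ((a + 1) * B + 3 * (B * B))), by positivity, fun γ hγ => ?_⟩
  have := finite_odd (ι := ι) d
  have h2 : (1 : ℝ) ≤ 2 ^ d := one_le_pow₀ (by norm_num)
  obtain ⟨c₀, hc, H⟩ := k3' htr hp h3
    {z : List (List ι × Bool) × List ι // sz z.1 + z.2.length + 1 ≤ d}
    (r := 2 ^ d * 2) (by linarith) hγ hη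
  refine ⟨c₀, hc, fun v D hv hD hS ht => ?_⟩
  have pv := hv.proj
  have tv := proj_re hp pv
  have t0 := proj_re_nonneg hp pv
  have t1 := proj_re_le h1 hp pv
  have ng := hv.norm_lt tv t0 t1
  obtain ⟨q, w, a1, a2, a3, a4, a5, a6, a7, a8⟩ := H (1 - v * v)
    (fun z => wd τ x (lt τ v) z.1.1 * blk τ x z.1.2) pv.one_sub
    (by rw [map_sub, h1, Complex.sub_re, Complex.one_re]; exact ht)
    fun z => nm2 (norm_wd_le' hn hx ng (by have := z.2; omega)) (norm_blk_le hn hx _)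
  have qw := cube_of_sq a1 a3 a4
  have wq : w * q = w := by rw [← a4, ← mul_assoc, a4, qw]
  have vq : v * v * q = 0 := by
    rw [sub_mul, one_mul] at a2; exact sub_eq_self.1 a2
  have vw : v * w = 0 := by
    rw [← hv.cube, ← qw, mul_assoc v v v, mul_assoc v, ← mul_assoc (v * v), vq]; simp
  have wv : w * v = 0 := by
    have := congrArg star vw
    rwa [star_mul, hv.sa, a3, star_zero] at this
  have sq' : (v + w) * (v + w) = v * v + q := by
    rw [add_mul, mul_add, mul_add, vw, wv, a4]; simp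
  have hv' : St τ (v + w) := ⟨by rw [star_add, hv.sa, a3], by
    rw [sq', add_mul, mul_add, mul_add, hv.cube, mul_assoc v v w, vw, qw, ← a4, mul_assoc, wv]
    simp, by rw [map_add, hv.tr0, a5, add_zero]⟩
  have h0 := proj_re_nonneg hp a1
  refine ⟨v + w, (τ q).re, hv', a6, by rw [sq', map_add, Complex.add_re], fun l hl hs => ?_⟩
  have pv' := hv'.proj
  have ng' := hv'.norm_lt (proj_re hp pv') (proj_re_nonneg hp pv') (proj_re_le h1 hp pv')
  have mg := merge h1 htr hn hx (hv.tau_lt h1) (hv.mul_lt tv t0 t1) hD hS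
  have hfX : ∀ l xs, sz l + xs.length + 1 ≤ d →
      ‖τ ((1 - v * v) * (wd τ x (lt τ v) l * blk τ x xs))‖ ≤ (E + 1) * D := fun l xs hz => by
    have e1 : 1 - v * v = ((1 - (τ (v * v)).re : ℝ) : ℂ) • (1 : M) - lt τ v false := by
      simp only [lt, cond_false]
      push_cast
      rw [← tv]
      module
    have s1 := hS (l ++ [(xs, false)]) (by simp)
      (by simp only [sz_append, sz_cons, sz_nil]; omega)
    rw [e1, sub_mul, map_sub, htr (lt τ v false), ← wd_concat, smul_mul_assoc, one_mul, map_smul,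
      smul_eq_mul]
    refine (norm_sub_le _ _).trans ?_
    rw [norm_mul, Complex.norm_real, Real.norm_of_nonneg (by linarith)]
    have := mul_le_mul (show 1 - (τ (v * v)).re ≤ 1 by linarith) (mg l xs hz) (norm_nonneg _)
      zero_le_one
    linarith
  have key := step_wd (g := lt τ v) (g' := lt τ (v + w)) (Q := fun b => cond b w q)
    (ρ := fun b => cond b 0 (τ q)) (q := q) (d := d) (h := (τ q).re) (c := a * D + γ)
    (D₁ := E * D) htr hn hx h0 (by positivity) (by positivity) ng ng'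
    (fun b => by
      cases b
      · simp only [lt, cond_false, sq', map_add]
        module
      · simp [lt])
    (fun b => by
      cases b
      · exact a1.isIdempotentElem.eq
      · exact wq)
    (fun b => by
      cases b
      · exact a1.isIdempotentElem.eq
      · exact qw)
    (fun b => by
      cases b
      · exact a1.norm_le
      · exact norm_le_of_cube (v := w) a3 (by rw [a4, qw]))
    (fun b => by
      cases b
      · simp only [cond_false]
        rw [proj_re hp a1, Complex.norm_real, Real.norm_of_nonneg h0, Complex.ofReal_re]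
      · simpa using h0)
    (cut1 htr hp a1)
    (fun l xs hz Z => by
      refine (a8 ⟨(l, xs), hz⟩ Z).trans ?_
      have b1 : 2 * ‖τ ((1 - v * v) * (wd τ x (lt τ v) l * blk τ x xs))‖ / η₀ ≤ a * D := by
        rw [ha, div_mul_eq_mul_div]
        refine div_le_div_of_nonneg_right ?_ hη.le
        linarith [hfX l xs hz]
      gcongr)
    mg l hs
  have b1 : a * D + γ ≤ (a + 1) * (D + γ) := by nlinarith
  have b2 : E * D ≤ E * (D + γ) := by nlinarith
  have b3 : (τ q).re ≤ D + γ := by linarith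
  have b4 : (d : ℝ) * ((τ q).re * (a * D + γ + E * D) + d * ((τ q).re * (a * D + γ) * B +
      3 * ((τ q).re * (τ q).re * (B * B)))) ≤
      d * ((τ q).re * ((a + 1) * (D + γ) + E * (D + γ)) + d * ((τ q).re * ((a + 1) * (D + γ)) * B +
      3 * ((τ q).re * (D + γ) * (B * B)))) := by gcongr
  have b5 := norm_le_insert' (τ (wd τ x (lt τ (v + w)) l)) (τ (wd τ x (lt τ v) l))
  have b6 := hS l hl hs
  rw [← hB] at key
  nlinarith

lemma loop [Finite ι] (h1 : τ 1 = 1) (htr : ∀ a b, τ (a * b) = τ (b * a))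
    (hp : ∀ x, 0 ≤ τ (star x * x)) (h3 : K3In τ) (hx : ∀ i, ‖x i‖ ≤ 1) (d : ℕ) {η₀ D : ℝ}
    (hη : 0 < η₀) (hD : 0 < D) :
    ∃ v : M, St τ v ∧ Small τ x d (lt τ v) D ∧ 1 - (τ (v * v)).re < η₀ := by
  obtain ⟨L, hL, H⟩ := step h1 htr hp h3 hx d hη
  set γ : ℝ := D * Real.exp (-(2 * L)) with hγ
  have γ0 : 0 < γ := by positivity
  obtain ⟨c₀, hc, H⟩ := H γ γ0
  have main : ∀ m : ℕ, ∃ v : M, St τ v ∧
      Small τ x d (lt τ v) (γ * Real.exp (2 * L * (τ (v * v)).re)) ∧
      (1 - (τ (v * v)).re < η₀ ∨ m * c₀ ≤ (τ (v * v)).re) := by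
    intro m
    induction m with
    | zero =>
      refine ⟨0, ⟨by simp, by simp, by simp⟩, fun l hl _ => ?_, Or.inr (by simp)⟩
      obtain ⟨p, l, rfl⟩ := List.exists_cons_of_ne_nil hl
      have : lt τ (0 : M) p.2 = 0 := by cases p.2 <;> simp [lt]
      rw [wd_cons, this, mul_zero, zero_mul, map_zero, norm_zero]
      positivity
    | succ m ih =>
      obtain ⟨v, hv, hS, hm⟩ := ih
      by_cases ht : 1 - (τ (v * v)).re < η₀
      · exact ⟨v, hv, hS, Or.inl ht⟩
      obtain ⟨v', h, b1, b2, b3, b4⟩ := H v _ hv (by positivity) hS (not_lt.1 ht)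
      refine ⟨v', b1, fun l hl hs => (b4 l hl hs).trans ?_, Or.inr ?_⟩
      · have t0 := proj_re_nonneg hp hv.proj
        have e1 : 1 ≤ Real.exp (2 * L * (τ (v * v)).re) := Real.one_le_exp (by positivity)
        have e2 := Real.add_one_le_exp (2 * L * h)
        have h0 : 0 ≤ h * L := mul_nonneg (hc.le.trans b2) hL
        rw [b3, mul_add (2 * L), Real.exp_add, ← mul_assoc]
        set D' := γ * Real.exp (2 * L * (τ (v * v)).re) with hD'
        have e3 : γ ≤ D' := by rw [hD']; nlinarith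
        have e4 : h * L * (D' + γ) ≤ h * L * (D' + D') := by gcongr
        nlinarith
      · rw [b3]
        push_cast
        linarith [hm.resolve_left ht]
  obtain ⟨m, hm⟩ := exists_nat_gt (1 / c₀)
  rw [div_lt_iff₀ hc] at hm
  obtain ⟨v, hv, hS, h⟩ := main m
  have t1 := proj_re_le h1 hp hv.proj
  refine ⟨v, hv, fun l hl hs => (hS l hl hs).trans ?_, h.resolve_right (by linarith)⟩
  rw [hγ, mul_assoc, ← Real.exp_add]
  refine mul_le_of_le_one_right hD.le (Real.exp_le_one_iff.2 ?_)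
  nlinarith

/-- K4 for an indexed family. -/
theorem k4_idx [Finite ι] (h1 : τ 1 = 1) (htr : ∀ a b, τ (a * b) = τ (b * a))
    (hp : ∀ x, 0 ≤ τ (star x * x)) (h3 : K3In τ) (hx : ∀ i, ‖x i‖ ≤ 1) (d : ℕ) {η : ℝ}
    (hη : 0 < η) : ∃ u : M, star u = u ∧ u * u = 1 ∧ ∀ L : List (List ι), L ≠ [] →
      (L.map fun xs => xs.length + 1).sum ≤ d →
        ‖τ (L.map fun xs => blk τ x xs * u).prod‖ ≤ η := by
  have hn := norm_tau_le h1 htr hp
  set B : ℝ := 2 ^ d * (2 ^ d * 2) with hB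
  have B0 : 0 ≤ B := by positivity
  obtain ⟨v, hv, hS, ht⟩ := loop h1 htr hp h3 hx d (η₀ := η / 2 / (d * B + 1)) (D := η / 2)
    (by positivity) (by positivity)
  have pv := hv.proj
  have ng := hv.norm_lt (proj_re hp pv) (proj_re_nonneg hp pv) (proj_re_le h1 hp pv)
  have c1 := hv.cube
  have c2 : v * (v * v) = v := by rw [← mul_assoc, c1]
  have su : star (v + (1 - v * v)) = v + (1 - v * v) := by
    rw [star_add, hv.sa, pv.one_sub.isSelfAdjoint.star_eq]
  have uu : (v + (1 - v * v)) * (v + (1 - v * v)) = 1 := by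
    rw [add_mul, mul_add, mul_add, pv.one_sub.isIdempotentElem.eq, mul_sub, sub_mul, c1, c2]
    simp
  refine ⟨v + (1 - v * v), su, uu, fun L hL hs => ?_⟩
  have nu : ‖v + (1 - v * v)‖ ≤ 1 := norm_le_of_cube su (by rw [uu, one_mul])
  let g' : Bool → M := fun b => cond b (v + (1 - v * v)) (lt τ v false)
  have ng' : ∀ b, ‖g' b‖ ≤ 1 := fun b => by
    cases b
    · exact ng false
    · exact nu
  have e1 : ∀ L : List (List ι), (L.map fun xs => blk τ x xs * (v + (1 - v * v))).prod =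
      wd τ x g' (L.map fun xs => (xs, true)) := fun L => by
    induction L with
    | nil => rfl
    | cons xs L ih => rw [List.map_cons, List.prod_cons, ih]; rfl
  have hs' : sz (L.map fun xs => (xs, true)) ≤ d := by
    simpa only [sz, List.map_map, Function.comp_def] using hs
  have tf : (τ (1 - v * v)).re ≤ η / 2 / (d * B + 1) := by
    rw [map_sub, h1, Complex.sub_re, Complex.one_re]; exact ht.le
  have key := tele (τ := τ) (x := x) (lt τ v) g' 1 (η / 2 / (d * B + 1) * B)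
    (L.map fun xs => (xs, true)) 1 fun l₁ p l₂ e => by
      rw [e, sz_append, sz_cons] at hs'
      obtain ⟨xs, b⟩ := p
      cases b
      · simp only [g', cond_false, sub_self, mul_zero, zero_mul, map_zero, norm_zero]
        positivity
      · simp only [g', lt, cond_true, add_sub_cancel_left, one_mul, mul_one]
        rw [mul_assoc _ (1 - v * v), htr, mul_assoc]
        refine (cut1 htr hp pv.one_sub _).trans (mul_le_mul tf ?_ (norm_nonneg _) (by positivity))
        exact nm2 (norm_wd_le' hn hx ng' (by omega))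
          (nm2 (norm_wd_le' hn hx ng (by omega)) (norm_blk_le hn hx _))
  simp only [one_mul, mul_one] at key
  have k1 := hS (L.map fun xs => (xs, true)) (by simpa using hL) hs'
  have k2 : ((L.map fun xs => (xs, true)).length : ℝ) * (η / 2 / (d * B + 1) * B) ≤ η / 2 := by
    have l1 : ((L.map fun xs => (xs, true)).length : ℝ) ≤ d := by
      exact_mod_cast (length_le_sz _).trans hs'
    refine (mul_le_mul_of_nonneg_right l1 (by positivity)).trans ?_
    rw [mul_left_comm, div_mul_eq_mul_div, div_le_iff₀ (by positivity)]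
    nlinarith
  rw [e1]
  linarith [norm_le_insert' (τ (wd τ x g' (L.map fun xs => (xs, true))))
    (τ (wd τ x (lt τ v) (L.map fun xs => (xs, true))))]

/-- K4: an almost free symmetry. -/
theorem k4 (h1 : τ 1 = 1) (htr : ∀ a b, τ (a * b) = τ (b * a))
    (hpos : ∀ x, 0 ≤ (τ (star x * x)).re) (hstar : ∀ x, τ (star x) = star (τ x)) (h3 : K3In τ)
    (F : Finset M) (d₀ : ℕ) (η : ℝ) (hη : 0 < η) (hF : ∀ x ∈ F, ‖x‖ ≤ 1) :
    ∃ u : M, star u = u ∧ u * u = 1 ∧ ∀ L : List (List M), L ≠ [] →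
      (∀ l ∈ L, l ≠ [] ∧ ∀ x ∈ l, x ∈ F) → (L.map List.length).sum ≤ d₀ →
        ‖τ (L.map fun l => (l.prod - algebraMap ℂ M (τ l.prod)) * u).prod‖ ≤ η := by
  have hp : ∀ x, 0 ≤ τ (star x * x) := fun x => by
    refine Complex.nonneg_iff.2 ⟨hpos x, ?_⟩
    have := hstar (star x * x)
    rw [star_mul, star_star] at this
    exact (Complex.conj_eq_iff_im.1 this.symm).symm
  obtain ⟨u, a1, a2, H⟩ := k4_idx (ι := F) (x := Subtype.val) h1 htr hp h3
    (fun i => hF i i.2) (2 * d₀) hη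
  refine ⟨u, a1, a2, fun L hL hm hs => ?_⟩
  have ex : ∀ L : List (List M), (∀ l ∈ L, l ≠ [] ∧ ∀ x ∈ l, x ∈ F) →
      ∃ L' : List (List F), L'.map (List.map Subtype.val) = L ∧
        (L'.map fun xs => xs.length + 1).sum ≤ 2 * (L.map List.length).sum := fun L => by
    induction L with
    | nil => exact fun _ => ⟨[], rfl, by simp⟩
    | cons l L ih =>
      intro h
      obtain ⟨L', e, b⟩ := ih fun l' hl' => h l' (List.mem_cons_of_mem _ hl')
      obtain ⟨n0, hl⟩ := h l List.mem_cons_self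
      refine ⟨l.attachWith _ hl :: L', by
        rw [List.map_cons, e, List.attachWith_map_subtype_val], ?_⟩
      have := List.length_pos_iff.2 n0
      simp only [List.map_cons, List.sum_cons, List.length_attachWith]
      omega
  obtain ⟨L', rfl, b⟩ := ex L hm
  have := H L' (by simpa using hL) (by omega)
  simpa only [List.map_map, Function.comp_def, blk, Algebra.algebraMap_eq_smul_one] using this

end Lib.MP_08bba9_an.K4
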