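import Mathlib

/-! Words in centred blocks and letters: merging and telescoping (step K4, algebraic part). -/

namespace Lib.MP_08bba9_an.K4

variable {M : Type*} [CStarAlgebra M] {ι : Type*}

/-- The input of K4 (local quantisation, K1 + K2 + K3 glued). -/
def K3In (τ : M →L[ℂ] ℂ) : Prop :=
  ∀ (n : ℕ) (γ η₀ : ℝ), 0 < γ → 0 < η₀ → ∃ c₀ : ℝ, 0 < c₀ ∧
    ∀ (f : M) (Y : Fin n → M), IsStarProjection f → η₀ ≤ (τ f).re → (∀ i, ‖Y i‖ ≤ 1) →
      ∃ q w : M, IsStarProjection q ∧ f * q = q ∧ star w = w ∧ w * w = q ∧ τ w = 0 ∧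
        c₀ ≤ (τ q).re ∧ (τ q).re ≤ γ ∧ ∀ i, (τ (star (q * Y i * q) * (q * Y i * q))).re ≤
          (τ q).re * (2 * ‖τ (f * Y i)‖ / η₀ + γ) ^ 2

/-- A centred block. -/
noncomputable def blk (τ : M →L[ℂ] ℂ) (x : ι → M) (xs : List ι) : M :=
  (xs.map x).prod - τ (xs.map x).prod • (1 : M)

/-- A word: centred blocks alternating with letters. -/
noncomputable def wd (τ : M →L[ℂ] ℂ) (x : ι → M) (g : Bool → M) : List (List ι × Bool) → M
  | [] => 1
  | p :: l => blk τ x p.1 * g p.2 * wd τ x g l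

/-- The size of a word. -/
def sz (l : List (List ι × Bool)) : ℕ := (l.map fun p => p.1.length + 1).sum

@[simp] lemma sz_nil : sz ([] : List (List ι × Bool)) = 0 := rfl

@[simp] lemma sz_cons (p : List ι × Bool) (l : List (List ι × Bool)) :
    sz (p :: l) = p.1.length + 1 + sz l := by simp [sz]

@[simp] lemma sz_append (l l' : List (List ι × Bool)) : sz (l ++ l') = sz l + sz l' := by
  simp [sz]

lemma length_le_sz (l : List (List ι × Bool)) : l.length ≤ sz l := by
  induction l with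
  | nil => simp
  | cons p l ih => simp only [List.length_cons, sz_cons]; omega

lemma mem_le_sz {l : List (List ι × Bool)} {p : List ι × Bool} (h : p ∈ l) :
    p.1.length ≤ sz l := by
  induction l with
  | nil => simp at h
  | cons r l ih =>
    rcases List.mem_cons.1 h with rfl | h
    · simp only [sz_cons]; omega
    · have := ih h
      simp only [sz_cons]; omega

lemma finite_odd [Finite ι] (d : ℕ) :
    Finite {z : List (List ι × Bool) × List ι // sz z.1 + z.2.length + 1 ≤ d} := by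
  have h1 : {xs : List ι | xs.length ≤ d}.Finite := List.finite_length_le ι d
  have h2 : {p : List ι × Bool | p.1.length ≤ d}.Finite :=
    (h1.prod (Set.toFinite (Set.univ : Set Bool))).subset fun p hp => ⟨hp, trivial⟩
  have : Finite {p : List ι × Bool // p.1.length ≤ d} := h2
  have h3 : {l : List (List ι × Bool) | sz l ≤ d}.Finite := by
    refine ((List.finite_length_le {p : List ι × Bool // p.1.length ≤ d} d).image
      (List.map Subtype.val)).subset fun l hl => ?_
    have hl' : sz l ≤ d := hl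
    have hm : ∀ p ∈ l, p.1.length ≤ d := fun p hp => (mem_le_sz hp).trans hl'
    refine ⟨l.attachWith _ hm, ?_, List.attachWith_map_subtype_val hm⟩
    simpa using (length_le_sz l).trans hl'
  exact (h3.prod h1).subset fun z hz => by
    have hz' : sz z.1 + z.2.length + 1 ≤ d := hz
    exact ⟨show sz z.1 ≤ d by omega, show z.2.length ≤ d by omega⟩

variable {τ : M →L[ℂ] ℂ} {x : ι → M}

@[simp] lemma wd_nil (g : Bool → M) : wd τ x g [] = 1 := rfl

lemma wd_cons (g : Bool → M) (p : List ι × Bool) (l : List (List ι × Bool)) :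
    wd τ x g (p :: l) = blk τ x p.1 * g p.2 * wd τ x g l := rfl

lemma wd_append (g : Bool → M) (l l' : List (List ι × Bool)) :
    wd τ x g (l ++ l') = wd τ x g l * wd τ x g l' := by
  induction l with
  | nil => simp
  | cons p l ih => simp only [List.cons_append, wd_cons, ih, mul_assoc]

lemma wd_concat (g : Bool → M) (l : List (List ι × Bool)) (xs : List ι) (b : Bool) :
    wd τ x g (l ++ [(xs, b)]) = wd τ x g l * blk τ x xs * g b := by
  rw [wd_append, wd_cons, wd_nil, mul_one, mul_assoc]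

lemma norm_one_le : ‖(1 : M)‖ ≤ 1 := by
  rcases subsingleton_or_nontrivial M with h | h
  · rw [Subsingleton.elim (1 : M) 0]; simp
  · simp

lemma norm_prod_le (hx : ∀ i, ‖x i‖ ≤ 1) (xs : List ι) : ‖(xs.map x).prod‖ ≤ 1 := by
  induction xs with
  | nil => simpa using norm_one_le
  | cons i xs ih =>
    rw [List.map_cons, List.prod_cons]
    exact (norm_mul_le _ _).trans (mul_le_one₀ (hx i) (norm_nonneg _) ih)

lemma norm_blk_le (hn : ∀ a, ‖τ a‖ ≤ ‖a‖) (hx : ∀ i, ‖x i‖ ≤ 1) (xs : List ι) :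
    ‖blk τ x xs‖ ≤ 2 := by
  have h1 := norm_prod_le hx xs
  have h2 : ‖τ (xs.map x).prod • (1 : M)‖ ≤ 1 := by
    rw [norm_smul]
    exact mul_le_one₀ ((hn _).trans h1) (norm_nonneg _) norm_one_le
  unfold blk
  linarith [norm_sub_le (xs.map x).prod (τ (xs.map x).prod • (1 : M))]

lemma norm_wd_le (hn : ∀ a, ‖τ a‖ ≤ ‖a‖) (hx : ∀ i, ‖x i‖ ≤ 1) {g : Bool → M}
    (hg : ∀ b, ‖g b‖ ≤ 1) (l : List (List ι × Bool)) : ‖wd τ x g l‖ ≤ 2 ^ l.length := by
  induction l with
  | nil => simpa using norm_one_le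
  | cons p l ih =>
    rw [wd_cons, List.length_cons, pow_succ']
    have h1 : ‖blk τ x p.1 * g p.2‖ ≤ 2 := by
      refine (norm_mul_le _ _).trans ?_
      have := norm_blk_le hn hx p.1
      nlinarith [hg p.2, norm_nonneg (g p.2), norm_nonneg (blk τ x p.1)]
    exact (norm_mul_le _ _).trans (mul_le_mul h1 ih (norm_nonneg _) (by norm_num))

lemma norm_wd_le' (hn : ∀ a, ‖τ a‖ ≤ ‖a‖) (hx : ∀ i, ‖x i‖ ≤ 1) {g : Bool → M}
    (hg : ∀ b, ‖g b‖ ≤ 1) {d : ℕ} {l : List (List ι × Bool)} (hl : sz l ≤ d) :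
    ‖wd τ x g l‖ ≤ 2 ^ d :=
  (norm_wd_le hn hx hg l).trans
    (pow_le_pow_right₀ (by norm_num) ((length_le_sz l).trans hl))

lemma tau_blk (h1 : τ 1 = 1) (xs : List ι) : τ (blk τ x xs) = 0 := by
  simp [blk, h1]

lemma blk_mul (xs ys : List ι) : blk τ x xs * blk τ x ys =
    blk τ x (xs ++ ys) - τ (xs.map x).prod • blk τ x ys - τ (ys.map x).prod • blk τ x xs
      + (τ ((xs ++ ys).map x).prod - τ (xs.map x).prod * τ (ys.map x).prod) • (1 : M) := by
  simp only [blk, List.map_append, List.prod_append, mul_sub, sub_mul, smul_mul_assoc,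
    mul_smul_comm, one_mul, mul_one, smul_sub, smul_smul, sub_smul]
  rw [mul_comm (τ (ys.map x).prod) (τ (xs.map x).prod)]
  abel

/-- All nonempty words of size at most `d` have trace at most `D`. -/
def Small (τ : M →L[ℂ] ℂ) (x : ι → M) (d : ℕ) (g : Bool → M) (D : ℝ) : Prop :=
  ∀ l : List (List ι × Bool), l ≠ [] → sz l ≤ d → ‖τ (wd τ x g l)‖ ≤ D

lemma merge_aux (h1 : τ 1 = 1) (htr : ∀ a b, τ (a * b) = τ (b * a)) (hn : ∀ a, ‖τ a‖ ≤ ‖a‖)
    (hx : ∀ i, ‖x i‖ ≤ 1) {g : Bool → M} (hg0 : ∀ b, τ (g b) = 0)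
    (hgm : ∀ b b', ∃ α β γ : ℂ, ‖α‖ ≤ 1 ∧ ‖β‖ ≤ 1 ∧ ‖γ‖ ≤ 1 ∧
      g b * g b' = α • g true + β • g false + γ • (1 : M))
    {d : ℕ} {D : ℝ} (hD : 0 ≤ D) (hS : Small τ x d g D) (n : ℕ) :
    ∀ (l : List (List ι × Bool)) (xs : List ι), l.length ≤ n → sz l + xs.length + 1 ≤ d →
      ‖τ (wd τ x g l * blk τ x xs)‖ ≤ 9 ^ n * D := by
  induction n with
  | zero =>
    intro l xs hl _
    rw [List.length_eq_zero_iff.1 (Nat.le_zero.1 hl), wd_nil, one_mul, tau_blk h1]
    simpa using hD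
  | succ n ih =>
    intro l xs hl hs
    have h9 : (1 : ℝ) ≤ 9 ^ n := one_le_pow₀ (by norm_num)
    have h9D : D ≤ 9 ^ n * D := by nlinarith
    rcases l with _ | ⟨p, l⟩
    · rw [wd_nil, one_mul, tau_blk h1, norm_zero]; positivity
    obtain ⟨ys, b⟩ := p
    simp only [sz_cons, List.length_cons] at hs hl
    have hlast : ‖τ (g b * wd τ x g l)‖ ≤ 2 * D + 9 ^ n * D := by
      rcases List.eq_nil_or_concat l with rfl | ⟨l', r, rfl⟩
      · rw [wd_nil, mul_one, hg0, norm_zero]; positivity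
      obtain ⟨zs, b'⟩ := r
      simp only [List.concat_eq_append, sz_append, sz_cons, sz_nil, List.length_append,
        List.length_cons, List.length_nil] at hs hl ⊢
      obtain ⟨α, β, γ, hα, hβ, hγ, he⟩ := hgm b' b
      have e : τ (g b * wd τ x g (l' ++ [(zs, b')])) =
          α * τ (wd τ x g (l' ++ [(zs, true)])) + β * τ (wd τ x g (l' ++ [(zs, false)]))
            + γ * τ (wd τ x g l' * blk τ x zs) := by
        rw [htr, wd_concat, wd_concat, wd_concat, mul_assoc _ (g b'), he]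
        simp only [mul_add, mul_smul_comm, mul_one, map_add, map_smul, smul_eq_mul]
      have s1 := hS (l' ++ [(zs, true)]) (by simp)
        (by simp only [sz_append, sz_cons, sz_nil]; omega)
      have s2 := hS (l' ++ [(zs, false)]) (by simp)
        (by simp only [sz_append, sz_cons, sz_nil]; omega)
      have s3 := ih l' zs (by omega) (by omega)
      rw [e]
      refine (norm_add₃_le).trans ?_
      rw [norm_mul, norm_mul, norm_mul]
      have t1 := mul_le_mul hα s1 (norm_nonneg _) zero_le_one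
      have t2 := mul_le_mul hβ s2 (norm_nonneg _) zero_le_one
      have t3 := mul_le_mul hγ s3 (norm_nonneg _) zero_le_one
      linarith
    have e : τ (wd τ x g ((ys, b) :: l) * blk τ x xs) =
        τ (wd τ x g ((xs ++ ys, b) :: l)) - τ (xs.map x).prod * τ (wd τ x g ((ys, b) :: l))
          - τ (ys.map x).prod * τ (wd τ x g ((xs, b) :: l))
          + (τ ((xs ++ ys).map x).prod - τ (xs.map x).prod * τ (ys.map x).prod) *
            τ (g b * wd τ x g l) := by
      rw [htr, wd_cons, ← mul_assoc, ← mul_assoc, blk_mul]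
      simp only [wd_cons, add_mul, sub_mul, smul_mul_assoc, one_mul, map_add, map_sub, map_smul,
        smul_eq_mul]
    have s1 := hS ((xs ++ ys, b) :: l) (by simp)
      (by simp only [sz_cons, List.length_append]; omega)
    have s2 := hS ((ys, b) :: l) (by simp) (by simp only [sz_cons]; omega)
    have s3 := hS ((xs, b) :: l) (by simp) (by simp only [sz_cons]; omega)
    have n1 : ‖τ (xs.map x).prod‖ ≤ 1 := (hn _).trans (norm_prod_le hx _)
    have n2 : ‖τ (ys.map x).prod‖ ≤ 1 := (hn _).trans (norm_prod_le hx _)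
    have n3 : ‖τ ((xs ++ ys).map x).prod‖ ≤ 1 := (hn _).trans (norm_prod_le hx _)
    have n4 : ‖τ ((xs ++ ys).map x).prod - τ (xs.map x).prod * τ (ys.map x).prod‖ ≤ 2 := by
      refine (norm_sub_le _ _).trans ?_
      rw [norm_mul]
      linarith [mul_le_one₀ n1 (norm_nonneg _) n2]
    rw [e]
    refine (norm_add_le _ _).trans ?_
    refine (add_le_add_left ((norm_sub_le _ _).trans (add_le_add_left (norm_sub_le _ _) _)) _).trans ?_
    rw [norm_mul, norm_mul, norm_mul]
    have t1 := mul_le_mul n1 s2 (norm_nonneg _) zero_le_one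
    have t2 := mul_le_mul n2 s3 (norm_nonneg _) zero_le_one
    have t3 := mul_le_mul n4 hlast (norm_nonneg _) zero_le_two
    rw [pow_succ]
    linarith

/-- MERGE: odd words have small trace. -/
lemma merge (h1 : τ 1 = 1) (htr : ∀ a b, τ (a * b) = τ (b * a)) (hn : ∀ a, ‖τ a‖ ≤ ‖a‖)
    (hx : ∀ i, ‖x i‖ ≤ 1) {g : Bool → M} (hg0 : ∀ b, τ (g b) = 0)
    (hgm : ∀ b b', ∃ α β γ : ℂ, ‖α‖ ≤ 1 ∧ ‖β‖ ≤ 1 ∧ ‖γ‖ ≤ 1 ∧
      g b * g b' = α • g true + β • g false + γ • (1 : M))
    {d : ℕ} {D : ℝ} (hD : 0 ≤ D) (hS : Small τ x d g D)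
    (l : List (List ι × Bool)) (xs : List ι) (h : sz l + xs.length + 1 ≤ d) :
    ‖τ (wd τ x g l * blk τ x xs)‖ ≤ 9 ^ d * D :=
  merge_aux h1 htr hn hx hg0 hgm hD hS d l xs (by have := length_le_sz l; omega) h

/-- Telescoping between two systems of letters. -/
lemma tele (g g' : Bool → M) (R : M) (B : ℝ) : ∀ (l : List (List ι × Bool)) (A : M),
    (∀ l₁ p l₂, l = l₁ ++ p :: l₂ →
      ‖τ (A * wd τ x g l₁ * blk τ x p.1 * (g' p.2 - g p.2) * wd τ x g' l₂ * R)‖ ≤ B) →
    ‖τ (A * wd τ x g' l * R) - τ (A * wd τ x g l * R)‖ ≤ l.length * B := by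
  intro l
  induction l with
  | nil => intro A _; simp
  | cons p l ih =>
    intro A h
    have h0 := h [] p l rfl
    have h1 := ih (A * blk τ x p.1 * g p.2) fun l₁ r l₂ e => by
      have := h (p :: l₁) r l₂ (by rw [e]; rfl)
      simpa only [wd_cons, mul_assoc] using this
    have e : τ (A * wd τ x g' (p :: l) * R) - τ (A * wd τ x g (p :: l) * R) =
        τ (A * wd τ x g [] * blk τ x p.1 * (g' p.2 - g p.2) * wd τ x g' l * R) +
        (τ (A * blk τ x p.1 * g p.2 * wd τ x g' l * R) -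
          τ (A * blk τ x p.1 * g p.2 * wd τ x g l * R)) := by
      simp only [wd_cons, wd_nil, mul_one, mul_sub, sub_mul, map_sub, mul_assoc]
      ring
    rw [e, List.length_cons]
    push_cast
    linarith [norm_add_le (τ (A * wd τ x g [] * blk τ x p.1 * (g' p.2 - g p.2) * wd τ x g' l * R))
      (τ (A * blk τ x p.1 * g p.2 * wd τ x g' l * R) -
          τ (A * blk τ x p.1 * g p.2 * wd τ x g l * R))]

end Lib.MP_08bba9_an.K4
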