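import Pool.Agent.Lib.MP_08bba9_an.K.QuantA

/-! Local quantisation (step K3). -/

open Finset
open scoped ComplexOrder

namespace Pool.Agent.Lib.MP_08bba9_an.K

namespace Quant

variable {M : Type*} [CStarAlgebra M] {τ : M →L[ℂ] ℂ}

theorem hp_of (hre : ∀ x, 0 ≤ (τ (star x * x)).re) (hst : ∀ x, τ (star x) = star (τ x)) (x : M) :
    0 ≤ τ (star x * x) := by
  refine Complex.nonneg_iff.2 ⟨hre x, ?_⟩
  have h := hst (star x * x)
  rw [star_mul, star_star] at h
  exact (Complex.conj_eq_iff_im.1 h.symm).symm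

/-- orthogonal copies of the projection `r` -/
def Sys {K : ℕ} (v : Fin K → M) (r : M) : Prop :=
  ∀ l m, star (v l) * v m = if l = m then r else 0

section sys
variable {K : ℕ} {v : Fin K → M} {r : M}

theorem Sys.self (hv : Sys v r) (l : Fin K) : star (v l) * v l = r := by simpa using hv l l

theorem Sys.mul_r (hv : Sys v r) (hr : IsStarProjection r) (l : Fin K) : v l * r = v l := by
  have h : star (v l * r - v l) * (v l * r - v l) = 0 := by
    have e := hv.self l
    have e2 := hr.isIdempotentElem.eq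
    rw [star_sub, star_mul, hr.isSelfAdjoint.star_eq, sub_mul, mul_sub, mul_sub, mul_assoc r,
      mul_assoc r, ← mul_assoc (star (v l)), e, e2, e2]
    simp
  exact sub_eq_zero.1 ((CStarRing.star_mul_self_eq_zero_iff _).1 h)

theorem Sys.r_mul (hv : Sys v r) (hr : IsStarProjection r) (l : Fin K) :
    r * star (v l) = star (v l) := by
  have := congrArg star (hv.mul_r hr l)
  rwa [star_mul, hr.isSelfAdjoint.star_eq] at this

theorem Sys.norm_le (hv : Sys v r) (hr : IsStarProjection r) (l : Fin K) : ‖v l‖ ≤ 1 := by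
  have h := hr.norm_le
  rw [← hv.self l, CStarRing.norm_star_mul_self] at h
  nlinarith [norm_nonneg (v l)]

theorem Sys.q2_eq (hv : Sys v r) (l : Fin K) : q2 τ (v l) = (τ r).re := by
  unfold q2; rw [hv.self]

theorem Sys.range_mul (hv : Sys v r) (hr : IsStarProjection r) (m : Fin K) :
    (∑ l, v l * star (v l)) * v m = v m := by
  rw [sum_mul]
  simp only [mul_assoc, hv _ m, mul_ite, mul_zero]
  rw [Finset.sum_ite_eq' univ m]
  simp [hv.mul_r hr]

theorem Sys.proj (hv : Sys v r) (hr : IsStarProjection r) :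
    IsStarProjection (∑ l, v l * star (v l)) := by
  refine ⟨?_, ?_⟩
  · show _ * _ = _
    conv_lhs => rw [mul_sum]
    exact sum_congr rfl fun m _ => by rw [← mul_assoc, hv.range_mul hr]
  · show star _ = _
    simp [star_sum]

theorem Sys.sum_q2_le (hp : ∀ x, 0 ≤ τ (star x * x)) (hv : Sys v r) (hr : IsStarProjection r)
    (y : M) : ∑ l, q2 τ (star (v l) * y) ≤ q2 τ y := by
  have hP := hv.proj hr
  have e : ∑ l, q2 τ (star (v l) * y) = q2 τ ((∑ l, v l * star (v l)) * y) := by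
    unfold q2
    rw [star_mul (∑ l, v l * star (v l)), hP.isSelfAdjoint.star_eq, mul_assoc,
      ← mul_assoc (∑ l, v l * star (v l)), hP.isIdempotentElem.eq, sum_mul, mul_sum, map_sum,
      Complex.re_sum]
    exact sum_congr rfl fun l _ => by rw [star_mul, star_star]; simp only [mul_assoc]
  rw [e]
  exact q2_left_le hp hP.norm_le y

theorem Sys.unit (hv : Sys v r) {U : Fin K → M} (hU : ∀ l, U l ∈ unitary M)
    (hc : ∀ l, U l * r = r * U l) : Sys (fun l => v l * U l) r := by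
  intro l m
  rw [star_mul, mul_assoc, ← mul_assoc (star (v l)), hv l m]
  split_ifs with h
  · subst h; rw [← hc, ← mul_assoc, (hU l).1, one_mul]
  · simp

theorem Sys.sign (hv : Sys v r) {s : Fin K → ℝ} (hs : ∀ l, s l * s l = 1) :
    Sys (fun l => s l • v l) r := by
  intro l m
  rw [star_smul, star_trivial, smul_mul_smul_comm, hv l m]
  split_ifs with h
  · subst h; rw [hs, one_smul]
  · simp

theorem Sys.star_sum_mul (hv : Sys v r) : star (∑ l, v l) * ∑ l, v l = (K : ℂ) • r := by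
  rw [star_sum, sum_mul_sum]
  simp only [hv _ _]
  simp [Nat.cast_smul_eq_nsmul]

/-- the trace of the compressed diagonal -/
theorem Sys.diag (htr : ∀ x y, τ (x * y) = τ (y * x)) (hp : ∀ x, 0 ≤ τ (star x * x))
    (hv : Sys v r) (hr : IsStarProjection r) {f : M} (hf : IsStarProjection f)
    (hfv : ∀ l, f * v l = v l) {Y : M} (hY : ‖Y‖ ≤ 1) :
    ‖∑ l, τ (star (v l) * Y * v l)‖ ≤ ‖τ (f * Y)‖ + ((τ f).re - K * (τ r).re) := by
  set P := ∑ l, v l * star (v l) with hPd
  have hP : IsStarProjection P := hv.proj hr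
  have hfP : f * P = P := by
    rw [hPd, mul_sum]; exact sum_congr rfl fun l _ => by rw [← mul_assoc, hfv]
  have hg : IsStarProjection (f - P) := hP.sub_of_mul_eq_right hf hfP
  have e1 : ∑ l, τ (star (v l) * Y * v l) = τ (f * Y) - τ ((f - P) * Y) := by
    rw [← map_sub, ← sub_mul, sub_sub_cancel, hPd, sum_mul, map_sum]
    exact sum_congr rfl fun l _ => by rw [htr, ← mul_assoc]
  have e2 : (τ (f - P)).re = (τ f).re - K * (τ r).re := by
    rw [map_sub, Complex.sub_re, hPd, map_sum, Complex.re_sum]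
    simp only [htr (v _), hv.self]
    simp
  rw [e1, ← e2]
  exact (norm_sub_le _ _).trans (add_le_add le_rfl (norm_proj_mul htr hp hg hY))

end sys

/-- from a normalised isometry to the projection and the symmetry -/
theorem asm (htr : ∀ x y, τ (x * y) = τ (y * x)) (hp : ∀ x, 0 ≤ τ (star x * x))
    {V r1 r2 f : M} (h1 : IsStarProjection r1) (h2 : IsStarProjection r2) (h12 : r1 * r2 = 0)
    (ht : τ r1 = τ r2) (hV : star V * V = r1 + r2) (hfV : f * V = V) :
    ∃ q w : M, IsStarProjection q ∧ f * q = q ∧ star w = w ∧ w * w = q ∧ q * w = w ∧ w * q = w ∧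
      τ w = 0 ∧ τ q = τ (r1 + r2) ∧ ∀ Y, q2 τ (q * Y * q) ≤ q2 τ (star V * Y * V) := by
  have hr : IsStarProjection (r1 + r2) := h1.add h2 h12
  have h21 : r2 * r1 = 0 := by
    have := congrArg star h12
    rwa [star_mul, h1.isSelfAdjoint.star_eq, h2.isSelfAdjoint.star_eq, star_zero] at this
  have hS : Sys (fun _ : Fin 1 => V) (r1 + r2) := fun l m => by
    rw [Subsingleton.elim l m]; simpa using hV
  have hVr : V * (r1 + r2) = V := hS.mul_r hr 0
  have hN : ‖V‖ ≤ 1 := hS.norm_le hr 0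
  have i1 := h1.isIdempotentElem.eq
  have i2 := h2.isIdempotentElem.eq
  have a1 : (r1 + r2) * (r1 - r2) = r1 - r2 := by
    rw [add_mul, mul_sub, mul_sub, i1, i2, h12, h21]; abel
  have a2 : (r1 - r2) * (r1 + r2) = r1 - r2 := by
    rw [sub_mul, mul_add, mul_add, i1, i2, h12, h21]; abel
  have a3 : (r1 - r2) * (r1 - r2) = r1 + r2 := by
    rw [sub_mul, mul_sub, mul_sub, i1, i2, h12, h21]; abel
  have hVV : ∀ x : M, star V * (V * x) = (r1 + r2) * x := fun x => by rw [← mul_assoc, hV]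
  refine ⟨V * star V, V * (r1 - r2) * star V, ⟨?_, ?_⟩, ?_, ?_, ?_, ?_, ?_, ?_, ?_, ?_⟩
  · show _ * _ = _
    rw [mul_assoc, hVV, ← mul_assoc, hVr]
  · show star _ = _
    simp
  · rw [← mul_assoc, hfV]
  · rw [star_mul, star_mul, star_star, star_sub, h1.isSelfAdjoint.star_eq,
      h2.isSelfAdjoint.star_eq, mul_assoc]
  · simp only [mul_assoc, hVV]
    rw [← mul_assoc (r1 + r2), a1, ← mul_assoc (r1 - r2), a3, ← mul_assoc, hVr]
  · simp only [mul_assoc, hVV]
    rw [← mul_assoc (r1 + r2), a1]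
  · simp only [mul_assoc, hVV]
    rw [← mul_assoc (r1 - r2), a2]
  · rw [htr, ← mul_assoc, hV, a1, map_sub, ht, sub_self]
  · rw [htr, hV]
  · intro Y
    have e : V * star V * Y * (V * star V) = V * (star V * Y * V * star V) := by
      simp only [mul_assoc]
    rw [e]
    exact (q2_left_le hp hN _).trans (q2_right_le htr hp (by rwa [norm_star]) _)

/-- Dixmier averaging in the 2-seminorm in the corner of `r` (step K1). -/
def DixAt (τ : M →L[ℂ] ℂ) (r : M) : Prop :=
  ∀ (J : Type) [Fintype J] (X : J → M), (∀ j, r * X j * r = X j) → ∀ γ : ℝ, 0 < γ →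
    ∃ (R : ℕ) (u : Fin (R + 1) → M), (∀ i, u i ∈ unitary M) ∧ (∀ i, u i * r = r * u i) ∧
      ∀ j, q2 τ (((R + 1 : ℕ) : ℂ)⁻¹ • ∑ i, star (u i) * X j * u i - (τ (X j) / τ r) • r) ≤ γ ^ 2

theorem n2_le (_hp : ∀ x, 0 ≤ τ (star x * x)) {x : M} {c : ℝ} (hc : 0 ≤ c) (h : q2 τ x ≤ c ^ 2) :
    n2 τ x ≤ c := Real.sqrt_le_iff.2 ⟨hc, h⟩

theorem quant (htr : ∀ x y, τ (x * y) = τ (y * x)) (hp : ∀ x, 0 ≤ τ (star x * x))
    {K : ℕ} (hK : 0 < K) {v : Fin K → M} {r1 r2 f : M}
    (h1 : IsStarProjection r1) (h2 : IsStarProjection r2) (h12 : r1 * r2 = 0) (ht : τ r1 = τ r2)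
    (hv : Sys v (r1 + r2)) (hf : IsStarProjection f) (hfv : ∀ l, f * v l = v l)
    (hr0 : 0 < (τ (r1 + r2)).re) (hD : DixAt τ (r1 + r2))
    {ι : Type} [Fintype ι] (Y : ι → M) (hY : ∀ j, ‖Y j‖ ≤ 1) :
    ∃ q w : M, IsStarProjection q ∧ f * q = q ∧ star w = w ∧ w * w = q ∧ q * w = w ∧ w * q = w ∧
      τ w = 0 ∧ τ q = τ (r1 + r2) ∧ ∀ j, n2 τ (q * Y j * q) ≤ √(τ (r1 + r2)).re *
        ((‖τ (f * Y j)‖ + ((τ f).re - K * (τ (r1 + r2)).re)) / (K * (τ (r1 + r2)).re)
          + 5 * √(Fintype.card ι / K)) := by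
  classical
  set r := r1 + r2 with hrd
  have hr : IsStarProjection r := h1.add h2 h12
  set t := (τ r).re with htd
  have hK' : (0 : ℝ) < K := Nat.cast_pos.2 hK
  have hτr : τ r = (t : ℂ) := by
    have h := hp r
    rw [hr.isSelfAdjoint.star_eq, hr.isIdempotentElem.eq] at h
    exact Complex.ext rfl (by simpa using (Complex.nonneg_iff.1 h).2.symm)
  set X : ι × Fin K → M := fun p => star (v p.2) * Y p.1 * v p.2 with hX
  have hXr : ∀ p, r * X p * r = X p := fun p => by
    simp only [hX]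
    rw [← mul_assoc, ← mul_assoc, hv.r_mul hr, mul_assoc _ _ r, hv.mul_r hr]
  have hXq : ∀ p, q2 τ (X p) ≤ t := fun p => by
    rw [htd, ← hv.q2_eq p.2]
    refine q2_left_le hp ?_ _
    exact (norm_mul_le _ _).trans
      (mul_le_one₀ (by rw [norm_star]; exact hv.norm_le hr _) (norm_nonneg _) (hY _))
  have hγ : 0 < √(t / K) := Real.sqrt_pos.2 (div_pos hr0 hK')
  obtain ⟨R, u, hu, huc, hκ⟩ := hD (ι × Fin K) X hXr _ hγ
  have hun : ∀ i, ‖u i‖ ≤ 1 := fun i => by
    have h := CStarRing.norm_star_mul_self (x := u i)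
    rw [(hu i).1] at h
    have h' : ‖(1 : M)‖ ≤ 1 := (IsStarProjection.one M).norm_le
    nlinarith [norm_nonneg (u i)]
  set κ : ι × Fin K → M := fun p => ((R + 1 : ℕ) : ℂ)⁻¹ • ∑ i, star (u i) * X p * u i with hκd
  have hconj : ∀ p i, n2 τ (star (u i) * X p * u i) ≤ √t := fun p i =>
    Real.sqrt_le_sqrt ((q2_right_le htr hp (hun i) _).trans
      ((q2_left_le hp (by rw [norm_star]; exact hun i) _).trans (hXq p)))
  have hR : (0 : ℝ) < (R + 1 : ℕ) := Nat.cast_pos.2 (Nat.succ_pos R)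
  have hκn : ∀ p, n2 τ (κ p) ≤ √t := fun p => by
    simp only [hκd]
    rw [n2_smul, norm_inv, Complex.norm_natCast, inv_mul_le_iff₀ hR]
    refine (n2_sum hp _ _).trans ((sum_le_sum fun i _ => hconj p i).trans ?_)
    simp
  set D : Fin K → Fin (R + 1) → ι → M :=
    fun l i j => star (u i) * X (j, l) * u i - κ (j, l) with hDd
  have hD0 : ∀ l, ∑ i, D l i = 0 := fun l => by
    funext j
    simp only [hDd, hκd, Finset.sum_apply, sum_sub_distrib, sum_const, card_univ, Fintype.card_fin,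
      Pi.zero_apply]
    rw [← Nat.cast_smul_eq_nsmul ℂ, smul_smul, mul_inv_cancel₀ (by exact_mod_cast hR.ne'),
      one_smul, sub_self]
  have hDq : ∀ l i, bil τ ι (D l i) (D l i) ≤ Fintype.card ι * (4 * t) := fun l i => by
    rw [bil_self]
    refine (sum_le_sum (g := fun _ => 4 * t) fun j _ => ?_).trans (by simp)
    have a := (n2_sub hp _ _).trans (add_le_add (hconj (j, l) i) (hκn (j, l)))
    have b := Real.sq_sqrt hr0.le
    rw [← n2_sq hp]
    have c := n2_nonneg (τ := τ) (star (u i) * X (j, l) * u i - κ (j, l))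
    simp only [hDd]
    nlinarith
  obtain ⟨ω, hω⟩ := greedy (bil τ ι) _ K D 0 hD0 hDq
  rw [zero_add, map_zero, zero_add, bil_self] at hω
  set p : Fin K → M := fun l => v l * u (ω l) with hpd
  have hpS : Sys p r := hv.unit (fun l => hu _) (fun l => huc _)
  set Z : Fin K → Fin K → ι → M :=
    fun l m j => if l = m then 0 else star (p l) * Y j * p m with hZd
  obtain ⟨s, hs, hsg⟩ := signs (bil τ ι)
    (fun x => by rw [bil_self]; exact sum_nonneg fun j _ => q2_nonneg hp _) K Z 0 0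
    (fun l => by funext j; simp [hZd])
  simp only [Pi.zero_apply, smul_zero, sum_const_zero, add_zero, zero_add, map_zero] at hsg
  have hZq : ∑ l, ∑ m, bil τ ι (Z l m) (Z l m) ≤ K * (Fintype.card ι * t) := by
    rw [sum_comm]
    refine (sum_le_sum (g := fun _ => Fintype.card ι * t) fun m _ => ?_).trans (by simp)
    simp only [bil_self]
    rw [sum_comm]
    refine (sum_le_sum (g := fun _ => t) fun j _ => ?_).trans (by simp)
    refine (sum_le_sum (g := fun l => q2 τ (star (p l) * (Y j * p m))) fun l _ => ?_).trans ?_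
    · simp only [hZd]
      split_ifs
      · have z : q2 τ (0 : M) = 0 := by simp [q2]
        rw [z]; exact q2_nonneg hp _
      · rw [mul_assoc]
    · refine (hpS.sum_q2_le hp hr _).trans ((q2_left_le hp (hY j) _).trans ?_)
      rw [hpS.q2_eq]
  rw [bil_self] at hsg
  have hT : Sys (fun l => s l • p l) r := hpS.sign hs
  set V0 : M := ∑ l, s l • p l with hV0
  set c : ℂ := (((√(K : ℝ))⁻¹ : ℝ) : ℂ) with hc
  have hcc : c * c = (K : ℂ)⁻¹ := by
    rw [hc, ← Complex.ofReal_mul, ← mul_inv, Real.mul_self_sqrt hK'.le]; simp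
  have hcs : star c = c := by rw [hc]; exact Complex.conj_ofReal _
  have hV : star (c • V0) * (c • V0) = r1 + r2 := by
    rw [star_smul, smul_mul_smul_comm, hcs, hcc, hV0, hT.star_sum_mul, smul_smul,
      inv_mul_cancel₀ (by exact_mod_cast hK.ne'), one_smul]
  have hfV : f * (c • V0) = c • V0 := by
    rw [mul_smul_comm, hV0, mul_sum]
    congr 1
    exact sum_congr rfl fun l _ => by rw [mul_smul_comm, hpd, ← mul_assoc, hfv]
  obtain ⟨q, w, a1, a2, a3, a4, a5, a6, a7, a8, a9⟩ := asm htr hp h1 h2 h12 ht hV hfV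
  refine ⟨q, w, a1, a2, a3, a4, a5, a6, a7, a8, fun j => (n2_mono (a9 _)).trans ?_⟩
  have e1 : star (c • V0) * Y j * (c • V0) = (K : ℂ)⁻¹ • (star V0 * Y j * V0) := by
    rw [star_smul, smul_mul_assoc, smul_mul_smul_comm, hcs, hcc]
  have e2 : star V0 * Y j * V0 = (∑ l, D l (ω l)) j
      + ∑ l, (κ (j, l) - (τ (X (j, l)) / τ r) • r) + ((∑ l, τ (X (j, l))) / τ r) • r
      + (∑ l, ∑ m, (s l * s m) • Z l m) j := by
    rw [hV0, star_sum, sum_mul, sum_mul_sum, sum_div, sum_smul]
    simp only [Finset.sum_apply, ← sum_add_distrib]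
    refine sum_congr rfl fun l _ => ?_
    rw [← add_sum_erase _ _ (mem_univ l), ← add_sum_erase _ (fun m => ((s l * s m) • Z l m) j)
      (mem_univ l)]
    have b1 : ∑ m ∈ univ.erase l, star (s l • p l) * Y j * s m • p m
        = ∑ m ∈ univ.erase l, ((s l * s m) • Z l m) j := by
      refine sum_congr rfl fun m hm => ?_
      simp only [hZd, Pi.smul_apply, if_neg (ne_of_mem_erase hm).symm]
      rw [star_smul, star_trivial, smul_mul_assoc, smul_mul_smul_comm]
    have b2 : star (s l • p l) * Y j * s l • p l = star (u (ω l)) * X (j, l) * u (ω l) := by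
      rw [star_smul, star_trivial, smul_mul_assoc, smul_mul_smul_comm, hs, one_smul]
      simp only [hpd, hX, star_mul, mul_assoc]
    rw [b1, b2]
    simp only [hDd, hZd, Pi.smul_apply, if_true, smul_zero]
    abel
  have hcard : (1 : ℝ) ≤ Fintype.card ι := by
    exact_mod_cast Fintype.card_pos_iff.2 ⟨j⟩
  set n : ℝ := (Fintype.card ι : ℝ) with hn
  set ρ : ℝ := √t * √(n / K) with hρ
  have hρ0 : 0 ≤ ρ := by positivity
  have hρ2 : (K * ρ) ^ 2 = K * (n * t) := by
    rw [hρ, mul_pow, mul_pow, Real.sq_sqrt hr0.le, Real.sq_sqrt (by positivity)]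
    field_simp
  have hnt : 0 ≤ K * (n * t) := by positivity
  have c1 : n2 τ ((∑ l, D l (ω l)) j) ≤ 2 * (K * ρ) := by
    refine n2_le hp (by positivity) ?_
    have := single_le_sum (f := fun j => q2 τ ((∑ l, D l (ω l)) j))
      (fun j _ => q2_nonneg hp _) (mem_univ j)
    rw [mul_pow, hρ2]
    nlinarith
  have c4 : n2 τ ((∑ l, ∑ m, (s l * s m) • Z l m) j) ≤ 2 * (K * ρ) := by
    refine n2_le hp (by positivity) ?_
    have := single_le_sum (f := fun j => q2 τ ((∑ l, ∑ m, (s l * s m) • Z l m) j))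
      (fun j _ => q2_nonneg hp _) (mem_univ j)
    rw [mul_pow, hρ2]
    nlinarith
  have c2 : n2 τ (∑ l, (κ (j, l) - (τ (X (j, l)) / τ r) • r)) ≤ K * ρ := by
    refine (n2_sum hp _ _).trans
      ((sum_le_sum (g := fun _ => ρ) fun l _ => ?_).trans (by simp))
    refine (n2_le hp hγ.le (hκ (j, l))).trans ?_
    rw [hρ, ← Real.sqrt_mul hr0.le]
    refine Real.sqrt_le_sqrt ?_
    rw [← mul_div_assoc]
    exact div_le_div_of_nonneg_right (le_mul_of_one_le_right hr0.le hcard) hK'.le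
  have c3 : n2 τ (((∑ l, τ (X (j, l))) / τ r) • r)
      ≤ (‖τ (f * Y j)‖ + ((τ f).re - K * t)) / t * √t := by
    rw [n2_smul, norm_div, hτr, Complex.norm_real, Real.norm_of_nonneg hr0.le]
    have : n2 τ r = √t := by unfold n2; rw [q2_proj hr]
    rw [this]
    refine mul_le_mul_of_nonneg_right (div_le_div_of_nonneg_right ?_ hr0.le) (Real.sqrt_nonneg _)
    exact hv.diag htr hp hr hf hfv (hY j)
  rw [e1, n2_smul, norm_inv, Complex.norm_natCast, inv_mul_le_iff₀ hK', e2]
  refine ((n2_add hp _ _).trans (add_le_add ((n2_add hp _ _).trans (add_le_add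
    ((n2_add hp _ _).trans (add_le_add c1 c2)) c3)) c4)).trans (le_of_eq ?_)
  rw [hρ]
  field_simp
  ring

end Quant

end Pool.Agent.Lib.MP_08bba9_an.K
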