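import Pool.Agent.Lib.MP_08bba9_an.K.Glue3a
import Pool.Agent.Lib.MP_08bba9_an.K.Disp
import Pool.Agent.Lib.MP_08bba9_an.K.Dix
import Pool.Agent.Lib.MP_08bba9_an.K.Quant
import Pool.Agent.Lib.MP_08bba9_an.K.Sp
import Pool.Agent.Lib.MP_08bba9_an.K.FreeWd

/-! Local quantisation in the diffuse case. -/

open Finset
open scoped ComplexOrder

namespace Pool.Agent.Lib.MP_08bba9_an.K

variable {M : Type*} [CStarAlgebra M] {U : Set M} {τ : M →L[ℂ] ℂ}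

theorem Hyp.posC (h : Hyp U τ) (x : M) : 0 ≤ τ (star x * x) := by
  refine Complex.nonneg_iff.2 ⟨h.pos x, ?_⟩
  have e := h.st (star x * x)
  rw [star_mul, star_star] at e
  have := congrArg Complex.im e
  rw [Complex.star_def, Complex.conj_im] at this
  linarith

theorem Hyp.toCmp (h : Hyp U τ) : Cmp τ := fun p q hp hq => by
  obtain ⟨z, hz, c⟩ := h.cmp p q hp hq
  exact ⟨z, h.proj z hz, h.cen z hz, h.tU z hz, c⟩

theorem Hyp.dixAt (h : Hyp U τ) (rk : RK M) {r : M} (hr : IsStarProjection r) :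
    Quant.DixAt τ r := by
  intro J _ X hX γ hγ
  obtain ⟨R, u, h0, hu, hb⟩ := dixmier_fin h.tr h.pos h.st h.t_one rk h.toCmp hr X hX
    (pow_pos hγ 2)
  obtain ⟨R, rfl⟩ := Nat.exists_eq_succ_of_ne_zero h0.ne'
  exact ⟨R, u, fun i => (hu i).1, fun i => (hu i).2, hb⟩

theorem Hyp.quantOut (h : Hyp U τ) (rk : RK M) (I : Type) [Fintype I] : QuantOut τ I := by
  intro f K v r1 r2 Y hf hK p1 p2 h12 hτ ho hfv h0 hY
  obtain ⟨q, w, a1, a2, a3, a4, -, -, a5, a6, a7⟩ := Quant.quant h.tr h.posC hK p1 p2 h12 hτ ho hf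
    hfv h0 (h.dixAt rk (p1.add p2 h12)) Y hY
  refine ⟨q, w, a1, a2, a3, a4, a5, a6, fun j => (a7 j).trans_eq ?_⟩
  rw [a6]
  ring

theorem glue3 (h : Hyp U τ) (rk : RK M)
    (hD : ∀ ε : ℝ, 0 < ε → ∃ s, IsStarProjection s ∧ 0 < (τ s).re ∧ (τ s).re ≤ ε) :
    _root_.Lib.MP_08bba9_an.K4.K3In τ := fun n _ _ hγ hη =>
  glue3_of h.tr h.posC h.t_one h.toCmp hD (Fin n) (h.quantOut rk _) hγ hη

end Pool.Agent.Lib.MP_08bba9_an.K
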