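import Mathlib
import Pool.Agent.Lib.MP_08bba9_an.K.Abs5
import Pool.Agent.Lib.MP_08bba9_an.K.Disp

/-! K5: approximately free symmetries give the Powers bound on moments (ultralimit glue). -/

set_option linter.unusedSectionVars false

namespace Pool.Agent.Lib.MP_08bba9_an.K.Pow

open Filter Topology

variable {M : Type*} [CStarAlgebra M]

/-- output of K4: a symmetry almost free from a finite set of contractions. -/
def K4 (τ : M →L[ℂ] ℂ) : Prop :=
  ∀ (F : Finset M) (d0 : ℕ) (η : ℝ), 0 < η → (∀ x ∈ F, ‖x‖ ≤ 1) →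
    ∃ u : M, star u = u ∧ u * u = 1 ∧ ∀ L : List (List M), L ≠ [] →
      (∀ l ∈ L, l ≠ [] ∧ ∀ x ∈ l, x ∈ F) → (L.map List.length).sum ≤ d0 →
      ‖τ ((L.map (fun l => (l.prod - algebraMap ℂ M (τ l.prod)) * u)).prod)‖ ≤ η

/-- bounded sequences. -/
def Bd (M : Type*) [CStarAlgebra M] : StarSubalgebra ℂ (ℕ → M) where
  carrier := {x | ∃ C : ℝ, ∀ m, ‖x m‖ ≤ C}
  mul_mem' := by
    rintro x y ⟨C, hC⟩ ⟨D, hD⟩
    refine ⟨C * D, fun m => (norm_mul_le _ _).trans ?_⟩
    exact mul_le_mul (hC m) (hD m) (norm_nonneg _) ((norm_nonneg _).trans (hC m))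
  add_mem' := by
    rintro x y ⟨C, hC⟩ ⟨D, hD⟩
    exact ⟨C + D, fun m => (norm_add_le _ _).trans (add_le_add (hC m) (hD m))⟩
  algebraMap_mem' := fun r => ⟨‖algebraMap ℂ M r‖, fun _ => le_rfl⟩
  star_mem' := by
    rintro x ⟨C, hC⟩
    exact ⟨C, fun m => by simpa using hC m⟩

/-- evaluation. -/
noncomputable def ev (M : Type*) [CStarAlgebra M] (m : ℕ) : Bd M →⋆ₐ[ℂ] M :=
  (Pi.evalStarAlgHom ℂ (fun _ : ℕ => M) m).comp (Bd M).subtype

theorem ev_bd (x : Bd M) : ∃ C : ℝ, ∀ m, ‖ev M m x‖ ≤ C := x.2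

theorem ev_ext {x y : Bd M} (h : ∀ m, ev M m x = ev M m y) : x = y :=
  Subtype.ext (funext h)

/-- a bounded sequence as an element. -/
def mk (f : ℕ → M) (C : ℝ) (h : ∀ m, ‖f m‖ ≤ C) : Bd M := ⟨f, C, h⟩

@[simp] theorem ev_mk (f : ℕ → M) (C : ℝ) (h : ∀ m, ‖f m‖ ≤ C) (m : ℕ) :
    ev M m (mk f C h) = f m := rfl

/-- constant sequence. -/
def cst (x : M) : Bd M := mk (fun _ => x) ‖x‖ (fun _ => le_rfl)

@[simp] theorem ev_cst (x : M) (m : ℕ) : ev M m (cst x) = x := rfl

theorem exists_lim (τ : M →L[ℂ] ℂ) (x : Bd M) :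
    ∃ c : ℂ, Tendsto (fun m => τ (ev M m x)) (hyperfilter ℕ : Filter ℕ) (𝓝 c) := by
  obtain ⟨C, hC⟩ := ev_bd x
  have hK : IsCompact (Metric.closedBall (0 : ℂ) (‖τ‖ * C)) := isCompact_closedBall _ _
  obtain ⟨c, _, hc⟩ := hK.ultrafilter_le_nhds
    ((hyperfilter ℕ).map (fun m => τ (ev M m x))) (by
      rw [Ultrafilter.coe_map, le_principal_iff, mem_map]
      refine Eventually.of_forall (fun m => ?_)
      simp only [mem_closedBall_zero_iff]
      exact (τ.le_opNorm _).trans (mul_le_mul_of_nonneg_left (hC m) (norm_nonneg _)))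
  exact ⟨c, hc⟩

/-- the ultralimit trace. -/
noncomputable def tl (τ : M →L[ℂ] ℂ) : Bd M →ₗ[ℂ] ℂ where
  toFun x := (exists_lim τ x).choose
  map_add' x y := by
    refine tendsto_nhds_unique (exists_lim τ (x + y)).choose_spec ?_
    simpa only [map_add] using (exists_lim τ x).choose_spec.add (exists_lim τ y).choose_spec
  map_smul' c x := by
    refine tendsto_nhds_unique (exists_lim τ (c • x)).choose_spec ?_
    simpa only [map_smul, RingHom.id_apply] using (exists_lim τ x).choose_spec.const_smul c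

theorem tl_spec (τ : M →L[ℂ] ℂ) (x : Bd M) :
    Tendsto (fun m => τ (ev M m x)) (hyperfilter ℕ : Filter ℕ) (𝓝 (tl τ x)) :=
  (exists_lim τ x).choose_spec

theorem tl_eq (τ : M →L[ℂ] ℂ) {x : Bd M} {c : ℂ}
    (h : Tendsto (fun m => τ (ev M m x)) (hyperfilter ℕ : Filter ℕ) (𝓝 c)) : tl τ x = c :=
  tendsto_nhds_unique (tl_spec τ x) h

/-- difference tends to zero. -/
def Near (x y : Bd M) : Prop :=
  Tendsto (fun m => ‖ev M m x - ev M m y‖) (hyperfilter ℕ : Filter ℕ) (𝓝 0)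

theorem Near.rfl' (x : Bd M) : Near x x := by
  simp [Near]

theorem Near.mul {x x' y y' : Bd M} (h : Near x x') (h' : Near y y') : Near (x * y) (x' * y') := by
  obtain ⟨C, hC⟩ := ev_bd y
  obtain ⟨D, hD⟩ := ev_bd x'
  have hl : Tendsto (fun m => ‖ev M m x - ev M m x'‖ * C + D * ‖ev M m y - ev M m y'‖)
      (hyperfilter ℕ : Filter ℕ) (𝓝 0) := by
    simpa using (h.mul_const C).add (h'.const_mul D)
  refine squeeze_zero (fun m => norm_nonneg _) (fun m => ?_) hl
  rw [map_mul, map_mul]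
  have e : ev M m x * ev M m y - ev M m x' * ev M m y'
      = (ev M m x - ev M m x') * ev M m y + ev M m x' * (ev M m y - ev M m y') := by noncomm_ring
  rw [e]
  refine (norm_add_le _ _).trans (add_le_add ((norm_mul_le _ _).trans ?_)
    ((norm_mul_le _ _).trans ?_))
  · exact mul_le_mul_of_nonneg_left (hC m) (norm_nonneg _)
  · exact mul_le_mul_of_nonneg_right (hD m) (norm_nonneg _)

theorem Near.tl (τ : M →L[ℂ] ℂ) {x y : Bd M} (h : Near x y) : tl τ x = tl τ y := by
  have h0 : Tendsto (fun m => τ (ev M m (x - y))) (hyperfilter ℕ : Filter ℕ) (𝓝 0) := by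
    rw [tendsto_zero_iff_norm_tendsto_zero]
    have hl : Tendsto (fun m => ‖τ‖ * ‖ev M m x - ev M m y‖) (hyperfilter ℕ : Filter ℕ) (𝓝 0) := by
      simpa using h.const_mul ‖τ‖
    refine squeeze_zero (fun m => norm_nonneg _) (fun m => ?_) hl
    rw [map_sub]; exact τ.le_opNorm _
  have := tl_eq τ h0
  rwa [map_sub, sub_eq_zero] at this

theorem cz_bd (τ : M →L[ℂ] ℂ) (x : Bd M) :
    ∃ C : ℝ, ∀ m, ‖ev M m x - algebraMap ℂ M (τ (ev M m x))‖ ≤ C := by
  obtain ⟨C, hC⟩ := ev_bd x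
  refine ⟨C + ‖τ‖ * C * ‖(1 : M)‖, fun m => (norm_sub_le _ _).trans (add_le_add (hC m) ?_)⟩
  rw [Algebra.algebraMap_eq_smul_one, norm_smul]
  exact mul_le_mul_of_nonneg_right ((τ.le_opNorm _).trans
    (mul_le_mul_of_nonneg_left (hC m) (norm_nonneg _))) (norm_nonneg _)

/-- coordinatewise centring. -/
noncomputable def cz (τ : M →L[ℂ] ℂ) (x : Bd M) : Bd M :=
  ⟨fun m => ev M m x - algebraMap ℂ M (τ (ev M m x)), cz_bd τ x⟩

theorem ev_cz (τ : M →L[ℂ] ℂ) (x : Bd M) (m : ℕ) :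
    ev M m (cz τ x) = ev M m x - algebraMap ℂ M (τ (ev M m x)) := rfl

theorem near_cz (τ : M →L[ℂ] ℂ) (x : Bd M) :
    Near (x - algebraMap ℂ (Bd M) (tl τ x)) (cz τ x) := by
  have h0 : Tendsto (fun m => ‖τ (ev M m x) - tl τ x‖ * ‖(1 : M)‖) (hyperfilter ℕ : Filter ℕ)
      (𝓝 0) := by
    simpa using (tendsto_iff_norm_sub_tendsto_zero.mp (tl_spec τ x)).mul_const ‖(1 : M)‖
  refine h0.congr (fun m => ?_)
  rw [ev_cz, map_sub, AlgHomClass.commutes, sub_sub_sub_cancel_left, ← map_sub,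
    Algebra.algebraMap_eq_smul_one, norm_smul]

theorem near_alt (τ : M →L[ℂ] ℂ) (U : Bd M) (L : List (Bd M)) :
    Near (K5.alt U (L.map (fun x => x - algebraMap ℂ (Bd M) (tl τ x))))
      (K5.alt U (L.map (cz τ))) := by
  induction L with
  | nil => exact Near.rfl' _
  | cons x L ih =>
    simp only [K5.alt, List.map_cons, List.prod_cons] at ih ⊢
    exact ((near_cz τ x).mul (Near.rfl' U)).mul ih

/-- from centred monomials to all centred elements of the generated algebra. -/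
theorem alt_span {E : Type*} [Ring E] [Algebra ℂ E] (t : E →ₗ[ℂ] ℂ) (U : E) (Z : Set E)
    (hZ : ∀ L : List E, L ≠ [] → (∀ b ∈ L, b ∈ Z) → t ((L.map (· * U)).prod) = 0) :
    ∀ (L2 L1 : List E), (∀ b ∈ L2, b ∈ Submodule.span ℂ Z) → (∀ b ∈ L1, b ∈ Z) →
      L1 ++ L2 ≠ [] → t (((L1 ++ L2).map (· * U)).prod) = 0 := by
  intro L2
  induction L2 with
  | nil => intro L1 _ h1 hne; rw [List.append_nil] at hne ⊢; exact hZ L1 hne h1
  | cons b L2 ih =>
    intro L1 h2 h1 _
    have hb := h2 b (by simp)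
    have key : ∀ c ∈ Submodule.span ℂ Z,
        t ((L1.map (· * U)).prod * (c * U * (L2.map (· * U)).prod)) = 0 := by
      intro c hc
      induction hc using Submodule.span_induction with
      | mem c hc =>
        have := ih (L1 ++ [c]) (fun x hx => h2 x (List.mem_cons_of_mem _ hx)) (by
          intro x hx
          rcases List.mem_append.mp hx with hx | hx
          · exact h1 x hx
          · rw [List.mem_singleton.mp hx]; exact hc) (by simp)
        simpa [mul_assoc] using this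
      | zero => simp
      | add x y _ _ hx hy => rw [add_mul, add_mul, mul_add, map_add, hx, hy, add_zero]
      | smul a x _ hx => rw [smul_mul_assoc, smul_mul_assoc, mul_smul_comm, map_smul, hx, smul_zero]
    simpa using key b hb

theorem cen_span {E : Type*} [Ring E] [Algebra ℂ E] (t : E →ₗ[ℂ] ℂ) (h1 : t 1 = 1) (G : Set E)
    {b : E} (hb : b ∈ Algebra.adjoin ℂ G) :
    b - algebraMap ℂ E (t b) ∈ Submodule.span ℂ
      {z : E | ∃ l : List E, l ≠ [] ∧ (∀ x ∈ l, x ∈ G) ∧ z = l.prod - algebraMap ℂ E (t l.prod)} := by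
  have hb' : b ∈ Submodule.span ℂ (Submonoid.closure G : Set E) := by
    rw [← Algebra.adjoin_eq_span]; exact hb
  clear hb
  induction hb' using Submodule.span_induction with
  | mem x hx =>
    obtain ⟨l, hl, rfl⟩ := Submonoid.exists_list_of_mem_closure hx
    by_cases h : l = []
    · subst h; simp [h1]
    · exact Submodule.subset_span ⟨l, h, hl, rfl⟩
  | zero => simp
  | add x y _ _ hx hy =>
    have : x + y - algebraMap ℂ E (t (x + y))
        = (x - algebraMap ℂ E (t x)) + (y - algebraMap ℂ E (t y)) := by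
      rw [map_add, map_add]; abel
    rw [this]; exact Submodule.add_mem _ hx hy
  | smul a x _ hx =>
    have : a • x - algebraMap ℂ E (t (a • x)) = a • (x - algebraMap ℂ E (t x)) := by
      rw [map_smul, smul_sub, smul_eq_mul, map_mul, Algebra.smul_def a (algebraMap ℂ E (t x))]
    rw [this]; exact Submodule.smul_mem _ _ hx

theorem contr (τ : M →L[ℂ] ℂ) (hpos : ∀ x, 0 ≤ (τ (star x * x)).re) {y : M} (hy : ‖y‖ ≤ 1)
    (x : M) : (τ (star (y * x) * (y * x))).re ≤ (τ (star x * x)).re := by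
  let _ := CStarAlgebra.spectralOrder M
  have _ := CStarAlgebra.spectralOrderedRing M
  have h1 : star y * y ≤ 1 := by
    refine (CStarAlgebra.star_mul_le_algebraMap_norm_sq (a := y)).trans ?_
    have : algebraMap ℝ M (‖y‖ ^ 2) ≤ algebraMap ℝ M 1 := by
      rw [← sub_nonneg, ← map_sub]
      exact algebraMap_nonneg M (by nlinarith [norm_nonneg y])
    simpa using this
  have h2 : (0 : M) ≤ 1 - star y * y := sub_nonneg.mpr h1
  set c := CFC.sqrt (1 - star y * y) with hc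
  have hcc : c * c = 1 - star y * y := CFC.sqrt_mul_sqrt_self _ h2
  have hcs : star c = c := (CFC.sqrt_nonneg _).isSelfAdjoint.star_eq
  have e : star x * x = star (y * x) * (y * x) + star (c * x) * (c * x) := by
    rw [star_mul, star_mul, hcs]
    have : star x * c * (c * x) = star x * (c * c) * x := by simp only [mul_assoc]
    rw [this, hcc]; noncomm_ring
  rw [e, map_add, Complex.add_re]
  linarith [hpos (c * x)]

theorem norm_sym {u : M} (h1 : star u = u) (h2 : u * u = 1) : ‖u‖ ≤ 1 := by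
  have h : ‖u‖ * ‖u‖ = ‖(1 : M)‖ := by
    rw [← CStarRing.norm_star_mul_self, h1, h2]
  have h3 : ‖(1 : M)‖ ≤ 1 := by
    have := CStarRing.norm_star_mul_self (x := (1 : M))
    rw [star_one, one_mul] at this
    nlinarith [norm_nonneg (1 : M)]
  nlinarith [norm_nonneg u]

open Classical in
theorem exists_tower (τ : M →L[ℂ] ℂ) (h4 : K4 τ) (F0 : Finset M) (hF : ∀ x ∈ F0, ‖x‖ ≤ 1)
    (hs : ∀ x ∈ F0, star x ∈ F0) (d0 : ℕ) (η : ℝ) (hη : 0 < η) :
    ∃ (G : ℕ → Finset M) (u : ℕ → M), G 0 = F0 ∧ (∀ j, G j ⊆ G (j + 1)) ∧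
      (∀ j, u j ∈ G (j + 1)) ∧ (∀ j, ∀ x ∈ G j, star x ∈ G j) ∧
      ∀ j, star (u j) = u j ∧ u j * u j = 1 ∧ ∀ L : List (List M), L ≠ [] →
        (∀ l ∈ L, l ≠ [] ∧ ∀ x ∈ l, x ∈ G j) → (L.map List.length).sum ≤ d0 →
        ‖τ ((L.map (fun l => (l.prod - algebraMap ℂ M (τ l.prod)) * u j)).prod)‖ ≤ η := by
  choose! ch hch using fun F : Finset M => h4 F d0 η hη
  let G : ℕ → Finset M := fun j => Nat.rec F0 (fun _ F => insert (ch F) F) j
  have hG : ∀ j, G (j + 1) = insert (ch (G j)) (G j) := fun _ => rfl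
  have hb : ∀ j, ∀ x ∈ G j, ‖x‖ ≤ 1 := by
    intro j
    induction j with
    | zero => exact hF
    | succ j ih =>
      intro x hx
      rw [hG, Finset.mem_insert] at hx
      rcases hx with rfl | hx
      · exact norm_sym (hch _ ih).1 (hch _ ih).2.1
      · exact ih x hx
  refine ⟨G, fun j => ch (G j), rfl, fun j => ?_, fun j => ?_, fun j => ?_,
    fun j => hch _ (hb j)⟩
  · rw [hG]; exact Finset.subset_insert _ _
  · rw [hG]; exact Finset.mem_insert_self _ _
  · induction j with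
    | zero => exact hs
    | succ j ih =>
      intro x hx
      rw [hG, Finset.mem_insert] at hx ⊢
      rcases hx with rfl | hx
      · exact Or.inl (hch _ (hb j)).1
      · exact Or.inr (ih x hx)

theorem isTr_tl (τ : M →L[ℂ] ℂ) (htr : ∀ x y, τ (x * y) = τ (y * x))
    (hst : ∀ x, τ (star x) = star (τ x)) (hpos : ∀ x, 0 ≤ (τ (star x * x)).re) (h1 : τ 1 = 1) :
    K5.IsTr (tl τ) := by
  refine ⟨fun x y => tl_eq τ ?_, fun x => tl_eq τ ?_, fun x => ?_, tl_eq τ ?_⟩
  · refine (tl_spec τ (y * x)).congr (fun m => ?_)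
    rw [map_mul (ev M m), map_mul (ev M m), htr]
  · refine (tl_spec τ x).star.congr (fun m => ?_)
    rw [map_star (ev M m), hst]
  · refine ge_of_tendsto' ((Complex.continuous_re.tendsto _).comp (tl_spec τ (star x * x)))
      (fun m => ?_)
    simp only [Function.comp, map_mul, map_star]
    exact hpos _
  · simp only [map_one, h1]; exact tendsto_const_nhds

theorem contr_tl (τ : M →L[ℂ] ℂ) (hpos : ∀ x, 0 ≤ (τ (star x * x)).re) (y : M) (hy : ‖y‖ ≤ 1)
    (x : Bd M) : K5.ip (tl τ) (cst y * x) (cst y * x) ≤ K5.ip (tl τ) x x := by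
  refine le_of_tendsto_of_tendsto'
    ((Complex.continuous_re.tendsto _).comp (tl_spec τ (star (cst y * x) * (cst y * x))))
    ((Complex.continuous_re.tendsto _).comp (tl_spec τ (star x * x))) (fun m => ?_)
  simp only [Function.comp, map_mul, map_star, ev_cst]
  exact contr τ hpos hy _

theorem free_tl (τ : M →L[ℂ] ℂ) (hone : tl τ 1 = 1) (G : ℕ → Finset M) (U : Bd M)
    (hGs : ∀ m, ∀ x ∈ G m, star x ∈ G m)
    (hGf : ∀ m, ∀ L : List (List M), L ≠ [] → (∀ l ∈ L, l ≠ [] ∧ ∀ x ∈ l, x ∈ G m) →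
      (L.map List.length).sum ≤ m →
      ‖τ ((L.map (fun l => (l.prod - algebraMap ℂ M (τ l.prod)) * ev M m U)).prod)‖
        ≤ 1 / ((m : ℝ) + 1))
    (l : List (Bd M)) (hl : l ≠ [])
    (hb : ∀ b ∈ l, b ∈ StarAlgebra.adjoin ℂ {x : Bd M | ∀ m, ev M m x ∈ G m} ∧ tl τ b = 0) :
    tl τ (K5.alt U l) = 0 := by
  set Gs : Set (Bd M) := {x : Bd M | ∀ m, ev M m x ∈ G m} with hGsd
  have hQ : ∀ b, b ∈ StarAlgebra.adjoin ℂ Gs → b ∈ Algebra.adjoin ℂ Gs := by
    intro b hb
    have : b ∈ (StarAlgebra.adjoin ℂ Gs).toSubalgebra := hb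
    rw [StarAlgebra.adjoin_toSubalgebra] at this
    refine Algebra.adjoin_mono ?_ this
    rintro x (hx | hx)
    · exact hx
    · intro m
      have := hGs m _ (hx m)
      rwa [map_star, star_star] at this
  have hz := alt_span (tl τ) U {z | ∃ l : List (Bd M), l ≠ [] ∧ (∀ x ∈ l, x ∈ Gs) ∧
    z = l.prod - algebraMap ℂ _ (tl τ l.prod)} ?_ l [] ?_ (by simp) (by simpa using hl)
  · simpa [K5.alt] using hz
  · intro L hL hZ
    obtain ⟨LL, hLL, rfl⟩ : ∃ LL : List (List (Bd M)),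
        (∀ l ∈ LL, l ≠ [] ∧ ∀ x ∈ l, x ∈ Gs) ∧
        L = (LL.map List.prod).map (fun x => x - algebraMap ℂ _ (tl τ x)) := by
      clear hL
      induction L with
      | nil => exact ⟨[], by simp, rfl⟩
      | cons z L ih =>
        obtain ⟨LL, h1, h2⟩ := ih (fun b hb => hZ b (List.mem_cons_of_mem _ hb))
        obtain ⟨l, hl1, hl2, rfl⟩ := hZ z (by simp)
        refine ⟨l :: LL, ?_, by rw [h2]; rfl⟩
        intro l' hl'
        rcases List.mem_cons.mp hl' with rfl | hl'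
        · exact ⟨hl1, hl2⟩
        · exact h1 l' hl'
    have hne : LL ≠ [] := by rintro rfl; simp at hL
    have e1 := (near_alt τ U (LL.map List.prod)).tl τ
    change tl τ (K5.alt U _) = 0
    rw [e1]
    apply tl_eq
    rw [tendsto_zero_iff_norm_tendsto_zero]
    have hle : (hyperfilter ℕ : Filter ℕ) ≤ atTop := Nat.hyperfilter_le_atTop
    refine squeeze_zero' (Eventually.of_forall fun m => norm_nonneg _) ?_
      (tendsto_one_div_add_atTop_nhds_zero_nat.mono_left hle)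
    filter_upwards [hle (eventually_ge_atTop (LL.map List.length).sum)] with m hm
    have := hGf m (LL.map (List.map (ev M m))) (by simpa using hne) (by
      intro l' hl'
      obtain ⟨l, hl, rfl⟩ := List.mem_map.mp hl'
      refine ⟨by simpa using (hLL l hl).1, fun x hx => ?_⟩
      obtain ⟨y, hy, rfl⟩ := List.mem_map.mp hx
      exact (hLL l hl).2 y hy m) (by
      simpa [Function.comp_def] using hm)
    have e2 : ev M m (K5.alt U ((LL.map List.prod).map (cz τ)))
        = ((LL.map (List.map (ev M m))).map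
          (fun l => (l.prod - algebraMap ℂ M (τ l.prod)) * ev M m U)).prod := by
      unfold K5.alt
      rw [map_list_prod (ev M m)]
      simp only [List.map_map, Function.comp_def, map_mul, ev_cz, map_list_prod]
    rw [e2]; exact this
  · intro b hbl
    have := cen_span (tl τ) hone Gs (hQ b (hb b hbl).1)
    rwa [(hb b hbl).2, map_zero, sub_zero] at this

theorem ev_pre {R : Type*} (a : R → M) (U : ℕ → Bd M) (w : ℕ → R) (m i : ℕ) :
    ev M m (pre (fun r => cst (a r)) U w i) = pre a (fun j => ev M m (U j)) w i := by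
  induction i with
  | zero => exact map_one _
  | succ i ih => rw [pre, pre, map_mul, map_mul, ih, ev_cst]

theorem pre_eq {R : Type*} (a : R → M) (u : ℕ → M) {w w' : ℕ → R} (i : ℕ)
    (h : ∀ j < i, w j = w' j) : pre a u w i = pre a u w' i := by
  induction i with
  | zero => rfl
  | succ i ih => rw [pre, pre, ih (fun j hj => h j (by omega)), h i (by omega)]

theorem avgS_eq {R : Type*} (a S : R → M) (u : ℕ → M) {w w' : ℕ → R} (N : ℕ)
    (h : ∀ j < N, w j = w' j) : avgS a S u N w = avgS a S u N w' := by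
  unfold avgS
  congr 1
  refine Finset.sum_congr rfl (fun i hi => ?_)
  have hi' := Finset.mem_range.mp hi
  rw [pre_eq a u i (fun j hj => h j (by omega)), h i hi']

theorem limit_bound (τ : M →L[ℂ] ℂ) (hT : K5.IsTr (tl τ))
    (hpos : ∀ x, 0 ≤ (τ (star x * x)).re) {R : Type*} (a Y : R → M)
    (ha : ∀ r, a r * star (a r) = 1 ∧ star (a r) * a r = 1) (hY : ∀ r, ‖Y r‖ ≤ 1)
    (hY0 : ∀ r, τ (Y r) = 0) (N p : ℕ) (hN : 0 < N) (G : ℕ → ℕ → Finset M) (U : ℕ → Bd M)
    (haG : ∀ r m, a r ∈ G m 0) (hYG : ∀ r m, Y r ∈ G m 0)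
    (hGm : ∀ m j, G m j ⊆ G m (j + 1)) (hGu : ∀ m j, ev M m (U j) ∈ G m (j + 1))
    (hU : ∀ m j, star (ev M m (U j)) = ev M m (U j) ∧ ev M m (U j) * ev M m (U j) = 1)
    (hfree : ∀ j (l : List (Bd M)), l ≠ [] →
      (∀ b ∈ l, b ∈ StarAlgebra.adjoin ℂ {x : Bd M | ∀ m, ev M m x ∈ G m j} ∧ tl τ b = 0) →
      tl τ (K5.alt (U j) l) = 0) (w : ℕ → R) :
    ∀ᶠ m in (hyperfilter ℕ : Filter ℕ),
      (τ ((avgS a Y (fun j => ev M m (U j)) N w *
        star (avgS a Y (fun j => ev M m (U j)) N w)) ^ p)).re < 2 * (4 / N) ^ p := by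
  have hb := K5.pow_bound hT (fun j => StarAlgebra.adjoin ℂ {x : Bd M | ∀ m, ev M m x ∈ G m j})
    (fun i => StarAlgebra.adjoin_mono (fun x hx m => hGm m i (hx m))) N U
    (fun i => cst (a (w i))) (fun i => cst (Y (w i))) (pre (fun r => cst (a r)) U w)
    (fun i _ => ⟨StarAlgebra.subset_adjoin ℂ _ (fun m => hGu m i),
      ev_ext (fun m => by rw [map_star]; exact (hU m i).1),
      ev_ext (fun m => by rw [map_mul, map_one]; exact (hU m i).2)⟩)
    (fun i _ => hfree i)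
    (fun i => ⟨StarAlgebra.subset_adjoin ℂ _ (fun m => haG _ m),
      ev_ext (fun m => by rw [map_mul, map_star, ev_cst, map_one]; exact (ha _).2),
      ev_ext (fun m => by rw [map_mul, map_star, ev_cst, map_one]; exact (ha _).1)⟩)
    (fun i => ⟨StarAlgebra.subset_adjoin ℂ _ (fun m => hYG _ m),
      tl_eq τ (by simp only [ev_cst, hY0]; exact tendsto_const_nhds),
      contr_tl τ hpos _ (hY _), by
        have : star (cst (Y (w i))) = cst (star (Y (w i))) :=
          ev_ext (fun m => by rw [map_star, ev_cst, ev_cst])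
        rw [this]; exact contr_tl τ hpos _ (by rw [norm_star]; exact hY _)⟩)
    rfl (fun _ => rfl) p
  have hpos4 : (0 : ℝ) < (4 / N) ^ p := by positivity
  have hS : ∀ m, ev M m ((N : ℂ)⁻¹ • ∑ i ∈ Finset.range N, pre (fun r => cst (a r)) U w i *
      cst (Y (w i)) * star (pre (fun r => cst (a r)) U w i))
      = avgS a Y (fun j => ev M m (U j)) N w := by
    intro m
    rw [map_smul, map_sum, avgS]
    congr 1
    refine Finset.sum_congr rfl (fun i _ => ?_)
    rw [map_mul, map_mul, map_star, ev_pre, ev_cst]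
  have hev := ((Complex.continuous_re.tendsto _).comp (tl_spec τ _)).eventually
    (gt_mem_nhds (lt_of_le_of_lt hb (show (4 / N : ℝ) ^ p < 2 * (4 / N) ^ p by linarith)))
  filter_upwards [hev] with m hm
  simp only [Function.comp] at hm
  rwa [map_pow (ev M m), map_mul (ev M m), map_star (ev M m), hS] at hm

open Classical in
/-- K5: Powers bound on the moments of the averaged conjugates, one `u` for all `i` and `w`. -/
theorem k5 (τ : M →L[ℂ] ℂ) (htr : ∀ x y, τ (x * y) = τ (y * x))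
    (hst : ∀ x, τ (star x) = star (τ x)) (hpos : ∀ x, 0 ≤ (τ (star x * x)).re) (h1 : τ 1 = 1)
    (h4 : K4 τ) {I R : Type*} [Finite I] [Finite R] (a : R → M) (Y : I → R → M)
    (ha : ∀ r, a r * star (a r) = 1 ∧ star (a r) * a r = 1) (hY : ∀ i r, ‖Y i r‖ ≤ 1)
    (hY0 : ∀ i r, τ (Y i r) = 0) (N p : ℕ) (hN : 0 < N) :
    ∃ u : ℕ → M, (∀ j, star (u j) = u j ∧ u j * u j = 1) ∧ ∀ (i : I) (w : ℕ → R),
      (τ ((avgS a (Y i) u N w * star (avgS a (Y i) u N w)) ^ p)).re ≤ 2 * (4 / N) ^ p := by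
  have _ := Fintype.ofFinite R
  have _ := Fintype.ofFinite I
  have han : ∀ r, ‖a r‖ ≤ 1 := fun r => by
    have h : ‖a r‖ * ‖a r‖ = ‖(1 : M)‖ := by rw [← CStarRing.norm_star_mul_self, (ha r).2]
    have h3 : ‖(1 : M)‖ ≤ 1 := norm_sym (star_one M) (one_mul 1)
    nlinarith [norm_nonneg (a r)]
  obtain ⟨F1, hF1, haF1, hYF1⟩ : ∃ F1 : Finset M, (∀ x ∈ F1, ‖x‖ ≤ 1) ∧ (∀ r, a r ∈ F1) ∧
      ∀ i r, Y i r ∈ F1 := by
    refine ⟨Finset.univ.image a ∪ Finset.univ.image (fun q : I × R => Y q.1 q.2), ?_, ?_, ?_⟩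
    · intro x hx
      simp only [Finset.mem_union, Finset.mem_image, Finset.mem_univ, true_and] at hx
      rcases hx with ⟨r, rfl⟩ | ⟨q, rfl⟩
      · exact han r
      · exact hY _ _
    · intro r; simp
    · intro i r
      exact Finset.mem_union_right _ (Finset.mem_image.mpr ⟨(i, r), Finset.mem_univ _, rfl⟩)
  have hF : ∀ x ∈ F1 ∪ F1.image star, ‖x‖ ≤ 1 := by
    intro x hx
    rcases Finset.mem_union.mp hx with hx | hx
    · exact hF1 x hx
    · obtain ⟨y, hy, rfl⟩ := Finset.mem_image.mp hx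
      rw [norm_star]; exact hF1 y hy
  have hs : ∀ x ∈ F1 ∪ F1.image star, star x ∈ F1 ∪ F1.image star := by
    intro x hx
    rcases Finset.mem_union.mp hx with hx | hx
    · exact Finset.mem_union_right _ (Finset.mem_image_of_mem _ hx)
    · obtain ⟨y, hy, rfl⟩ := Finset.mem_image.mp hx
      rw [star_star]; exact Finset.mem_union_left _ hy
  choose G u hG0 hGm hGu hGs hGf using fun m : ℕ =>
    exists_tower τ h4 _ hF hs m (1 / ((m : ℝ) + 1)) (by positivity)
  let U : ℕ → Bd M := fun j => mk (fun m => u m j) 1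
    (fun m => norm_sym (hGf m j).1 (hGf m j).2.1)
  have hT := isTr_tl τ htr hst hpos h1
  have hbound := fun (i : I) (w : ℕ → R) => limit_bound τ hT hpos a (Y i) ha (hY i) (hY0 i) N p hN
    G U (fun r m => by rw [hG0]; exact Finset.mem_union_left _ (haF1 r))
    (fun r m => by rw [hG0]; exact Finset.mem_union_left _ (hYF1 i r)) hGm hGu
    (fun m j => ⟨(hGf m j).1, (hGf m j).2.1⟩)
    (fun j => free_tl τ hT.one (fun m => G m j) (U j) (fun m => hGs m j)
      (fun m => (hGf m j).2.2)) w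
  rcases isEmpty_or_nonempty R with hR | ⟨⟨r0⟩⟩
  · exact ⟨fun _ => 1, fun _ => ⟨star_one M, one_mul 1⟩, fun _ w => (hR.false (w 0)).elim⟩
  let ex : (Fin N → R) → ℕ → R := fun v i => if h : i < N then v ⟨i, h⟩ else r0
  obtain ⟨m, hm⟩ :=
    (eventually_all.mpr (fun q : I × (Fin N → R) => hbound q.1 (ex q.2))).exists
  refine ⟨u m, fun i => ⟨(hGf m i).1, (hGf m i).2.1⟩, fun i w => ?_⟩
  have hw : ∀ j < N, w j = ex (fun k : Fin N => w k) j := fun j hj => by simp [ex, hj]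
  rw [avgS_eq a (Y i) (u m) N hw]
  exact (hm (i, fun k : Fin N => w k)).le

/-- K5 over the finite setting. -/
theorem k5h {U : Set M} {τ : M →L[ℂ] ℂ} (h : Hyp U τ) (h4 : K4 τ) {I R : Type*} [Finite I]
    [Finite R] (a : R → M) (Y : I → R → M) (ha : ∀ r, a r ∈ unitary M) (hY : ∀ i r, ‖Y i r‖ ≤ 1)
    (hY0 : ∀ i r, τ (Y i r) = 0) (N p : ℕ) (hN : 0 < N) :
    ∃ u : ℕ → M, (∀ j, star (u j) = u j ∧ u j * u j = 1) ∧ ∀ (i : I) (w : ℕ → R),
      (τ ((avgS a (Y i) u N w * star (avgS a (Y i) u N w)) ^ p)).re ≤ 2 * (4 / N) ^ p :=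
  k5 τ h.tr h.st h.pos (h.tU 1 h.one) h4 a Y (fun r => ⟨(ha r).2, (ha r).1⟩) hY hY0 N p hN

end Pool.Agent.Lib.MP_08bba9_an.K.Pow
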