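import Pool.Agent.Lib.MP_08bba9_an.K.Flat
import Pool.Agent.Lib.MP_08bba9_an.K.KP
import Pool.Agent.Lib.MP_08bba9_an.K.Glue3
import Pool.Agent.Lib.MP_08bba9_an.K.Free
import Pool.Agent.Lib.MP_08bba9_an.K.Pow

/-! The finite case: the norm property holds under some central projection of the family. -/

noncomputable section

namespace Pool.Agent.Lib.MP_08bba9_an.K

variable {M : Type*} [CStarAlgebra M]

theorem two_end {U : Set M} {τ : M →L[ℂ] ℂ} (h : Hyp U τ) (rk : RK M)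
    {R I : Type*} [Fintype R] [Fintype I] (r0 : R) (a : R → M) (Y : I → R → M) {d : M}
    (hd : star d = d ∧ d * d = 1) (ha : ∀ r, a r ∈ unitary M) (hY : ∀ i r, ‖Y i r‖ ≤ 1)
    (hdY : ∀ i r, d * Y i r * d = -Y i r) {ε : ℝ} (hε : 0 < ε) : Two U r0 a Y ε := by
  refine two_all h rk hd.1 hd.2 r0 ha hY hdY (fun hD N p hN => ?_) hε
  have h0 : ∀ i r, τ (Y i r) = 0 := by
    intro i r
    have h1 : τ (d * Y i r * d) = τ (Y i r) := by rw [h.tr, ← mul_assoc, hd.2, one_mul]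
    rw [hdY, map_neg] at h1
    linear_combination (-1 / 2 : ℂ) * h1
  obtain ⟨u, hu, hk⟩ := Pow.k5h h (fun F d0 η hη hF =>
    _root_.Lib.MP_08bba9_an.K4.k4 h.t_one h.tr h.pos h.st (glue3 h rk hD) F d0 η hη hF)
    a Y ha hY h0 N p hN
  exact ⟨u, fun j => sym_unitary (hu j).1 (hu j).2, hk⟩

theorem OneLev.kp {U : Set M} {R I : Type*} [Fintype R] {r0 : R} {a : R → M} {Y : I → R → M}
    {ε : ℝ} (h : OneLev U r0 a Y ε) : ∃ z ∈ U, KP a Y z ε := by
  obtain ⟨N, hN, u, hu, z, hz, h⟩ := h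
  refine ⟨z, hz, N, hN, u, hu, fun r i => ?_⟩
  have h1 := h i
  rw [Fintype.card_fun, Fintype.card_fin, Nat.cast_pow] at h1
  refine le_of_eq_of_le (Finset.sum_congr rfl fun w _ => ?_) h1
  rw [avgS_congr a (Y i) u N (w := wext r w) (w' := extW r0 w) fun j hj => by
    simp only [wext, extW, dif_pos hj]]

theorem kend {U : Set M} {τ : M →L[ℂ] ℂ} (h : Hyp U τ) (rk : RK M)
    {R I : Type} [Fintype R] [Nonempty R] [Fintype I] (a : R → M) (Y : I → R → M) {d : M}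
    (hd : star d = d ∧ d * d = 1) (ha : ∀ r, a r ∈ unitary M) (hY : ∀ i r, ‖Y i r‖ ≤ 1)
    (hdY : ∀ i r, d * Y i r * d = -Y i r) {ε : ℝ} (hε : 0 < ε) : ∃ z ∈ U, KP a Y z ε :=
  (two_end h rk (Classical.arbitrary R) a Y hd ha hY hdY hε).one.kp

end Pool.Agent.Lib.MP_08bba9_an.K
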