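import Mathlib

/-! Filling a projection by equivalent orthogonal pieces. -/

namespace Pool.Agent.Lib.MP_08bba9_an.K

open Finset

variable {M : Type*} [CStarAlgebra M]

theorem fl_init {v e : M} (he : IsStarProjection e) (h : star v * v = e) : v * e = v := by
  have h1 : star (v - v * e) * (v - v * e) = 0 := by
    have e1 := he.isIdempotentElem.eq
    calc _ = star v * v - star v * v * e - e * (star v * v) + e * (star v * v) * e := by
          rw [star_sub, star_mul, he.isSelfAdjoint.star_eq]; noncomm_ring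
      _ = 0 := by simp [h, e1]
  exact (sub_eq_zero.1 ((CStarRing.star_mul_self_eq_zero_iff _).1 h1)).symm

theorem fl_fin {v e : M} (he : IsStarProjection e) (h : star v * v = e) :
    IsStarProjection (v * star v) :=
  ⟨by rw [IsIdempotentElem, mul_assoc, ← mul_assoc (star v), h, ← mul_assoc, fl_init he h],
    IsSelfAdjoint.mul_star_self v⟩

theorem fl_sub {p q : M} (hp : IsStarProjection p) (hq : IsStarProjection q) (h : q * p = p) :
    IsStarProjection (q - p) := by
  have h' : p * q = p := by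
    have := congrArg star h
    rwa [star_mul, hp.isSelfAdjoint.star_eq, hq.isSelfAdjoint.star_eq] at this
  refine ⟨?_, hq.isSelfAdjoint.sub hp.isSelfAdjoint⟩
  rw [IsIdempotentElem, sub_mul, mul_sub, mul_sub, h, h', hp.isIdempotentElem.eq,
    hq.isIdempotentElem.eq, sub_self, sub_zero]

theorem fl_cen {z p : M} (hz : IsStarProjection z) (hc : ∀ x, z * x = x * z)
    (hp : IsStarProjection p) : IsStarProjection (z * p) := hz.mul hp (hc p)

theorem fl_sum {ι : Type*} [DecidableEq ι] (s : Finset ι) (w : ι → M) {e : M}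
    (he : IsStarProjection e) (h : ∀ i ∈ s, ∀ j ∈ s, star (w i) * w j = if i = j then e else 0) :
    IsStarProjection (∑ i ∈ s, w i * star (w i)) := by
  refine ⟨?_, ?_⟩
  · rw [IsIdempotentElem, sum_mul]
    refine sum_congr rfl fun i hi => ?_
    rw [mul_sum, sum_eq_single_of_mem i hi]
    · exact (fl_fin he (by rw [h i hi i hi, if_pos rfl])).isIdempotentElem.eq
    · intro j hj hji
      rw [mul_assoc, ← mul_assoc (star (w i)), h i hi j hj, if_neg hji.symm, zero_mul, mul_zero]
  · rw [IsSelfAdjoint, star_sum]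
    exact sum_congr rfl fun i _ => (IsSelfAdjoint.mul_star_self _).star_eq

section trace

variable {τ : M →L[ℂ] ℂ}

theorem fl_nonneg (hpos : ∀ x, 0 ≤ (τ (star x * x)).re) {p : M} (hp : IsStarProjection p) :
    0 ≤ (τ p).re := by
  have := hpos p
  rwa [hp.isSelfAdjoint.star_eq, hp.isIdempotentElem.eq] at this

theorem fl_mono (hpos : ∀ x, 0 ≤ (τ (star x * x)).re) {p q : M} (hp : IsStarProjection p)
    (hq : IsStarProjection q) (h : q * p = p) : (τ p).re ≤ (τ q).re := by
  have := fl_nonneg hpos (fl_sub hp hq h)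
  rw [map_sub, Complex.sub_re] at this
  linarith

theorem fl_cut (hpos : ∀ x, 0 ≤ (τ (star x * x)).re) (h1 : τ 1 = 1) {z p : M}
    (hz : IsStarProjection z) (hc : ∀ x, z * x = x * z) (hτ : τ z = 1) (hp : IsStarProjection p) :
    (τ (z * p)).re = (τ p).re := by
  have hz' := hz.one_sub
  have hc' : ∀ x, (1 - z) * x = x * (1 - z) := fun x => by
    rw [sub_mul, mul_sub, one_mul, mul_one, hc]
  have a := fl_nonneg hpos (fl_cen hz' hc' hp)
  have b := fl_mono hpos (fl_cen hz' hc' hp) hz' (by rw [← mul_assoc, hz'.isIdempotentElem.eq])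
  rw [map_sub, h1, hτ, sub_self, Complex.zero_re] at b
  rw [sub_mul, one_mul, map_sub, Complex.sub_re] at a b
  linarith

/-- Comparison of projections up to a central projection of full trace. -/
def Cmp (τ : M →L[ℂ] ℂ) : Prop := ∀ p q : M, IsStarProjection p → IsStarProjection q →
  ∃ z, IsStarProjection z ∧ (∀ x, z * x = x * z) ∧ τ z = 1 ∧
    ((∃ v, star v * v = z * p ∧ q * v = v) ∨ ∃ v, star v * v = z * q ∧ p * v = v)

theorem fl_tc (htr : ∀ a b, τ (a * b) = τ (b * a)) (hpos : ∀ x, 0 ≤ (τ (star x * x)).re)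
    (h1 : τ 1 = 1) (hcmp : Cmp τ) {p q : M} (hp : IsStarProjection p) (hq : IsStarProjection q)
    (h : (τ p).re < (τ q).re) : ∃ z, IsStarProjection z ∧ (∀ x, z * x = x * z) ∧ τ z = 1 ∧
      ∃ v, star v * v = z * p ∧ q * v = v := by
  obtain ⟨z, hz, hc, hτ, h' | ⟨v, a, b⟩⟩ := hcmp p q hp hq
  · exact ⟨z, hz, hc, hτ, h'⟩
  have := fl_mono hpos (fl_fin (fl_cen hz hc hq) a) hp (by rw [← mul_assoc, b])
  rw [htr, a, fl_cut hpos h1 hz hc hτ hq] at this
  exact absurd h (not_lt.2 this)

theorem fl_copies (htr : ∀ a b, τ (a * b) = τ (b * a)) (hpos : ∀ x, 0 ≤ (τ (star x * x)).re)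
    (h1 : τ 1 = 1) (hcmp : Cmp τ) {f s : M} (hf : IsStarProjection f) (hs : IsStarProjection s)
    (m : ℕ) (hm : m * (τ s).re < (τ f).re) : ∃ (e : M) (w : ℕ → M), IsStarProjection e ∧
      (τ e).re = (τ s).re ∧ (∀ i < m, ∀ j < m, star (w i) * w j = if i = j then e else 0) ∧
      ∀ i < m, f * w i = w i := by
  induction m with
  | zero => exact ⟨s, 0, hs, rfl, by simp, by simp⟩
  | succ m ih =>
    have s0 := fl_nonneg hpos hs
    push_cast at hm
    obtain ⟨e, w, he, hτe, ho, hw⟩ := ih (by linarith)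
    have hP := fl_sum (range m) w he fun i hi j hj => ho i (mem_range.1 hi) j (mem_range.1 hj)
    have hfP : f * ∑ i ∈ range m, w i * star (w i) = ∑ i ∈ range m, w i * star (w i) := by
      rw [mul_sum]
      exact sum_congr rfl fun i hi => by rw [← mul_assoc, hw i (mem_range.1 hi)]
    have hg := fl_sub hP hf hfP
    have hτP : τ (∑ i ∈ range m, w i * star (w i)) = m * τ e := by
      rw [map_sum, sum_congr rfl fun i hi => by
        rw [htr, ho i (mem_range.1 hi) i (mem_range.1 hi), if_pos rfl]]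
      simp
    obtain ⟨z, hz, hc, hτ, v, a, b⟩ := fl_tc htr hpos h1 hcmp he hg (by
      rw [map_sub, hτP, Complex.sub_re, Complex.mul_re]
      simp only [Complex.natCast_re, Complex.natCast_im, zero_mul, sub_zero]
      rw [hτe]; linarith)
    have hgw : ∀ i < m, (f - ∑ i ∈ range m, w i * star (w i)) * w i = 0 := by
      intro i hi
      rw [sub_mul, hw i hi, sum_mul, sum_eq_single_of_mem i (mem_range.2 hi)]
      · rw [mul_assoc, ho i hi i hi, if_pos rfl, fl_init he (by rw [ho i hi i hi, if_pos rfl]),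
          sub_self]
      · intro j hj hji
        rw [mul_assoc, ho j (mem_range.1 hj) i hi, if_neg hji, mul_zero]
    have hvw : ∀ i < m, star v * w i = 0 := fun i hi => by
      rw [← b, star_mul, hg.isSelfAdjoint.star_eq, mul_assoc, hgw i hi, mul_zero]
    have hwv : ∀ i < m, star (w i) * v = 0 := fun i hi => by
      simpa using congrArg star (hvw i hi)
    have hfv : f * v = v := by
      rw [← b, ← mul_assoc, mul_sub, hf.isIdempotentElem.eq, hfP]
    refine ⟨z * e, fun i => if i < m then w i * z else v, fl_cen hz hc he,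
      (fl_cut hpos h1 hz hc hτ he).trans hτe, fun i hi j hj => ?_, fun i hi => ?_⟩
    · by_cases ci : i < m <;> by_cases cj : j < m <;> simp only [ci, cj, if_true, if_false]
      · rw [star_mul, hz.isSelfAdjoint.star_eq, mul_assoc, ← mul_assoc (star (w i)), ho i ci j cj]
        split_ifs
        · rw [← hc, ← mul_assoc, hz.isIdempotentElem.eq]
        · simp
      · rw [star_mul, mul_assoc, hwv i ci, mul_zero, if_neg (by omega)]
      · rw [← mul_assoc, hvw j cj, zero_mul, if_neg (by omega)]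
      · rw [a, if_pos (by omega)]
    · by_cases ci : i < m <;> simp only [ci, if_true, if_false]
      · rw [← mul_assoc, hw i ci]
      · exact hfv

theorem fill (htr : ∀ a b, τ (a * b) = τ (b * a)) (hpos : ∀ x, 0 ≤ (τ (star x * x)).re)
    (h1 : τ 1 = 1) (hcmp : Cmp τ)
    (hD : ∀ ε : ℝ, 0 < ε → ∃ s, IsStarProjection s ∧ 0 < (τ s).re ∧ (τ s).re ≤ ε)
    {f : M} (hf : IsStarProjection f) (hθ : 0 < (τ f).re) {K : ℕ} (hK : 1 ≤ K) {γ : ℝ}
    (hγ : 0 < γ) : ∃ (v : Fin K → M) (r1 r2 : M), IsStarProjection r1 ∧ IsStarProjection r2 ∧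
      r1 * r2 = 0 ∧ τ r1 = τ r2 ∧ (∀ l m, star (v l) * v m = if l = m then r1 + r2 else 0) ∧
      (∀ l, f * v l = v l) ∧ (τ f).re - γ ≤ K * (τ (r1 + r2)).re ∧
      K * (τ (r1 + r2)).re ≤ (τ f).re := by
  have K0 : (0 : ℝ) < K := by exact_mod_cast hK
  obtain ⟨s, hs, s0, s1⟩ := hD (γ / (2 * K)) (by positivity)
  have hd : 0 < 2 * K * (τ s).re := by positivity
  obtain ⟨n, hn⟩ : ∃ n : ℕ, ⌈(τ f).re / (2 * K * (τ s).re)⌉₊ = n + 1 :=
    Nat.exists_eq_succ_of_ne_zero (Nat.ceil_pos.2 (by positivity)).ne'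
  obtain ⟨n1, n2⟩ := (Nat.ceil_eq_iff (by omega)).1 hn
  rw [Nat.add_sub_cancel, lt_div_iff₀ hd] at n1
  rw [div_le_iff₀ hd] at n2
  push_cast at n2
  rw [le_div_iff₀ (by positivity)] at s1
  obtain ⟨e, w0, he, hτe, ho0, hw0⟩ := fl_copies htr hpos h1 hcmp hf hs
    (Fintype.card (Fin K × Bool × Fin n)) (by simp; linarith)
  let w : Fin K × Bool × Fin n → M := fun x => w0 (Fintype.equivFin _ x)
  have ho : ∀ x y, star (w x) * w y = if x = y then e else 0 := fun x y => by
    simp only [w]
    rw [ho0 _ (Fin.is_lt _) _ (Fin.is_lt _)]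
    simp only [Fin.val_inj, EmbeddingLike.apply_eq_iff_eq]
  have hw : ∀ x, f * w x = w x := fun x => hw0 _ (Fin.is_lt _)
  have hwe : ∀ x, w x * e = w x := fun x => fl_init he (by rw [ho, if_pos rfl])
  let o : Fin K := ⟨0, hK⟩
  have hr : ∀ b, IsStarProjection (∑ i, w (o, b, i) * star (w (o, b, i))) := fun b =>
    fl_sum univ (fun i => w (o, b, i)) he fun i _ j _ => by rw [ho]; simp
  have hτr : ∀ b, τ (∑ i, w (o, b, i) * star (w (o, b, i))) = n * τ e := fun b => by
    rw [map_sum, sum_congr rfl fun i _ => by rw [htr, ho, if_pos rfl]]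
    simp
  have hre : (τ (∑ i, w (o, true, i) * star (w (o, true, i)) +
      ∑ i, w (o, false, i) * star (w (o, false, i)))).re = 2 * n * (τ s).re := by
    rw [map_add, hτr, hτr, Complex.add_re, Complex.mul_re]
    simp only [Complex.natCast_re, Complex.natCast_im, zero_mul, sub_zero]
    rw [hτe]; ring
  refine ⟨fun l => ∑ y, w (l, y) * star (w (o, y)), _, _, hr true, hr false, ?_,
    (hτr true).trans (hτr false).symm, fun l m => ?_, fun l => ?_, ?_, ?_⟩
  · rw [sum_mul]
    refine sum_eq_zero fun i _ => ?_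
    rw [mul_sum]
    refine sum_eq_zero fun j _ => ?_
    rw [mul_assoc, ← mul_assoc (star _), ho, if_neg (by simp), zero_mul, mul_zero]
  · rw [star_sum, sum_mul]
    have : ∀ y, star (w (l, y) * star (w (o, y))) * ∑ y', w (m, y') * star (w (o, y')) =
        if l = m then w (o, y) * star (w (o, y)) else 0 := by
      intro y
      rw [mul_sum, sum_eq_single_of_mem y (mem_univ y)]
      · rw [star_mul, star_star, mul_assoc, ← mul_assoc (star _), ho]
        by_cases c : l = m
        · rw [if_pos (by rw [c]), if_pos c, ← mul_assoc, hwe]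
        · rw [if_neg (by simp [c]), if_neg c, zero_mul, mul_zero]
      · intro y' _ c
        rw [star_mul, star_star, mul_assoc, ← mul_assoc (star _), ho,
          if_neg (by simp [c.symm]), zero_mul, mul_zero]
    rw [sum_congr rfl fun y _ => this y]
    split_ifs
    · rw [Fintype.sum_prod_type, Fintype.sum_bool]
    · simp
  · rw [mul_sum]
    exact sum_congr rfl fun y _ => by rw [← mul_assoc, hw]
  · rw [hre]; linarith
  · rw [hre]; linarith

end trace

end Pool.Agent.Lib.MP_08bba9_an.K
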