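import Pool.Agent.Lib.MP_08bba9_an.K.Asm
import Pool.Agent.Lib.MP_08bba9_an.K.KP

/-! Two levels of words are one level of longer words. -/

noncomputable section

namespace Pool.Agent.Lib.MP_08bba9_an.K

open Finset

variable {M : Type*} [CStarAlgebra M]

/-- the unitaries of the long word: the outer unitary is attached at the end of each block -/
def flatU (u u' : ℕ → M) (N : ℕ) (t : ℕ) : M :=
  if t % N + 1 = N then u (t % N) * u' (t / N) else u (t % N)

theorem flatU_unitary {u u' : ℕ → M} (hu : ∀ j, u j ∈ unitary M) (hu' : ∀ j, u' j ∈ unitary M)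
    (N t : ℕ) : flatU u u' N t ∈ unitary M := by
  unfold flatU
  split_ifs
  · exact mul_mem (hu _) (hu' _)
  · exact hu _

theorem flat_mod {N i : ℕ} (j : ℕ) (hi : i < N) : (i + N * j) % N = i := by
  rw [Nat.add_mul_mod_self_left, Nat.mod_eq_of_lt hi]

theorem flat_div {N i : ℕ} (j : ℕ) (hi : i < N) : (i + N * j) / N = j := by
  rw [Nat.add_mul_div_left _ _ (by omega), Nat.div_eq_of_lt hi, zero_add]

theorem flat_pre {R : Type*} (a : R → M) (u u' : ℕ → M) {N : ℕ} (hN : 0 < N) (v : ℕ → R)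
    (j : ℕ) : ∀ i < N, pre a (flatU u u' N) v (i + N * j) =
      pre (fun x : ℕ → R => pre a u x N) u' (fun j i => v (i + N * j)) j *
        pre a u (fun i => v (i + N * j)) i := by
  have step : ∀ (j : ℕ) (B : M), pre a (flatU u u' N) v (0 + N * j) = B * 1 → ∀ i < N,
      pre a (flatU u u' N) v (i + N * j) = B * pre a u (fun i => v (i + N * j)) i := by
    intro j B h0 i
    induction i with
    | zero => exact fun _ => h0
    | succ i ih =>
      intro hi
      have hi' : i < N := by omega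
      rw [show i + 1 + N * j = (i + N * j) + 1 by ring, pre, ih hi', pre, flatU, flat_mod j hi',
        if_neg (by omega)]
      simp only [mul_assoc]
  induction j with
  | zero => exact step 0 _ (by simp [pre])
  | succ j ih =>
    refine step (j + 1) _ ?_
    obtain ⟨n, rfl⟩ : ∃ n, N = n + 1 := ⟨N - 1, by omega⟩
    rw [show 0 + (n + 1) * (j + 1) = (n + (n + 1) * j) + 1 by ring, pre, ih n (by omega), flatU,
      flat_mod j (Nat.lt_succ_self n), flat_div j (Nat.lt_succ_self n), if_pos rfl]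
    simp only [pre, mul_assoc, mul_one]

theorem flat_sum {A : Type*} [AddCommMonoid A] (f : ℕ → A) (N N' : ℕ) :
    ∑ t ∈ range (N' * N), f t = ∑ j ∈ range N', ∑ i ∈ range N, f (i + N * j) := by
  induction N' with
  | zero => simp
  | succ k ih =>
    rw [add_mul, one_mul, sum_range_add, ih, sum_range_succ]
    congr 1
    exact sum_congr rfl fun i _ => by rw [show k * N + i = i + N * k by ring]

theorem avgS_congr {W : Type*} (a S : W → M) (u : ℕ → M) (N : ℕ) {w w' : ℕ → W}
    (h : ∀ j < N, w j = w' j) : avgS a S u N w = avgS a S u N w' := by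
  unfold avgS
  congr 1
  refine sum_congr rfl fun i hi => ?_
  have hi' := mem_range.1 hi
  rw [pre_congr a i (fun _ _ => rfl) (fun j hj => h j (hj.trans hi')), h i hi']

theorem pre_comp {W W' : Type*} (A : W → M) (A' : W' → M) (u : ℕ → M) (w : ℕ → W) (w' : ℕ → W')
    (i : ℕ) (h : ∀ j < i, A (w j) = A' (w' j)) : pre A u w i = pre A' u w' i := by
  induction i with
  | zero => rfl
  | succ i ih => rw [pre, pre, ih fun j hj => h j (by omega), h i (by omega)]

theorem flat_avg {R : Type*} (a Y : R → M) (u u' : ℕ → M) {N : ℕ} (hN : 0 < N) (N' : ℕ)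
    (v : ℕ → R) : avgS a Y (flatU u u' N) (N' * N) v =
      avgS (fun x : ℕ → R => pre a u x N) (fun x => avgS a Y u N x) u' N'
        fun j i => v (i + N * j) := by
  unfold avgS
  rw [flat_sum, Nat.cast_mul, mul_inv, mul_smul]
  congr 1
  rw [smul_sum]
  refine sum_congr rfl fun j _ => ?_
  rw [mul_smul_comm, smul_mul_assoc, mul_sum, sum_mul]
  congr 1
  refine sum_congr rfl fun i hi => ?_
  rw [flat_pre a u u' hN v j i (mem_range.1 hi), star_mul]
  simp only [mul_assoc]

/-- cutting a long word in blocks -/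
def flatE (R : Type*) (N' N : ℕ) : (Fin (N' * N) → R) ≃ (Fin N' → Fin N → R) :=
  (Equiv.arrowCongr finProdFinEquiv.symm (Equiv.refl R)).trans (Equiv.curry _ _ _)

theorem flatE_apply {R : Type*} {N' N : ℕ} (v : Fin (N' * N) → R) (j : Fin N') (i : Fin N) :
    flatE R N' N v j i = v (finProdFinEquiv (j, i)) := rfl

theorem flat_ext {R : Type*} (r0 : R) {N' N : ℕ} (v : Fin (N' * N) → R) {j i : ℕ} (hj : j < N')
    (hi : i < N) :
    extW r0 (extW (fun _ => r0) (flatE R N' N v) j) i = extW r0 v (i + N * j) := by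
  have h : i + N * j < N' * N := (finProdFinEquiv ((⟨j, hj⟩, ⟨i, hi⟩) : Fin N' × Fin N)).2
  simp only [extW, dif_pos hj, dif_pos hi, dif_pos h]
  rfl

theorem flat_two {R : Type*} (r0 : R) (a Y : R → M) (u u' : ℕ → M) {N : ℕ} (hN : 0 < N) (N' : ℕ)
    (v : Fin (N' * N) → R) :
    avgS (fun x : Fin N → R => pre a u (extW r0 x) N) (fun x => avgS a Y u N (extW r0 x)) u' N'
      (extW (fun _ => r0) (flatE R N' N v)) = avgS a Y (flatU u u' N) (N' * N) (extW r0 v) := by
  rw [flat_avg a Y u u' hN]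
  conv_lhs => unfold avgS
  conv_rhs => rw [avgS]
  congr 1
  refine sum_congr rfl fun j hj => ?_
  have hj' := mem_range.1 hj
  have e1 : pre (fun x : Fin N → R => pre a u (extW r0 x) N) u'
      (extW (fun _ => r0) (flatE R N' N v)) j =
      pre (fun x : ℕ → R => pre a u x N) u' (fun j i => extW r0 v (i + N * j)) j :=
    pre_comp _ _ _ _ _ _ fun l hl => pre_congr a N (fun _ _ => rfl)
      fun i hi => flat_ext r0 v (hl.trans hj') hi
  have e2 : avgS a Y u N (extW r0 (extW (fun _ => r0) (flatE R N' N v) j)) =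
      avgS a Y u N fun i => extW r0 v (i + N * j) :=
    avgS_congr a Y u N fun i hi => flat_ext r0 v hj' hi
  rw [e1, ← e2]
  rfl

/-- the conclusion of the finite case, with one level of words -/
def OneLev (U : Set M) {R I : Type*} [Fintype R] (r0 : R) (a : R → M) (Y : I → R → M) (ε : ℝ) :
    Prop :=
  ∃ N : ℕ, 0 < N ∧ ∃ u : ℕ → M, (∀ j, u j ∈ unitary M) ∧ ∃ z ∈ U, ∀ i,
    ∑ w : Fin N → R, ‖z * avgS a (Y i) u N (extW r0 w)‖ ≤ ε * Fintype.card (Fin N → R)

theorem Two.one {U : Set M} {R I : Type*} [Fintype R] {r0 : R} {a : R → M} {Y : I → R → M}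
    {ε : ℝ} (h : Two U r0 a Y ε) : OneLev U r0 a Y ε := by
  obtain ⟨N, hN, u, hu, N', hN', u', hu', z, hz, h⟩ := h
  refine ⟨N' * N, Nat.mul_pos hN' hN, flatU u u' N, flatU_unitary hu hu' N, z, hz, fun i => ?_⟩
  have := h i
  rw [← (flatE R N' N).sum_comp, ← Fintype.card_congr (flatE R N' N)] at this
  simpa only [flat_two r0 a (Y i) u u' hN] using this

theorem Two.flat {U : Set M} {R I : Type*} [Fintype R] {r₀ : R} {a : R → M} {Y : I → R → M}
    {ε : ℝ} (h : Two U r₀ a Y ε) : ∃ z ∈ U, KP a Y z ε := by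
  obtain ⟨N, hN, u, hu, z, hz, h⟩ := h.one
  refine ⟨z, hz, N, hN, u, hu, fun r i => ?_⟩
  have h1 := h i
  rw [Fintype.card_fun, Fintype.card_fin, Nat.cast_pow] at h1
  refine le_of_eq_of_le (sum_congr rfl fun w _ => ?_) h1
  rw [avgS_congr a (Y i) u N (w' := extW r₀ w) fun j hj => by simp only [wext, extW, dif_pos hj]]

end Pool.Agent.Lib.MP_08bba9_an.K
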