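import Pool.Agent.Lib.MP_08bba9_an.K.FreeWd

/-! Step K4: one step of the construction of an almost free symmetry. -/

namespace Lib.MP_08bba9_an.K4

variable {M : Type*} [CStarAlgebra M] {ι : Type*} {τ : M →L[ℂ] ℂ} {x : ι → M}

lemma nm3 {a b c : M} {r s t : ℝ} (ha : ‖a‖ ≤ r) (hb : ‖b‖ ≤ s) (hc : ‖c‖ ≤ t) :
    ‖a * b * c‖ ≤ r * s * t := by
  have h0 : 0 ≤ r := (norm_nonneg _).trans ha
  have h1 : 0 ≤ s := (norm_nonneg _).trans hb
  refine (norm_mul_le _ _).trans (mul_le_mul ((norm_mul_le _ _).trans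
    (mul_le_mul ha hb (norm_nonneg _) h0)) hc (norm_nonneg _) (by positivity))

lemma nm2 {a b : M} {r s : ℝ} (ha : ‖a‖ ≤ r) (hb : ‖b‖ ≤ s) : ‖a * b‖ ≤ r * s :=
  (norm_mul_le _ _).trans (mul_le_mul ha hb (norm_nonneg _) ((norm_nonneg _).trans ha))

/-- Second order terms. -/
lemma second (htr : ∀ a b, τ (a * b) = τ (b * a)) (hn : ∀ a, ‖τ a‖ ≤ ‖a‖)
    {q Q Q' X R : M} {ρ ρ' : ℂ} {h c B : ℝ} (hh : 0 ≤ h) (hc : 0 ≤ c)
    (hQ : Q * q = Q) (hQ' : q * Q' = Q') (hQl : q * Q = Q) (nQ : ‖Q‖ ≤ 1) (nQ' : ‖Q'‖ ≤ 1)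
    (hρ : ‖ρ‖ ≤ h) (hρ' : ‖ρ'‖ ≤ h) (nX : ‖X‖ ≤ B) (nR : ‖R‖ ≤ B)
    (H1 : ∀ Z, ‖τ (q * Z)‖ ≤ h * ‖Z‖) (H2 : ∀ Z, ‖τ (q * X * q * Z)‖ ≤ h * c * ‖Z‖) :
    ‖τ ((Q - ρ • (1 : M)) * X * (Q' - ρ' • (1 : M)) * R)‖ ≤ h * c * B + 3 * (h * h * (B * B)) := by
  have hB : 0 ≤ B := (norm_nonneg _).trans nX
  have e : τ ((Q - ρ • (1 : M)) * X * (Q' - ρ' • (1 : M)) * R) =
      τ (q * X * q * (Q' * R * Q)) - ρ' * τ (q * (Q * X * R)) - ρ * τ (q * (Q' * R * X))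
        + ρ * ρ' * τ (X * R) := by
    have e1 : τ (q * X * q * (Q' * R * Q)) = τ (Q * X * Q' * R) := by
      rw [← mul_assoc, htr _ Q]
      simp only [← mul_assoc]
      rw [hQ, mul_assoc (Q * X) q, hQ']
    have e2 : q * (Q * X * R) = Q * X * R := by rw [← mul_assoc, ← mul_assoc, hQl]
    have e3 : τ (q * (Q' * R * X)) = τ (X * Q' * R) := by
      rw [← mul_assoc, ← mul_assoc, hQ', htr _ X, mul_assoc]
    rw [e1, e2, e3]
    simp only [sub_mul, mul_sub, smul_mul_assoc, mul_smul_comm, one_mul, mul_one, map_sub,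
      map_smul, smul_eq_mul]
    ring
  have b1 : ‖τ (q * X * q * (Q' * R * Q))‖ ≤ h * c * B := by
    refine (H2 _).trans (mul_le_mul_of_nonneg_left ?_ (by positivity))
    simpa using nm3 nQ' nR nQ
  have b2 : ‖τ (q * (Q * X * R))‖ ≤ h * (B * B) := by
    refine (H1 _).trans (mul_le_mul_of_nonneg_left ?_ hh)
    simpa using nm3 nQ nX nR
  have b3 : ‖τ (q * (Q' * R * X))‖ ≤ h * (B * B) := by
    refine (H1 _).trans (mul_le_mul_of_nonneg_left ?_ hh)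
    simpa using nm3 nQ' nR nX
  have b4 : ‖τ (X * R)‖ ≤ B * B := (hn _).trans (nm2 nX nR)
  rw [e]
  refine (norm_add_le _ _).trans ?_
  refine (add_le_add_left ((norm_sub_le _ _).trans
    (add_le_add_left (norm_sub_le _ _) _)) _).trans ?_
  rw [norm_mul, norm_mul, norm_mul, norm_mul]
  have t2 := mul_le_mul hρ' b2 (norm_nonneg _) hh
  have t3 := mul_le_mul hρ b3 (norm_nonneg _) hh
  have t4 := mul_le_mul (mul_le_mul hρ hρ' (norm_nonneg _) hh) b4 (norm_nonneg _) (by positivity)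
  nlinarith

/-- STEP: change of the trace of a word when the letters move by `Q - ρ`. -/
lemma step_wd (htr : ∀ a b, τ (a * b) = τ (b * a)) (hn : ∀ a, ‖τ a‖ ≤ ‖a‖)
    (hx : ∀ i, ‖x i‖ ≤ 1) {g g' Q : Bool → M} {ρ : Bool → ℂ} {q : M} {d : ℕ} {h c D₁ : ℝ}
    (hh : 0 ≤ h) (hc : 0 ≤ c) (hD₁ : 0 ≤ D₁)
    (hg : ∀ b, ‖g b‖ ≤ 1) (hg' : ∀ b, ‖g' b‖ ≤ 1)
    (hΔ : ∀ b, g' b - g b = Q b - ρ b • (1 : M))
    (hQr : ∀ b, Q b * q = Q b) (hQl : ∀ b, q * Q b = Q b) (nQ : ∀ b, ‖Q b‖ ≤ 1)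
    (hρ : ∀ b, ‖ρ b‖ ≤ h) (H1 : ∀ Z, ‖τ (q * Z)‖ ≤ h * ‖Z‖)
    (H2 : ∀ l xs, sz l + xs.length + 1 ≤ d → ∀ Z,
      ‖τ (q * (wd τ x g l * blk τ x xs) * q * Z)‖ ≤ h * c * ‖Z‖)
    (H3 : ∀ l xs, sz l + xs.length + 1 ≤ d → ‖τ (wd τ x g l * blk τ x xs)‖ ≤ D₁)
    (l : List (List ι × Bool)) (hl : sz l ≤ d) :
    ‖τ (wd τ x g' l) - τ (wd τ x g l)‖ ≤ d * (h * (c + D₁) + d *
      (h * c * (2 ^ d * 2 ^ d * 2) + 3 * (h * h * ((2 ^ d * 2 ^ d * 2) * (2 ^ d * 2 ^ d * 2))))) := by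
  set B : ℝ := 2 ^ d * 2 ^ d * 2 with hB
  have h2 : (1 : ℝ) ≤ 2 ^ d := one_le_pow₀ (by norm_num)
  have hB0 : 0 ≤ B := by positivity
  set S : ℝ := h * c * B + 3 * (h * h * (B * B)) with hS
  have hS0 : 0 ≤ S := by positivity
  have key := tele (τ := τ) (x := x) g g' 1 (h * (c + D₁) + d * S) l 1 fun l₁ p l₂ e => by
    have hsz : sz l₁ + (p.1.length + 1 + sz l₂) ≤ d := by
      rw [e, sz_append, sz_cons] at hl; exact hl
    rw [one_mul, mul_one, mul_assoc (wd τ x g l₁ * blk τ x p.1), htr, hΔ]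
    have k2 := tele (τ := τ) (x := x) g g' (wd τ x g l₁ * blk τ x p.1) S l₂
      (Q p.2 - ρ p.2 • (1 : M)) fun m₁ r m₂ e' => by
        have hsz' : sz l₂ = sz m₁ + (r.1.length + 1 + sz m₂) := by
          rw [e', sz_append, sz_cons]
        rw [hΔ, mul_assoc _ (wd τ x g m₁), mul_assoc _ (wd τ x g' m₂)]
        refine second htr hn hh hc (hQr _) (hQl _) (hQl _) (nQ _) (nQ _) (hρ _) (hρ _) ?_ ?_ H1
          (H2 m₁ r.1 (by omega))
        · refine (nm2 (norm_wd_le' hn hx hg (d := d) (by omega)) (norm_blk_le hn hx _)).trans ?_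
          rw [hB]; nlinarith
        · rw [← mul_assoc]
          exact nm3 (norm_wd_le' hn hx hg' (by omega)) (norm_wd_le' hn hx hg (by omega))
            (norm_blk_le hn hx _)
    have k3 : ‖τ ((Q p.2 - ρ p.2 • (1 : M)) * wd τ x g l₂ * (wd τ x g l₁ * blk τ x p.1))‖ ≤
        h * (c + D₁) := by
      have hs : sz (l₂ ++ l₁) + p.1.length + 1 ≤ d := by rw [sz_append]; omega
      have e1 : τ ((Q p.2 - ρ p.2 • (1 : M)) * wd τ x g l₂ * (wd τ x g l₁ * blk τ x p.1)) =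
          τ (q * (wd τ x g (l₂ ++ l₁) * blk τ x p.1) * q * Q p.2) -
            ρ p.2 * τ (wd τ x g (l₂ ++ l₁) * blk τ x p.1) := by
        rw [htr _ (Q p.2), ← mul_assoc (Q p.2), ← mul_assoc (Q p.2), hQr, htr _ q,
          ← mul_assoc q, hQl, wd_append]
        simp only [sub_mul, smul_mul_assoc, one_mul, map_sub, map_smul, smul_eq_mul, mul_assoc]
      rw [e1]
      refine (norm_sub_le _ _).trans ?_
      rw [norm_mul]
      have t1 := (H2 _ _ hs (Q p.2)).trans (mul_le_mul_of_nonneg_left (nQ _) (by positivity))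
      have t2 := mul_le_mul (hρ p.2) (H3 _ _ hs) (norm_nonneg _) hh
      linarith
    have k4 : (l₂.length : ℝ) * S ≤ d * S := by
      refine mul_le_mul_of_nonneg_right ?_ hS0
      exact_mod_cast (length_le_sz l₂).trans (by omega)
    have k5 := norm_le_insert' (τ ((Q p.2 - ρ p.2 • (1 : M)) * wd τ x g' l₂ *
      (wd τ x g l₁ * blk τ x p.1))) (τ ((Q p.2 - ρ p.2 • (1 : M)) * wd τ x g l₂ *
      (wd τ x g l₁ * blk τ x p.1)))
    linarith
  simp only [one_mul, mul_one] at key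
  refine key.trans (mul_le_mul_of_nonneg_right ?_ (by positivity))
  exact_mod_cast (length_le_sz l).trans hl

/-- The two letters of a state. -/
noncomputable def lt (τ : M →L[ℂ] ℂ) (v : M) (b : Bool) : M :=
  cond b v (v * v - τ (v * v) • (1 : M))

/-- A state: a selfadjoint tripotent of trace zero. -/
structure St (τ : M →L[ℂ] ℂ) (v : M) : Prop where
  sa : star v = v
  cube : v * v * v = v
  tr0 : τ v = 0

lemma norm_le_of_cube {v : M} (h1 : star v = v) (h2 : v * v * v = v) : ‖v‖ ≤ 1 := by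
  have hp : IsStarProjection (v * v) :=
    ⟨by unfold IsIdempotentElem; rw [← mul_assoc, h2], by
      unfold IsSelfAdjoint; rw [star_mul, h1]⟩
  have h3 : ‖v‖ * ‖v‖ ≤ 1 := by
    rw [← CStarRing.norm_star_mul_self, h1]; exact hp.norm_le
  nlinarith [norm_nonneg v]

lemma St.proj {v : M} (h : St τ v) : IsStarProjection (v * v) :=
  ⟨by unfold IsIdempotentElem; rw [← mul_assoc, h.cube], by
    unfold IsSelfAdjoint; rw [star_mul, h.sa]⟩

lemma norm_proj_sub {e : M} (he : IsStarProjection e) {t : ℝ} (h0 : 0 ≤ t) (h1 : t ≤ 1) :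
    ‖e - (t : ℂ) • (1 : M)‖ ≤ 1 := by
  have e1 : e - (t : ℂ) • (1 : M) = ((1 - t : ℝ) : ℂ) • e - (t : ℂ) • (1 - e) := by
    push_cast
    simp only [sub_smul, smul_sub, one_smul]
    abel
  rw [e1]
  refine (norm_sub_le _ _).trans ?_
  rw [norm_smul, norm_smul, Complex.norm_real, Complex.norm_real, Real.norm_of_nonneg h0,
    Real.norm_of_nonneg (by linarith)]
  nlinarith [he.norm_le, he.one_sub.norm_le]

lemma St.norm_lt {v : M} (h : St τ v) {t : ℝ} (ht : τ (v * v) = t) (h0 : 0 ≤ t) (h1 : t ≤ 1)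
    (b : Bool) : ‖lt τ v b‖ ≤ 1 := by
  cases b
  · simpa only [lt, cond_false, ht] using norm_proj_sub h.proj h0 h1
  · exact norm_le_of_cube h.sa h.cube

lemma St.tau_lt (h1 : τ 1 = 1) {v : M} (h : St τ v) (b : Bool) : τ (lt τ v b) = 0 := by
  cases b
  · simp [lt, h1]
  · exact h.tr0

lemma St.mul_lt {v : M} (h : St τ v) {t : ℝ} (ht : τ (v * v) = t) (h0 : 0 ≤ t) (h1 : t ≤ 1)
    (b b' : Bool) : ∃ α β γ : ℂ, ‖α‖ ≤ 1 ∧ ‖β‖ ≤ 1 ∧ ‖γ‖ ≤ 1 ∧
      lt τ v b * lt τ v b' = α • lt τ v true + β • lt τ v false + γ • (1 : M) := by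
  have n : ∀ s : ℝ, -1 ≤ s → s ≤ 1 → ‖(s : ℂ)‖ ≤ 1 := fun s a b => by
    rw [Complex.norm_real, Real.norm_eq_abs]; exact abs_le.2 ⟨a, b⟩
  have c1 := h.cube
  have c2 : v * (v * v) = v := by rw [← mul_assoc, c1]
  have c3 : v * v * (v * v) = v * v := by rw [← mul_assoc, c1]
  cases b <;> cases b' <;> simp only [lt, cond_false, cond_true, ht]
  · refine ⟨0, ((1 - 2 * t : ℝ) : ℂ), ((t - t * t : ℝ) : ℂ), by simp,
      n _ (by linarith) (by linarith), n _ (by nlinarith) (by nlinarith), ?_⟩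
    simp only [mul_sub, sub_mul, smul_mul_assoc, mul_smul_comm, one_mul, mul_one, c3]
    push_cast
    module
  · refine ⟨((1 - t : ℝ) : ℂ), 0, 0, n _ (by linarith) (by linarith), by simp, by simp, ?_⟩
    simp only [sub_mul, smul_mul_assoc, one_mul, c1]
    push_cast
    module
  · refine ⟨((1 - t : ℝ) : ℂ), 0, 0, n _ (by linarith) (by linarith), by simp, by simp, ?_⟩
    simp only [mul_sub, mul_smul_comm, mul_one, c2]
    push_cast
    module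
  · refine ⟨0, 1, (t : ℂ), by simp, by simp, n _ (by linarith) h1, ?_⟩
    module

end Lib.MP_08bba9_an.K4
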