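import Pool.Agent.Lib.MP_08bba9_an.K.Fill
import Pool.Agent.Lib.MP_08bba9_an.K.QuantA

/-! Choice of the constants in the quantisation step. -/

open Finset
open scoped ComplexOrder

namespace Pool.Agent.Lib.MP_08bba9_an.K

open Quant

variable {M : Type*} [CStarAlgebra M] {τ : M →L[ℂ] ℂ}

/-- The quantisation step with free constants. -/
def QuantOut (τ : M →L[ℂ] ℂ) (I : Type*) [Fintype I] : Prop :=
  ∀ (f : M) (K : ℕ) (v : Fin K → M) (r1 r2 : M) (Y : I → M), IsStarProjection f → 1 ≤ K →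
    IsStarProjection r1 → IsStarProjection r2 → r1 * r2 = 0 → τ r1 = τ r2 →
    (∀ l m, star (v l) * v m = if l = m then r1 + r2 else 0) → (∀ l, f * v l = v l) →
    0 < (τ (r1 + r2)).re → (∀ j, ‖Y j‖ ≤ 1) →
    ∃ q w : M, IsStarProjection q ∧ f * q = q ∧ star w = w ∧ w * w = q ∧ τ w = 0 ∧
      τ q = τ (r1 + r2) ∧ ∀ j, n2 τ (q * Y j * q) ≤
        √(τ q).re * ((‖τ (f * Y j)‖ + ((τ f).re - K * (τ (r1 + r2)).re)) /
          (K * (τ (r1 + r2)).re)) + 5 * √(τ q).re * √(Fintype.card I / K)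

theorem glue3_of (htr : ∀ a b, τ (a * b) = τ (b * a)) (hp : ∀ x, 0 ≤ τ (star x * x))
    (h1 : τ 1 = 1) (hcmp : Cmp τ)
    (hD : ∀ ε : ℝ, 0 < ε → ∃ s, IsStarProjection s ∧ 0 < (τ s).re ∧ (τ s).re ≤ ε)
    (I : Type*) [Fintype I] (hQ : QuantOut τ I) {γ η : ℝ} (hγ : 0 < γ) (hη : 0 < η) :
    ∃ c : ℝ, 0 < c ∧ ∀ (f : M) (Y : I → M), IsStarProjection f → η ≤ (τ f).re →
      (∀ j, ‖Y j‖ ≤ 1) → ∃ q w : M, IsStarProjection q ∧ f * q = q ∧ star w = w ∧ w * w = q ∧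
        τ w = 0 ∧ c ≤ (τ q).re ∧ (τ q).re ≤ γ ∧ ∀ j,
          (τ (star (q * Y j * q) * (q * Y j * q))).re ≤
            (τ q).re * (2 * ‖τ (f * Y j)‖ / η + γ) ^ 2 := by
  have hpos : ∀ x, 0 ≤ (τ (star x * x)).re := fun x => (Complex.nonneg_iff.1 (hp x)).1
  obtain ⟨K, hK⟩ := exists_nat_ge (max (1 / γ) (100 * Fintype.card I / γ ^ 2))
  have k1 : 1 / γ ≤ K := (le_max_left _ _).trans hK
  have k2 : 100 * (Fintype.card I : ℝ) / γ ^ 2 ≤ K := (le_max_right _ _).trans hK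
  have K0 : (0 : ℝ) < K := lt_of_lt_of_le (by positivity) k1
  have K1 : 1 ≤ K := by exact_mod_cast K0
  refine ⟨η / (2 * K), by positivity, fun f Y hf hfη hY => ?_⟩
  have hδ : 0 < min (η / 2) (γ * η / 4) := lt_min (by positivity) (by positivity)
  have d1 := min_le_left (η / 2) (γ * η / 4)
  have d2 := min_le_right (η / 2) (γ * η / 4)
  obtain ⟨v, r1, r2, p1, p2, h12, hτ, ho, hfv, lo, hi⟩ :=
    fill htr hpos h1 hcmp hD hf (hη.trans_le hfη) K1 hδ
  have a1 : η / 2 ≤ K * (τ (r1 + r2)).re := by linarith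
  have a0 : 0 < (τ (r1 + r2)).re := by
    by_contra hc
    have := mul_nonpos_of_nonneg_of_nonpos K0.le (not_lt.1 hc)
    linarith
  obtain ⟨q, w, hq, hfq, hw, hww, hw0, hqr, hb⟩ := hQ f K v r1 r2 Y hf K1 p1 p2 h12 hτ ho hfv a0 hY
  have f1 : (τ f).re ≤ 1 := by
    have := fl_mono hpos hf (IsStarProjection.one M) (one_mul f)
    rwa [h1, Complex.one_re] at this
  refine ⟨q, w, hq, hfq, hw, hww, hw0, ?_, ?_, fun j => ?_⟩
  · rw [hqr, div_le_iff₀ (by positivity)]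
    linarith
  · rw [hqr]
    rw [div_le_iff₀ hγ] at k1
    nlinarith
  · have q0 : 0 ≤ (τ q).re := by rw [hqr]; exact a0.le
    have b1 : (‖τ (f * Y j)‖ + ((τ f).re - K * (τ (r1 + r2)).re)) / (K * (τ (r1 + r2)).re) ≤
        2 * ‖τ (f * Y j)‖ / η + γ / 2 := by
      calc _ ≤ (‖τ (f * Y j)‖ + γ * η / 4) / (η / 2) := by
            gcongr
            linarith
        _ = _ := by field_simp; ring
    have b2 : √(Fintype.card I / K : ℝ) ≤ γ / 10 := by
      rw [Real.sqrt_le_left (by positivity), div_le_iff₀ K0]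
      rw [div_le_iff₀ (by positivity)] at k2
      nlinarith
    have b3 : n2 τ (q * Y j * q) ≤ √(τ q).re * (2 * ‖τ (f * Y j)‖ / η + γ) := by
      refine (hb j).trans ?_
      have s0 := Real.sqrt_nonneg (τ q).re
      nlinarith [mul_le_mul_of_nonneg_left b1 s0, mul_le_mul_of_nonneg_left b2 s0]
    have b4 := pow_le_pow_left₀ (n2_nonneg _) b3 2
    rwa [n2_sq hp, mul_pow, Real.sq_sqrt q0] at b4

end Pool.Agent.Lib.MP_08bba9_an.K
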