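import Pool.Agent.Lib.MP_08bba9_an.K.Disp
import Pool.Agent.Lib.MP_08bba9_an.K.Sp

/-! The sign martingale: labels in `{1, d}` make the averaged word small in the trace norm. -/

noncomputable section

namespace Pool.Agent.Lib.MP_08bba9_an.K

open Finset

variable {M : Type*} [CStarAlgebra M] {W : Type*}

theorem pre_unitary' {a : W → M} {u : ℕ → M} (ha : ∀ r, a r ∈ unitary M)
    (hu : ∀ i, u i ∈ unitary M) (w : ℕ → W) (i : ℕ) : pre a u w i ∈ unitary M := by
  induction i with
  | zero => exact one_mem _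
  | succ i ih => exact mul_mem (mul_mem ih (ha _)) (hu i)

theorem pre_congr_u (a : W → M) {u u' : ℕ → M} (w : ℕ → W) (i : ℕ)
    (h : ∀ j < i, u j = u' j) : pre a u w i = pre a u' w i := by
  induction i with
  | zero => rfl
  | succ i ih =>
    rw [pre, pre, ih fun j hj => h j (hj.trans (Nat.lt_succ_self i)), h i (Nat.lt_succ_self i)]

theorem norm_conj_le {B Y : M} (hB : B ∈ unitary M) : ‖B * Y * star B‖ = ‖Y‖ := by
  rw [CStarRing.norm_mul_mem_unitary _ (Unitary.star_mem hB), CStarRing.norm_mem_unitary_mul _ hB]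

theorem norm_avgS_le' {a S : W → M} {u : ℕ → M} (ha : ∀ r, a r ∈ unitary M)
    (hu : ∀ i, u i ∈ unitary M) (hS : ∀ r, ‖S r‖ ≤ 1) (N : ℕ) (w : ℕ → W) :
    ‖avgS a S u N w‖ ≤ 1 := by
  rcases Nat.eq_zero_or_pos N with rfl | hN
  · simp [avgS]
  have hN' : (0 : ℝ) < N := by exact_mod_cast hN
  rw [avgS, norm_smul, norm_inv, Complex.norm_natCast, inv_mul_le_iff₀ hN', mul_one]
  refine (norm_sum_le _ _).trans ?_
  calc _ ≤ ∑ _i ∈ range N, (1 : ℝ) := sum_le_sum fun i _ => by
        rw [norm_conj_le (pre_unitary' ha hu w i)]; exact hS _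
    _ = N := by simp

theorem tr_sq_le_one (τ : M →L[ℂ] ℂ) (pos : ∀ x, 0 ≤ (τ (star x * x)).re) (τ1 : τ 1 = 1)
    {x : M} (hx : ‖x‖ ≤ 1) : (τ (x * star x)).re ≤ 1 := by
  let _ : PartialOrder M := CStarAlgebra.spectralOrder M
  have _ : StarOrderedRing M := CStarAlgebra.spectralOrderedRing M
  have h1 : x * star x ≤ 1 := by
    rw [← CStarAlgebra.norm_le_one_iff_of_nonneg _ (mul_star_self_nonneg x),
      CStarRing.norm_self_mul_star]
    exact mul_le_one₀ hx (norm_nonneg _) hx
  obtain ⟨c, hc⟩ := CStarAlgebra.nonneg_iff_eq_star_mul_self.1 (sub_nonneg.2 h1)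
  have := pos c
  rw [← hc, map_sub, τ1, Complex.sub_re, Complex.one_re] at this
  linarith

/-- Greedy choice of the labels. -/
theorem k6_sum (τ : M →L[ℂ] ℂ) (pos : ∀ x, 0 ≤ (τ (star x * x)).re) (τ1 : τ 1 = 1)
    {d : M} (hd : star d = d) (dd : d * d = 1) {Ω : Type*} [Fintype Ω] (w : Ω → ℕ → W)
    {a : W → M} {Y : Ω → W → M} (ha : ∀ r, a r ∈ unitary M) (hY : ∀ ω r, ‖Y ω r‖ ≤ 1)
    (hdY : ∀ ω r, d * Y ω r * d = -Y ω r) (n : ℕ) :
    ∃ u : ℕ → M, (∀ i, u i ∈ unitary M) ∧
      ∑ ω, (τ ((∑ i ∈ range n, pre a u (w ω) i * Y ω (w ω i) * star (pre a u (w ω) i)) *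
        star (∑ i ∈ range n, pre a u (w ω) i * Y ω (w ω i) * star (pre a u (w ω) i)))).re ≤
        n * Fintype.card Ω := by
  have du : d ∈ unitary M := ⟨by rw [hd, dd], by rw [hd, dd]⟩
  induction n with
  | zero => exact ⟨fun _ => 1, fun _ => one_mem _, by simp⟩
  | succ n ih =>
    obtain ⟨u, hu, h⟩ := ih
    have hz : ∀ ω, (τ ((pre a u (w ω) n * Y ω (w ω n) * star (pre a u (w ω) n)) *
        star (pre a u (w ω) n * Y ω (w ω n) * star (pre a u (w ω) n)))).re ≤ 1 := fun ω =>
      tr_sq_le_one τ pos τ1 (by rw [norm_conj_le (pre_unitary' ha hu _ n)]; exact hY _ _)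
    have hz' := sum_le_sum fun ω (_ : ω ∈ (univ : Finset Ω)) => hz ω
    rw [sum_const, card_univ, nsmul_eq_mul, mul_one] at hz'
    rcases n with _ | n
    · refine ⟨u, hu, ?_⟩
      simpa using hz'
    set u' : ℕ → M := Function.update u n (u n * d) with hu'
    have hu'' : ∀ i, u' i ∈ unitary M := by
      intro i
      by_cases hi : i = n
      · subst hi
        rw [hu', Function.update_self]
        exact mul_mem (hu i) du
      · rw [hu', Function.update_of_ne hi]
        exact hu i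
    have e1 : ∀ ω, ∀ i < n + 1, pre a u' (w ω) i = pre a u (w ω) i := fun ω i hi =>
      pre_congr_u a _ i fun j hj => Function.update_of_ne (by omega) _ _
    have e2 : ∀ ω, pre a u' (w ω) (n + 1) * Y ω (w ω (n + 1)) * star (pre a u' (w ω) (n + 1)) =
        -(pre a u (w ω) (n + 1) * Y ω (w ω (n + 1)) * star (pre a u (w ω) (n + 1))) := by
      intro ω
      have : pre a u' (w ω) (n + 1) = pre a u (w ω) (n + 1) * d := by
        rw [pre, pre, e1 ω n (Nat.lt_succ_self n), hu', Function.update_self, ← mul_assoc]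
      rw [this, star_mul, hd, ← neg_mul, ← mul_neg, ← hdY]
      noncomm_ring
    have e3 : ∀ ω, ∑ i ∈ range (n + 1), pre a u' (w ω) i * Y ω (w ω i) * star (pre a u' (w ω) i) =
        ∑ i ∈ range (n + 1), pre a u (w ω) i * Y ω (w ω i) * star (pre a u (w ω) i) := fun ω =>
      sum_congr rfl fun i hi => by rw [e1 ω i (mem_range.1 hi)]
    have par : ∀ T z : M, (τ ((T + z) * star (T + z))).re + (τ ((T + -z) * star (T + -z))).re =
        2 * (τ (T * star T)).re + 2 * (τ (z * star z)).re := by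
      intro T z
      have : (T + z) * star (T + z) + (T + -z) * star (T + -z) =
          (T * star T + T * star T) + (z * star z + z * star z) := by
        rw [star_add, star_add, star_neg]; noncomm_ring
      have h2 := congrArg (fun x => (τ x).re) this
      simp only [map_add, Complex.add_re] at h2
      linarith
    have tot := sum_congr (rfl : (univ : Finset Ω) = univ) fun ω _ =>
      par (∑ i ∈ range (n + 1), pre a u (w ω) i * Y ω (w ω i) * star (pre a u (w ω) i))
        (pre a u (w ω) (n + 1) * Y ω (w ω (n + 1)) * star (pre a u (w ω) (n + 1)))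
    rw [sum_add_distrib, sum_add_distrib, ← mul_sum, ← mul_sum] at tot
    by_contra hc
    push Not at hc
    have c1 := hc u hu
    have c2 := hc u' hu''
    simp only [sum_range_succ _ (n + 1)] at c1 c2
    simp only [e3, e2] at c2
    push_cast at c1 c2 h
    linarith

/-- K6: on average over any finite family of words the averaged word is small in the trace norm. -/
theorem k6 (τ : M →L[ℂ] ℂ) (pos : ∀ x, 0 ≤ (τ (star x * x)).re) (τ1 : τ 1 = 1)
    {d : M} (hd : star d = d) (dd : d * d = 1) {Ω : Type*} [Fintype Ω] (w : Ω → ℕ → W)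
    {a : W → M} {Y : Ω → W → M} (ha : ∀ r, a r ∈ unitary M) (hY : ∀ ω r, ‖Y ω r‖ ≤ 1)
    (hdY : ∀ ω r, d * Y ω r * d = -Y ω r) {N : ℕ} (hN : 0 < N) :
    ∃ u : ℕ → M, (∀ i, u i ∈ unitary M) ∧
      ∑ ω, (τ (avgS a (Y ω) u N (w ω) * star (avgS a (Y ω) u N (w ω)))).re ≤ Fintype.card Ω / N := by
  obtain ⟨u, hu, h⟩ := k6_sum τ pos τ1 hd dd w ha hY hdY N
  refine ⟨u, hu, ?_⟩
  have hN' : (0 : ℝ) < N := by exact_mod_cast hN
  have e : ∀ T : M, (τ (((N : ℂ)⁻¹ • T) * star ((N : ℂ)⁻¹ • T))).re =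
      ((N : ℝ) ^ 2)⁻¹ * (τ (T * star T)).re := by
    intro T
    rw [star_smul, smul_mul_smul_comm, map_smul, smul_eq_mul, ← Complex.re_ofReal_mul]
    congr 2
    simp [sq]
  simp only [avgS, e]
  rw [← mul_sum, inv_mul_le_iff₀ (by positivity)]
  refine h.trans (le_of_eq ?_)
  field_simp

end Pool.Agent.Lib.MP_08bba9_an.K
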